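import Pool.Agent.TH408.GR.Stm

/-!
# The star system of the alternating group
-/

set_option autoImplicit false

open Finset Equiv
open scoped Classical

namespace Pool.Agent.TH408.GR.ALT1

open Pool.Agent.TH408.GR

variable {n : ℕ}

/-- the 3-cycle `a → b → c → a` -/
def rho (a b c : Fin n) : Perm (Fin n) := swap a b * swap b c

lemma rho_conj (u : Perm (Fin n)) (a b c : Fin n) :
    u * rho a b c * u⁻¹ = rho (u a) (u b) (u c) := by
  have h1 : u * swap a b = swap (u a) (u b) * u := Equiv.mul_swap_eq_swap_mul _ _ _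
  have h2 : u * swap b c = swap (u b) (u c) * u := Equiv.mul_swap_eq_swap_mul _ _ _
  unfold rho
  rw [← mul_assoc, h1, mul_assoc (swap (u a) (u b)), h2, mul_assoc, mul_assoc, mul_inv_cancel,
    mul_one]

lemma rho_mem {a b c : Fin n} (hab : a ≠ b) (hbc : b ≠ c) :
    rho a b c ∈ alternatingGroup (Fin n) := by
  rw [Equiv.Perm.mem_alternatingGroup, rho, Equiv.Perm.sign_mul, Equiv.Perm.sign_swap hab,
    Equiv.Perm.sign_swap hbc]
  rfl

lemma rho_a {a b c : Fin n} (hab : a ≠ b) (hac : a ≠ c) : rho a b c a = b := by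
  unfold rho
  rw [Equiv.Perm.mul_apply, swap_apply_of_ne_of_ne hab hac, swap_apply_left]

lemma rho_b {a b c : Fin n} (hac : a ≠ c) (hbc : b ≠ c) : rho a b c b = c := by
  unfold rho
  rw [Equiv.Perm.mul_apply, swap_apply_left, swap_apply_of_ne_of_ne hac.symm hbc.symm]

lemma rho_c (a b c : Fin n) : rho a b c c = a := by
  unfold rho
  rw [Equiv.Perm.mul_apply, swap_apply_right, swap_apply_right]

lemma rho_of {a b c x : Fin n} (ha : x ≠ a) (hb : x ≠ b) (hc : x ≠ c) : rho a b c x = x := by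
  unfold rho
  rw [Equiv.Perm.mul_apply, swap_apply_of_ne_of_ne hb hc, swap_apply_of_ne_of_ne ha hb]

/-- a point outside a set of at most 5 points -/
lemma exists_out (hn : 6 ≤ n) (a b c d e : Fin n) :
    ∃ z : Fin n, z ≠ a ∧ z ≠ b ∧ z ≠ c ∧ z ≠ d ∧ z ≠ e := by
  have h : ∃ z : Fin n, z ∉ ({a, b, c, d, e} : Finset (Fin n)) := by
    by_contra hcon
    push Not at hcon
    have h1 : (univ : Finset (Fin n)) ⊆ {a, b, c, d, e} := fun z _ => hcon z
    have h2 := Finset.card_le_card h1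
    have h3 : ({a, b, c, d, e} : Finset (Fin n)).card ≤ 5 := Finset.card_le_five
    rw [Finset.card_univ, Fintype.card_fin] at h2
    omega
  obtain ⟨z, hz⟩ := h
  simp only [Finset.mem_insert, Finset.mem_singleton, not_or] at hz
  exact ⟨z, hz⟩

/-- an even permutation with `s x = y` which fixes `a`, `b`, `c` if they are not `x` or `y` -/
lemma exists_move (hn : 6 ≤ n) (x y a b c : Fin n) :
    ∃ s : alternatingGroup (Fin n), (s : Perm (Fin n)) x = y ∧
      ∀ w, (w = a ∨ w = b ∨ w = c) → w ≠ x → w ≠ y → (s : Perm (Fin n)) w = w := by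
  by_cases hxy : x = y
  · exact ⟨1, by simpa using hxy, fun w _ _ _ => rfl⟩
  · obtain ⟨z, hzx, hzy, hza, hzb, hzc⟩ := exists_out hn x y a b c
    refine ⟨⟨swap x z * swap x y, ?_⟩, ?_, ?_⟩
    · rw [Equiv.Perm.mem_alternatingGroup, Equiv.Perm.sign_mul, Equiv.Perm.sign_swap hzx.symm,
        Equiv.Perm.sign_swap hxy]
      rfl
    · show (swap x z * swap x y) x = y
      rw [Equiv.Perm.mul_apply, swap_apply_left,
        swap_apply_of_ne_of_ne (fun h => hxy h.symm) (fun h => hzy h.symm)]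
    · intro w hw hwx hwy
      have hwz : w ≠ z := by
        rintro rfl
        rcases hw with h | h | h
        · exact hza h
        · exact hzb h
        · exact hzc h
      show (swap x z * swap x y) w = w
      rw [Equiv.Perm.mul_apply, swap_apply_of_ne_of_ne hwx hwy, swap_apply_of_ne_of_ne hwx hwz]

/-- an even permutation with prescribed images of three points -/
lemma exists_three (hn : 6 ≤ n) (a b c x y z : Fin n) (hab : a ≠ b) (hac : a ≠ c) (hbc : b ≠ c)
    (hxy : x ≠ y) (hxz : x ≠ z) (hyz : y ≠ z) :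
    ∃ s : alternatingGroup (Fin n), (s : Perm (Fin n)) a = x ∧ (s : Perm (Fin n)) b = y ∧
      (s : Perm (Fin n)) c = z := by
  have h1 : ∃ σ : Perm (Fin n), σ a = x ∧ σ b = y ∧ σ c = z := by
    obtain ⟨σ₁, hσ₁⟩ : ∃ σ : Perm (Fin n), σ a = x := ⟨swap a x, swap_apply_left _ _⟩
    obtain ⟨σ₂, h2a, h2b⟩ : ∃ σ : Perm (Fin n), σ a = x ∧ σ b = y := by
      refine ⟨swap (σ₁ b) y * σ₁, ?_, ?_⟩
      · rw [Equiv.Perm.mul_apply, hσ₁, swap_apply_of_ne_of_ne _ hxy]
        rw [← hσ₁]
        exact fun h => hab (σ₁.injective h)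
      · rw [Equiv.Perm.mul_apply, swap_apply_left]
    refine ⟨swap (σ₂ c) z * σ₂, ?_, ?_, ?_⟩
    · rw [Equiv.Perm.mul_apply, h2a, swap_apply_of_ne_of_ne _ hxz]
      rw [← h2a]
      exact fun h => hac (σ₂.injective h)
    · rw [Equiv.Perm.mul_apply, h2b, swap_apply_of_ne_of_ne _ hyz]
      rw [← h2b]
      exact fun h => hbc (σ₂.injective h)
    · rw [Equiv.Perm.mul_apply, swap_apply_left]
  obtain ⟨σ, ha, hb, hc⟩ := h1
  rcases Int.units_eq_one_or (Equiv.Perm.sign σ) with hs | hs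
  · exact ⟨⟨σ, Equiv.Perm.mem_alternatingGroup.2 hs⟩, ha, hb, hc⟩
  · obtain ⟨u, hua, hub, huc, -, -⟩ := exists_out hn a b c a a
    obtain ⟨v, hva, hvb, hvc, hvu, -⟩ := exists_out hn a b c u u
    refine ⟨⟨σ * swap u v, ?_⟩, ?_, ?_, ?_⟩
    · rw [Equiv.Perm.mem_alternatingGroup, Equiv.Perm.sign_mul, hs,
        Equiv.Perm.sign_swap hvu.symm]
      rfl
    · show (σ * swap u v) a = x
      rw [Equiv.Perm.mul_apply, swap_apply_of_ne_of_ne hua.symm hva.symm, ha]
    · show (σ * swap u v) b = y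
      rw [Equiv.Perm.mul_apply, swap_apply_of_ne_of_ne hub.symm hvb.symm, hb]
    · show (σ * swap u v) c = z
      rw [Equiv.Perm.mul_apply, swap_apply_of_ne_of_ne huc.symm hvc.symm, hc]

/-- the structure for the alternating group -/
def act (hn : 6 ≤ n) : Act (alternatingGroup (Fin n)) (Fin n) where
  e0 := ⟨0, by omega⟩
  e1 := ⟨1, by omega⟩
  e2 := ⟨2, by omega⟩
  k := ⟨rho ⟨0, by omega⟩ ⟨1, by omega⟩ ⟨2, by omega⟩, rho_mem (by simp) (by simp)⟩
  h01 := by simp
  h02 := by simp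
  h12 := by simp
  conj := by
    intro u v h0 h1 h2
    apply Subtype.ext
    show (u : Perm (Fin n)) * rho _ _ _ * (u : Perm (Fin n))⁻¹ =
      (v : Perm (Fin n)) * rho _ _ _ * (v : Perm (Fin n))⁻¹
    rw [rho_conj, rho_conj]
    have h0' : (u : Perm (Fin n)) ⟨0, by omega⟩ = (v : Perm (Fin n)) ⟨0, by omega⟩ := h0
    have h1' : (u : Perm (Fin n)) ⟨1, by omega⟩ = (v : Perm (Fin n)) ⟨1, by omega⟩ := h1
    have h2' : (u : Perm (Fin n)) ⟨2, by omega⟩ = (v : Perm (Fin n)) ⟨2, by omega⟩ := h2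
    rw [h0', h1', h2']
  t1 := by
    intro x y
    obtain ⟨s, hs, -⟩ := exists_move hn x y x x x
    exact ⟨s, hs⟩
  t3 := by
    intro x y hx0 hx1 hy0 hy1
    obtain ⟨s, hs, h⟩ := exists_move hn x y ⟨0, by omega⟩ ⟨1, by omega⟩ ⟨1, by omega⟩
    exact ⟨s, h _ (Or.inl rfl) hx0.symm hy0.symm, h _ (Or.inr (Or.inl rfl)) hx1.symm hy1.symm, hs⟩
  t4 := by
    intro x y hx0 hx1 hx2 hy0 hy1 hy2
    obtain ⟨s, hs, h⟩ := exists_move hn x y ⟨0, by omega⟩ ⟨1, by omega⟩ ⟨2, by omega⟩
    exact ⟨s, h _ (Or.inl rfl) hx0.symm hy0.symm, h _ (Or.inr (Or.inl rfl)) hx1.symm hy1.symm,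
      h _ (Or.inr (Or.inr rfl)) hx2.symm hy2.symm, hs⟩

/-- the point `x` -/
def pt (hn : 6 ≤ n) (x : ℕ) : Fin n := ⟨x % n, Nat.mod_lt _ (by omega)⟩

lemma pt_ne (hn : 6 ≤ n) {x y : ℕ} (hx : x < n) (hy : y < n) (h : x ≠ y) : pt hn x ≠ pt hn y := by
  intro h2
  apply h
  have := congrArg Fin.val h2
  simpa [pt, Nat.mod_eq_of_lt hx, Nat.mod_eq_of_lt hy] using this

lemma exists_pi (hn : 6 ≤ n) (j i : ℕ) : ∃ s : alternatingGroup (Fin n),
    j + 3 < n → i < j + 2 → (s : Perm (Fin n)) (act hn).e0 = pt hn (j + 2) ∧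
      (s : Perm (Fin n)) (act hn).e1 = pt hn (n - 1) ∧
      (s : Perm (Fin n)) (act hn).e2 = pt hn i := by
  by_cases h : j + 3 < n ∧ i < j + 2
  · obtain ⟨s, h1, h2, h3⟩ := exists_three hn (act hn).e0 (act hn).e1 (act hn).e2
      (pt hn (j + 2)) (pt hn (n - 1)) (pt hn i) (act hn).h01 (act hn).h02 (act hn).h12
      (pt_ne hn (by omega) (by omega) (by omega)) (pt_ne hn (by omega) (by omega) (by omega))
      (pt_ne hn (by omega) (by omega) (by omega))
    exact ⟨s, fun _ _ => ⟨h1, h2, h3⟩⟩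
  · exact ⟨1, fun h1 h2 => absurd ⟨h1, h2⟩ h⟩

/-- the permutation `r_j(i)` -/
lemma r_fix (hn : 6 ≤ n) {j i x : ℕ} (hj : j + 3 < n) (hi : i < j + 2) (hx : j + 2 < x)
    (hxn : x < n) :
    (rho (pt hn (j + 2)) (pt hn (n - 1)) (pt hn i) *
      (rho (pt hn (j + 2)) (pt hn (n - 1)) (pt hn 0))⁻¹) (pt hn x) = pt hn x := by
  have hp0 : pt hn (j + 2) ≠ pt hn 0 := pt_ne hn (by omega) (by omega) (by omega)
  have hq0 : pt hn (n - 1) ≠ pt hn 0 := pt_ne hn (by omega) (by omega) (by omega)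
  have hpq : pt hn (j + 2) ≠ pt hn (n - 1) := pt_ne hn (by omega) (by omega) (by omega)
  have hpi : pt hn (j + 2) ≠ pt hn i := pt_ne hn (by omega) (by omega) (by omega)
  have hqi : pt hn (n - 1) ≠ pt hn i := pt_ne hn (by omega) (by omega) (by omega)
  rw [Equiv.Perm.mul_apply]
  by_cases hxq : x = n - 1
  · subst hxq
    have h1 : (rho (pt hn (j + 2)) (pt hn (n - 1)) (pt hn 0))⁻¹ (pt hn (n - 1)) =
        pt hn (j + 2) := by
      rw [Equiv.Perm.inv_eq_iff_eq, rho_a hpq hp0]
    rw [h1, rho_a hpq hpi]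
  · have hxp' : pt hn x ≠ pt hn (j + 2) := pt_ne hn (by omega) (by omega) (by omega)
    have hxq' : pt hn x ≠ pt hn (n - 1) := pt_ne hn (by omega) (by omega) (by omega)
    have hx0' : pt hn x ≠ pt hn 0 := pt_ne hn (by omega) (by omega) (by omega)
    have hxi' : pt hn x ≠ pt hn i := pt_ne hn (by omega) (by omega) (by omega)
    have h1 : (rho (pt hn (j + 2)) (pt hn (n - 1)) (pt hn 0))⁻¹ (pt hn x) = pt hn x := by
      rw [Equiv.Perm.inv_eq_iff_eq, rho_of hxp' hxq' hx0']
    rw [h1, rho_of hxp' hxq' hxi']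

lemma r_inv (hn : 6 ≤ n) {j i : ℕ} (hj : j + 3 < n) (hi : i < j + 2) :
    (rho (pt hn (j + 2)) (pt hn (n - 1)) (pt hn i) *
      (rho (pt hn (j + 2)) (pt hn (n - 1)) (pt hn 0))⁻¹) (pt hn (if i = 0 then j + 2 else i)) =
      pt hn (j + 2) := by
  have hp0 : pt hn (j + 2) ≠ pt hn 0 := pt_ne hn (by omega) (by omega) (by omega)
  have hq0 : pt hn (n - 1) ≠ pt hn 0 := pt_ne hn (by omega) (by omega) (by omega)
  have hpq : pt hn (j + 2) ≠ pt hn (n - 1) := pt_ne hn (by omega) (by omega) (by omega)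
  by_cases hi0 : i = 0
  · subst hi0
    rw [mul_inv_cancel, if_pos rfl]
    rfl
  · rw [if_neg hi0, Equiv.Perm.mul_apply]
    have hxp' : pt hn i ≠ pt hn (j + 2) := pt_ne hn (by omega) (by omega) (by omega)
    have hxq' : pt hn i ≠ pt hn (n - 1) := pt_ne hn (by omega) (by omega) (by omega)
    have hx0' : pt hn i ≠ pt hn 0 := pt_ne hn (by omega) (by omega) (by omega)
    have h1 : (rho (pt hn (j + 2)) (pt hn (n - 1)) (pt hn 0))⁻¹ (pt hn i) = pt hn i := by
      rw [Equiv.Perm.inv_eq_iff_eq, rho_of hxp' hxq' hx0']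
    rw [h1, rho_c]

theorem tALT1 : S_ALT1 := by
  intro n hn
  choose π hπ using fun j i => exists_pi (n := n) hn j i
  refine ⟨act hn, π, fun j => (π j 0 * (act hn).k * (π j 0)⁻¹)⁻¹, ?_, ?_, ?_⟩
  · intro j _
    show 0 < j + 2
    omega
  · intro j hj i i' hi hi'
    have h1 := hπ j i (by omega) hi
    have h2 := hπ j i' (by omega) hi'
    constructor
    · show (π j i : Perm (Fin n)) _ = (π j i' : Perm (Fin n)) _
      rw [h1.1, h2.1]
    · show (π j i : Perm (Fin n)) _ = (π j i' : Perm (Fin n)) _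
      rw [h1.2.1, h2.2.1]
  · -- the factors
    have hk : ∀ j i, j + 3 < n → i < j + 2 →
        ((π j i * (act hn).k * (π j i)⁻¹ : alternatingGroup (Fin n)) : Perm (Fin n)) =
          rho (pt hn (j + 2)) (pt hn (n - 1)) (pt hn i) := by
      intro j i hj hi
      obtain ⟨h0, h1, h2⟩ := hπ j i hj hi
      show (π j i : Perm (Fin n)) * rho (act hn).e0 (act hn).e1 (act hn).e2 *
        (π j i : Perm (Fin n))⁻¹ = _
      rw [rho_conj, h0, h1, h2]
    have hr : ∀ j i, j + 3 < n → i < j + 2 →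
        ((π j i * (act hn).k * (π j i)⁻¹ * (π j 0 * (act hn).k * (π j 0)⁻¹)⁻¹ :
          alternatingGroup (Fin n)) : Perm (Fin n)) =
          rho (pt hn (j + 2)) (pt hn (n - 1)) (pt hn i) *
            (rho (pt hn (j + 2)) (pt hn (n - 1)) (pt hn 0))⁻¹ := by
      intro j i hj hi
      rw [Subgroup.coe_mul, Subgroup.coe_inv, hk j i hj hi, hk j 0 hj (by omega)]
    obtain ⟨V, hV⟩ : ∃ V : ℕ → (ℕ → ℕ) → alternatingGroup (Fin n),
        V = prR (act hn).k π (fun j => (π j 0 * (act hn).k * (π j 0)⁻¹)⁻¹) := ⟨_, rfl⟩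
    have hV0 : ∀ i, V 0 i = 1 := fun i => by rw [hV]; rfl
    have hVs : ∀ m i, V (m + 1) i = V m i * (π m (i m) * (act hn).k * (π m (i m))⁻¹ *
        (π m 0 * (act hn).k * (π m 0)⁻¹)⁻¹) := fun m i => by rw [hV]; rfl
    have hVp : ∀ m, m + 4 ≤ n → ∀ i : ℕ → ℕ, (∀ j, j < m + 1 → i j < j + 2) →
        ((V (m + 1) i : alternatingGroup (Fin n)) : Perm (Fin n)) =
        (V m i : alternatingGroup (Fin n)) *
          (rho (pt hn (m + 2)) (pt hn (n - 1)) (pt hn (i m)) *
            (rho (pt hn (m + 2)) (pt hn (n - 1)) (pt hn 0))⁻¹) := by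
      intro m hm i hi
      rw [← hr m (i m) (by omega) (hi m (by omega)), hVs m i, Subgroup.coe_mul]
    -- the products fix the large points
    have hfix : ∀ m, m + 3 ≤ n → ∀ i : ℕ → ℕ, (∀ j, j < m → i j < j + 2) → ∀ x, m + 1 < x → x < n →
        ((V m i : alternatingGroup (Fin n)) : Perm (Fin n)) (pt hn x) = pt hn x := by
      intro m
      induction m with
      | zero =>
        intro _ i _ x _ _
        rw [hV0]
        rfl
      | succ m ih =>
        intro hm i hi x hx hxn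
        rw [hVp m (by omega) i hi, Equiv.Perm.mul_apply,
          r_fix hn (by omega) (hi m (by omega)) (by omega) hxn]
        exact ih (by omega) i (fun j hj => hi j (by omega)) x (by omega) hxn
    have main : ∀ m, m + 3 ≤ n → ∀ i i' : ℕ → ℕ, (∀ j, j < m → i j < j + 2) →
        (∀ j, j < m → i' j < j + 2) → V m i = V m i' → ∀ j, j < m → i j = i' j := by
      intro m
      induction m with
      | zero =>
        intro _ i i' _ _ _ j hj
        omega
      | succ m ih =>
        intro hm i i' hi hi' heq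
        have h2 : ∀ i : ℕ → ℕ, (∀ j, j < m + 1 → i j < j + 2) →
          ((V (m + 1) i : alternatingGroup (Fin n)) : Perm (Fin n))
            (pt hn (if i m = 0 then m + 2 else i m)) = pt hn (m + 2) := by
          intro i hi
          rw [hVp m (by omega) i hi, Equiv.Perm.mul_apply,
            r_inv hn (by omega) (hi m (by omega))]
          exact hfix m (by omega) i (fun j hj => hi j (by omega)) (m + 2) (by omega) (by omega)
        have h3 : pt hn (if i m = 0 then m + 2 else i m) =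
            pt hn (if i' m = 0 then m + 2 else i' m) := by
          apply ((V (m + 1) i : alternatingGroup (Fin n)) : Perm (Fin n)).injective
          rw [h2 i hi, heq, h2 i' hi']
        have him := hi m (by omega)
        have him' := hi' m (by omega)
        have h4 : i m = i' m := by
          by_contra hne
          have : (if i m = 0 then m + 2 else i m) ≠ (if i' m = 0 then m + 2 else i' m) := by
            split_ifs <;> omega
          exact pt_ne hn (by split_ifs <;> omega) (by split_ifs <;> omega) this h3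
        have h5 : V m i = V m i' := by
          rw [hVs, hVs, h4] at heq
          exact mul_right_cancel heq
        intro j hj
        rcases Nat.lt_succ_iff_lt_or_eq.1 hj with hj | rfl
        · exact ih (by omega) i i' (fun j hj => hi j (by omega)) (fun j hj => hi' j (by omega)) h5
            j hj
        · exact h4
    intro i i' hi hi' heq
    rw [← hV] at heq
    exact main (n - 3) (by omega) i i' hi hi' heq

end Pool.Agent.TH408.GR.ALT1
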