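import Pool.Agent.TH408.GR.Stm

/-!
# Growth of products of random conjugates
-/

set_option autoImplicit false
set_option linter.unusedSectionVars false

open Finset
open scoped Classical

namespace Pool.Agent.TH408.GR.Amp

open Pool.Agent.W904.AK

section Av

variable {G : Type} [Group G] [Fintype G]

/-- The averaged entropy of `X g Y`, `g` uniform. -/
noncomputable def av {Ω Ω' : Type} [Fintype Ω] [Fintype Ω'] (p : Ω → ℝ) (q : Ω' → ℝ)
    (X : Ω → G) (Y : Ω' → G) : ℝ :=
  ∑ g : G, unif G g * H (pr p q) (fun z => X z.1 * g * Y z.2)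

lemma eff_pure (μ ν : G → ℝ) (hμ : IsLaw μ) (hν : IsLaw ν) :
    eff μ (Model.pure ν hν) = av μ ν (fun x => x) (fun y => y) - H μ (fun x => x) := by
  have hl : IsLaw (pr μ ν) := pr_law hμ hν
  have h1 := H_dis (unif_law G) hl (fun (g : G) (z : G × G) => (((), z.1 * g * z.2) : Unit × G))
  have h2 := H_dis (unif_law G) hl (fun (_ : G) (_ : G × G) => ())
  have e1 : ∀ g : G, H (pr μ ν) (fun z : G × G => (((), z.1 * g * z.2) : Unit × G)) =
      H (pr μ ν) (fun z : G × G => z.1 * g * z.2) := by
    intro g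
    exact H_comp_injective (pr μ ν) (fun z : G × G => z.1 * g * z.2)
      (φ := fun a : G => (((), a) : Unit × G)) (fun a b h => congrArg Prod.snd h)
  simp only [e1] at h1
  simp only [H_const hl (), mul_zero, Finset.sum_const_zero, add_zero] at h2
  show H (pr (unif G) (pr μ ν)) (fun z => (z.1, (((), z.2.1 * z.1 * z.2.2) : Unit × G))) -
    H (pr (unif G) (pr μ ν)) (fun z => (z.1, ())) - H μ (fun x => x) = _
  rw [h1, h2]
  unfold av
  ring

/-- The re-association of a triple. -/
def rea (Ω Ω' Ω₂ : Type) : Ω' × (Ω × Ω₂) ≃ (Ω × Ω') × Ω₂ where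
  toFun z := ((z.2.1, z.1), z.2.2)
  invFun w := (w.1.2, (w.1.1, w.2))
  left_inv _ := rfl
  right_inv _ := rfl

/-- The key inequality for one `h`. -/
lemma key1 {Ω Ω' Ω₂ : Type} [Fintype Ω] [Fintype Ω'] [Fintype Ω₂] {p : Ω → ℝ} {q : Ω' → ℝ}
    {r : Ω₂ → ℝ} (hp : IsLaw p) (hq : IsLaw q) (hr : IsLaw r) (X : Ω → G) (K : Ω' → G)
    (Y : Ω₂ → G) (h : G) :
    H (pr (pr p q) r) (fun w => X w.1.1 * K w.1.2 * h * Y w.2) + H p X ≤
      H (pr p q) (fun z => X z.1 * K z.2) +
        ∑ ω', q ω' * H (pr p r) (fun z => X z.1 * (K ω' * h) * Y z.2) := by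
  have hpr := pr_law hp hr
  have hP := pr_law hq hpr
  have hs : H (pr q (pr p r)) (fun z => (z.1, (X z.2.1 * K z.1, z.2.2))) +
      H (pr q (pr p r)) (fun z => X z.2.1 * K z.1 * h * Y z.2.2) ≤
      H (pr q (pr p r)) (fun z => (X z.2.1 * K z.1, z.2.2)) +
      H (pr q (pr p r)) (fun z => (z.1, X z.2.1 * (K z.1 * h) * Y z.2.2)) := by
    apply submod' hP
    · intro x y _ _ hxy
      simp only [Prod.mk.injEq] at hxy ⊢
      rw [hxy.1, hxy.2]
    · intro x y _ _ hxy
      simp only [Prod.mk.injEq] at hxy ⊢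
      have := hxy.2
      simp only [← mul_assoc] at this
      exact this
    · intro x y _ _ hxy
      simp only [Prod.mk.injEq] at hxy ⊢
      exact ⟨hxy.2.1, hxy.1.1, hxy.1.2⟩
  have e1 : H (pr q (pr p r)) (fun z => (z.1, (X z.2.1 * K z.1, z.2.2))) =
      H q (fun x => x) + (H p X + H r (fun x => x)) := by
    rw [H_dis hq hpr (fun (ω' : Ω') (z : Ω × Ω₂) => (X z.1 * K ω', z.2))]
    congr 1
    have : ∀ ω' : Ω', H (pr p r) (fun z : Ω × Ω₂ => (X z.1 * K ω', z.2)) =
        H p X + H r (fun x => x) := by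
      intro ω'
      rw [H_ind hp hr (fun x => X x * K ω') (fun x => x)]
      congr 1
      exact H_comp_injective p X (φ := fun a : G => a * K ω') (mul_left_injective (K ω'))
    simp only [this, ← Finset.sum_mul, hq.total, one_mul]
  have e2 : H (pr q (pr p r)) (fun z => (z.1, X z.2.1 * (K z.1 * h) * Y z.2.2)) =
      H q (fun x => x) + ∑ ω', q ω' * H (pr p r) (fun z => X z.1 * (K ω' * h) * Y z.2) :=
    H_dis hq hpr (fun (ω' : Ω') (z : Ω × Ω₂) => X z.1 * (K ω' * h) * Y z.2)
  have he : ∀ z : Ω' × (Ω × Ω₂), pr (pr p q) r (rea Ω Ω' Ω₂ z) = pr q (pr p r) z := by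
    intro z
    simp only [pr, rea, Equiv.coe_fn_mk]
    ring
  have e3 : H (pr q (pr p r)) (fun z => (X z.2.1 * K z.1, z.2.2)) =
      H (pr p q) (fun z => X z.1 * K z.2) + H r (fun x => x) := by
    have := H_equiv (rea Ω Ω' Ω₂) he (fun w => (X w.1.1 * K w.1.2, w.2))
    rw [← H_ind (pr_law hp hq) hr (fun z => X z.1 * K z.2) (fun x => x)]
    exact this
  have e4 : H (pr q (pr p r)) (fun z => X z.2.1 * K z.1 * h * Y z.2.2) =
      H (pr (pr p q) r) (fun w => X w.1.1 * K w.1.2 * h * Y w.2) :=
    H_equiv (rea Ω Ω' Ω₂) he (fun w => X w.1.1 * K w.1.2 * h * Y w.2)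
  rw [e1, e2, e3, e4] at hs
  linarith

/-- Multiplying by an independent element does not increase the growth. -/
lemma av_key {Ω Ω' Ω₂ : Type} [Fintype Ω] [Fintype Ω'] [Fintype Ω₂] {p : Ω → ℝ} {q : Ω' → ℝ}
    {r : Ω₂ → ℝ} (hp : IsLaw p) (hq : IsLaw q) (hr : IsLaw r) (X : Ω → G) (K : Ω' → G)
    (Y : Ω₂ → G) :
    av (pr p q) r (fun z => X z.1 * K z.2) Y - H (pr p q) (fun z => X z.1 * K z.2) ≤
      av p r X Y - H p X := by
  have hU : IsLaw (unif G) := unif_law G
  have e0 : ∀ ω' : Ω', ∑ h : G, unif G h * H (pr p r) (fun z => X z.1 * (K ω' * h) * Y z.2) =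
      av p r X Y := by
    intro ω'
    exact Equiv.sum_comp (Equiv.mulLeft (K ω'))
      (fun g => unif G g * H (pr p r) (fun z => X z.1 * g * Y z.2))
  have e1 : av p r X Y = ∑ h : G, unif G h *
      ∑ ω', q ω' * H (pr p r) (fun z => X z.1 * (K ω' * h) * Y z.2) := by
    have h0 : av p r X Y = ∑ ω', q ω' * av p r X Y := by
      rw [← Finset.sum_mul, hq.total, one_mul]
    rw [h0]
    have h1 : ∀ ω' : Ω', q ω' * av p r X Y =
        ∑ h : G, q ω' * (unif G h * H (pr p r) (fun z => X z.1 * (K ω' * h) * Y z.2)) := by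
      intro ω'
      rw [← Finset.mul_sum, e0 ω']
    rw [Finset.sum_congr rfl fun ω' _ => h1 ω', Finset.sum_comm]
    refine Finset.sum_congr rfl fun h _ => ?_
    rw [Finset.mul_sum]
    refine Finset.sum_congr rfl fun ω' _ => ?_
    ring
  have e2 : av (pr p q) r (fun z => X z.1 * K z.2) Y + H p X ≤
      H (pr p q) (fun z => X z.1 * K z.2) + av p r X Y := by
    have a1 : av (pr p q) r (fun z => X z.1 * K z.2) Y + H p X =
        ∑ h : G, unif G h * (H (pr (pr p q) r) (fun w => X w.1.1 * K w.1.2 * h * Y w.2) +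
          H p X) := by
      simp only [mul_add, Finset.sum_add_distrib, ← Finset.sum_mul, hU.total, one_mul]
      rfl
    have a2 : H (pr p q) (fun z => X z.1 * K z.2) + av p r X Y =
        ∑ h : G, unif G h * (H (pr p q) (fun z => X z.1 * K z.2) +
          ∑ ω', q ω' * H (pr p r) (fun z => X z.1 * (K ω' * h) * Y z.2)) := by
      simp only [mul_add, Finset.sum_add_distrib, ← Finset.sum_mul, hU.total, one_mul]
      rw [e1]
    rw [a1, a2]
    exact Finset.sum_le_sum fun h _ =>
      mul_le_mul_of_nonneg_left (key1 hp hq hr X K Y h) (hU.nonneg h)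
  linarith

/-- The image law may be replaced by the map. -/
lemma av_im {Ω Ω' : Type} [Fintype Ω] [Fintype Ω'] (p : Ω → ℝ) (q : Ω' → ℝ)
    (X : Ω → G) (Y : Ω' → G) : av p (im q Y) X (fun y => y) = av p q X Y := by
  unfold av
  refine Finset.sum_congr rfl fun g _ => ?_
  congr 1
  apply H_eq_of_im_eq
  intro a
  unfold im pr
  rw [Fintype.sum_prod_type, Fintype.sum_prod_type]
  refine Finset.sum_congr rfl fun x _ => ?_
  have := sum_im_mul q Y (fun y => if X x * g * y = a then p x else 0)
  calc ∑ y : G, (if X x * g * y = a then p x * im q Y y else 0)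
      = ∑ y : G, im q Y y * (if X x * g * y = a then p x else 0) := by
        refine Finset.sum_congr rfl fun y _ => ?_
        split_ifs <;> ring
    _ = ∑ y : Ω', q y * (if X x * g * Y y = a then p x else 0) := this
    _ = _ := by
        refine Finset.sum_congr rfl fun y _ => ?_
        split_ifs <;> ring

/-- The re-association of a triple, second form. -/
def reb (Ω Ω' Ω₂ : Type) : Ω × (Ω' × Ω₂) ≃ (Ω × Ω') × Ω₂ where
  toFun z := ((z.1, z.2.1), z.2.2)
  invFun w := (w.1.1, (w.1.2, w.2))
  left_inv _ := rfl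
  right_inv _ := rfl

lemma main (μ ν : G → ℝ) (hμ : IsLaw μ) (hν : IsLaw ν) : ∀ M : ℕ,
    ∑ h : Rs G M, pR (unif G) M h * av μ (pR ν M) (fun x => x) (PPh M h) ≤
      H μ (fun x => x) + M * (av μ ν (fun x => x) (fun y => y) - H μ (fun x => x))
  | 0 => by
      have hU : IsLaw (unif G) := unif_law G
      have h1 : av μ (pR ν 0) (fun x => x) (PPh 0 (() : Unit)) = H μ (fun x => x) := by
        unfold av
        have : ∀ g : G, H (pr μ (pR ν 0)) (fun z => z.1 * g * PPh 0 (() : Unit) z.2) =
            H μ (fun x => x) := by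
          intro g
          have e1 : (fun z : G × Rs G 0 => z.1 * g * PPh 0 (() : Unit) z.2) =
              fun z : G × Rs G 0 => z.1 * g := by
            funext z
            exact mul_one _
          rw [e1, H_fst (pR_law hν 0) (fun x : G => x * g)]
          exact H_comp_injective μ (fun x => x) (φ := fun a : G => a * g) (mul_left_injective g)
        simp only [this, ← Finset.sum_mul, hU.total, one_mul]
      have h2 : ∑ h : Rs G 0, pR (unif G) 0 h * av μ (pR ν 0) (fun x => x) (PPh 0 h) =
          1 * av μ (pR ν 0) (fun x => x) (PPh 0 (() : Unit)) :=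
        Fintype.sum_unique (ι := Unit) (fun h => pR (unif G) 0 h *
          av μ (pR ν 0) (fun x => x) (PPh 0 h))
      rw [h2, h1]
      simp
  | (M + 1) => by
      have hU : IsLaw (unif G) := unif_law G
      have hR : IsLaw (pR ν M) := pR_law hν M
      have hRU : IsLaw (pR (unif G) M) := pR_law hU M
      have ih := main μ ν hμ hν M
      set E : ℝ := av μ ν (fun x => x) (fun y => y) - H μ (fun x => x) with hE
      have h1 : ∑ h : Rs G (M + 1), pR (unif G) (M + 1) h *
          av μ (pR ν (M + 1)) (fun x => x) (PPh (M + 1) h) =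
          ∑ h' : Rs G M, ∑ h2 : G, (pR (unif G) M h' * unif G h2) *
            av μ (pR ν (M + 1)) (fun x => x) (PPh (M + 1) (h', h2)) :=
        Fintype.sum_prod_type (fun h : Rs G M × G => pR (unif G) (M + 1) h *
          av μ (pR ν (M + 1)) (fun x => x) (PPh (M + 1) h))
      have h2 : ∀ (h' : Rs G M) (h2 g : G),
          H (pr μ (pR ν (M + 1))) (fun z => z.1 * g * PPh (M + 1) (h', h2) z.2) =
          H (pr (pr μ (pR ν M)) ν) (fun w => w.1.1 * (g * PPh M h' w.1.2) * h2 * w.2) := by
        intro h' h2 g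
        have he : ∀ z : G × (Rs G M × G), pr (pr μ (pR ν M)) ν (reb G (Rs G M) G z) =
            pr μ (pr (pR ν M) ν) z := by
          intro z
          simp only [pr, reb, Equiv.coe_fn_mk]
          ring
        have := H_equiv (reb G (Rs G M) G) he
          (fun w => w.1.1 * (g * PPh M h' w.1.2) * h2 * w.2)
        rw [← this]
        have e1 : (fun z : G × Rs G (M + 1) => z.1 * g * PPh (M + 1) (h', h2) z.2) =
            fun z : G × (Rs G M × G) => ((reb G (Rs G M) G) z).1.1 *
              (g * PPh M h' ((reb G (Rs G M) G) z).1.2) * h2 * ((reb G (Rs G M) G) z).2 := by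
          funext z
          show z.1 * g * (PPh M h' z.2.1 * (h2 * z.2.2)) =
            z.1 * (g * PPh M h' z.2.1) * h2 * z.2.2
          simp only [mul_assoc]
        exact congrArg (H (pr μ (pr (pR ν M) ν))) e1
      have h3 : ∀ h' : Rs G M, ∑ h2 : G, (pR (unif G) M h' * unif G h2) *
            av μ (pR ν (M + 1)) (fun x => x) (PPh (M + 1) (h', h2)) =
          pR (unif G) M h' * ∑ g : G, unif G g *
            av (pr μ (pR ν M)) ν (fun w => w.1 * (g * PPh M h' w.2)) (fun y => y) := by
        intro h'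
        unfold av
        simp only [h2, Finset.mul_sum]
        rw [Finset.sum_comm]
        refine Finset.sum_congr rfl fun g _ => Finset.sum_congr rfl fun h2 _ => ?_
        ring
      have h4 : ∀ (h' : Rs G M) (g : G),
          av (pr μ (pR ν M)) ν (fun w => w.1 * (g * PPh M h' w.2)) (fun y => y) ≤
          H (pr μ (pR ν M)) (fun w => w.1 * g * PPh M h' w.2) + E := by
        intro h' g
        have := av_key hμ hR hν (fun x => x) (fun w => g * PPh M h' w) (fun y => y)
        have e1 : (fun w : G × Rs G M => w.1 * (g * PPh M h' w.2)) =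
            fun w : G × Rs G M => w.1 * g * PPh M h' w.2 := by
          funext w
          rw [mul_assoc]
        rw [e1] at this ⊢
        linarith
      have h5 : ∀ h' : Rs G M, pR (unif G) M h' * ∑ g : G, unif G g *
            av (pr μ (pR ν M)) ν (fun w => w.1 * (g * PPh M h' w.2)) (fun y => y) ≤
          pR (unif G) M h' * av μ (pR ν M) (fun x => x) (PPh M h') + pR (unif G) M h' * E := by
        intro h'
        rw [← mul_add]
        refine mul_le_mul_of_nonneg_left ?_ (hRU.nonneg h')
        calc ∑ g : G, unif G g *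
            av (pr μ (pR ν M)) ν (fun w => w.1 * (g * PPh M h' w.2)) (fun y => y)
            ≤ ∑ g : G, unif G g * (H (pr μ (pR ν M)) (fun w => w.1 * g * PPh M h' w.2) + E) :=
              Finset.sum_le_sum fun g _ => mul_le_mul_of_nonneg_left (h4 h' g) (hU.nonneg g)
          _ = _ := by
              simp only [mul_add, Finset.sum_add_distrib, ← Finset.sum_mul, hU.total, one_mul]
              rfl
      rw [h1]
      calc _ = ∑ h' : Rs G M, pR (unif G) M h' * ∑ g : G, unif G g *
            av (pr μ (pR ν M)) ν (fun w => w.1 * (g * PPh M h' w.2)) (fun y => y) :=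
            Finset.sum_congr rfl fun h' _ => h3 h'
        _ ≤ ∑ h' : Rs G M, (pR (unif G) M h' * av μ (pR ν M) (fun x => x) (PPh M h') +
            pR (unif G) M h' * E) := Finset.sum_le_sum fun h' _ => h5 h'
        _ = (∑ h' : Rs G M, pR (unif G) M h' * av μ (pR ν M) (fun x => x) (PPh M h')) + E := by
            rw [Finset.sum_add_distrib, ← Finset.sum_mul, hRU.total, one_mul]
        _ ≤ _ := by
            push_cast
            linarith

end Av

theorem tAMP : S_AMP := by
  intro G _ _ μ ν hμ hν M hM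
  have hU : IsLaw (unif G) := unif_law G
  have hRU : IsLaw (pR (unif G) M) := pR_law hU M
  have h1 : ∀ h : Rs G M, eff μ (Model.pure (lawM ν M h) (hM h)) =
      av μ (pR ν M) (fun x => x) (PPh M h) - H μ (fun x => x) := by
    intro h
    rw [eff_pure μ _ hμ (hM h)]
    unfold lawM
    rw [av_im μ (pR ν M) (fun x => x) (PPh M h)]
  have h2 := main μ ν hμ hν M
  rw [eff_pure μ ν hμ hν]
  simp only [h1, mul_sub, Finset.sum_sub_distrib, ← Finset.sum_mul, hRU.total, one_mul]
  linarith

end Pool.Agent.TH408.GR.Amp
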