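import Pool.Agent.TH408.GR.Asm4

/-!
# Assembly
-/

set_option autoImplicit false
set_option linter.unusedSectionVars false

open Finset
open scoped Classical

namespace Pool.Agent.TH408.GR.Asm

open Pool.Agent.W904.AK Pool.Agent.TH408.GR

/-- The theorem for `δ ≤ 1` and large `n`. -/
theorem largeN (hCHAIN : S_CHAIN) (hPT : S_PT) (hSV : S_SV) (hTAIL : S_TAIL) (hMBD : S_MBD)
    (hETA : S_ETA) (hJAY : S_JAY) (hEFF : S_EFF) (hALT : S_ALT) (hCLS : S_CLS) (hCOLL : S_COLL)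
    (hAMP : S_AMP) (hCARD : S_CARD) (δ : ℝ) (hδ : 0 < δ) (hδ1 : δ ≤ 1) :
    ∃ ε : ℝ, 0 < ε ∧ ∀ n : ℕ, 40 / δ ≤ Real.log n → ∀ A B : Finset (alternatingGroup (Fin n)),
      A.Nonempty → (B.card : ℝ) ≤ (Fintype.card (alternatingGroup (Fin n)) : ℝ) ^ (1 - δ) →
      ∃ g, (B.card : ℝ) * (A.card : ℝ) ^ ε ≤ ((bag B A g).card : ℝ) := by
  set C : ℝ := (1 + Real.log (10 / δ)) / (155 / 1000) with hCdef
  have hlog0 : 0 ≤ Real.log (10 / δ) := by
    apply Real.log_nonneg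
    rw [le_div_iff₀ hδ]
    linarith
  have hC0 : 0 < C := by
    rw [hCdef]
    positivity
  have hC : Real.exp 1 * Real.exp (-(155 / 1000 * C)) ≤ δ / 10 := by
    rw [hCdef, mul_div_cancel₀ _ (by norm_num), ← Real.exp_add,
      show (1 : ℝ) + -(1 + Real.log (10 / δ)) = -Real.log (10 / δ) by ring, Real.exp_neg,
      Real.exp_log (by positivity), inv_div]
  set c := δ / (250 * (C + 1)) with hc
  have hc0 : 0 < c := by positivity
  refine ⟨c / 5, by positivity, ?_⟩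
  intro n hn A B hA hB
  have hn40 : 40 ≤ Real.log n := by
    refine le_trans ?_ hn
    rw [le_div_iff₀ hδ]
    nlinarith
  have hn20 : 20 ≤ Real.log n := by linarith
  have hnn := n_big hn20
  have hA1 : 1 ≤ A.card := hA.card_pos
  rcases B.eq_empty_or_nonempty with hB0 | hB0
  · refine ⟨1, ?_⟩
    rw [hB0]
    simp
  obtain ⟨μ, ν, hμ, hν, h1, h2, h3, g, h4⟩ := hCARD _ A B hA hB0
  refine ⟨g, le_trans ?_ h4⟩
  apply mul_le_mul_of_nonneg_left _ (Nat.cast_nonneg _)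
  have hA0 : (0 : ℝ) < A.card := by exact_mod_cast hA1
  rw [Real.rpow_def_of_pos hA0]
  apply Real.exp_le_exp.2
  rw [mul_comm]
  obtain ⟨Ac, hAc⟩ := hALT n (by omega)
  have hD : H μ (fun x => x) ≤ (1 - δ) * LA n := by
    rw [h1]
    have hB1 : (0 : ℝ) < B.card := by exact_mod_cast hB0.card_pos
    have h5 := Real.log_le_log hB1 hB
    rwa [Real.log_rpow (by exact_mod_cast Fintype.card_pos)] at h5
  exact allA hCLS hCOLL hAMP δ c hδ hδ1 hc0 n hn μ hμ
    (fun ν' hν' hh => big hCHAIN hPT hSV hTAIL hMBD hETA hJAY hEFF δ C hδ hδ1 hC0 hC n hn Ac hAc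
      μ hμ hD ν' hν' hh) ν hν A.card hA1 h2 h3

/-- The theorem. -/
theorem main (hCHAIN : S_CHAIN) (hPT : S_PT) (hSV : S_SV) (hTAIL : S_TAIL) (hMBD : S_MBD)
    (hETA : S_ETA) (hJAY : S_JAY) (hEFF : S_EFF) (hALT : S_ALT) (hCLS : S_CLS) (hCOLL : S_COLL)
    (hAMP : S_AMP) (hCARD : S_CARD) (hSMALL : S_SMALL) (δ : ℝ) (hδ : 0 < δ) :
    ∃ ε : ℝ, 0 < ε ∧ ∀ n : ℕ, 5 ≤ n → ∀ A B : Finset (alternatingGroup (Fin n)),
      (B.card : ℝ) ≤ (Fintype.card (alternatingGroup (Fin n)) : ℝ) ^ (1 - δ) →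
      ∃ g, (B.card : ℝ) * (A.card : ℝ) ^ ε ≤ ((bag B A g).card : ℝ) := by
  set δ' := min δ 1 with hδ'
  have hδ0 : 0 < δ' := lt_min hδ one_pos
  have hδ1 : δ' ≤ 1 := min_le_right _ _
  obtain ⟨ε₁, hε₁, hbig⟩ := largeN hCHAIN hPT hSV hTAIL hMBD hETA hJAY hEFF hALT hCLS hCOLL hAMP
    hCARD δ' hδ0 hδ1
  obtain ⟨ε₂, hε₂, hsmall⟩ := hSMALL ⌈Real.exp (40 / δ')⌉₊
  refine ⟨min ε₁ ε₂, lt_min hε₁ hε₂, ?_⟩
  intro n hn A B hB
  rcases A.eq_empty_or_nonempty with hA | hA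
  · refine ⟨1, ?_⟩
    rw [hA, Finset.card_empty, Nat.cast_zero, Real.zero_rpow (lt_min hε₁ hε₂).ne', mul_zero]
    exact Nat.cast_nonneg _
  have hA1 : (1 : ℝ) ≤ A.card := by exact_mod_cast hA.card_pos
  have hG2 : 2 ≤ Fintype.card (alternatingGroup (Fin n)) := by
    have h1 := card_alt n (by omega)
    have h2 : (5 : ℕ) ≤ Nat.factorial n := le_trans hn (Nat.self_le_factorial n)
    have h3 : 2 * Fintype.card (alternatingGroup (Fin n)) = Nat.factorial n := by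
      exact_mod_cast h1
    omega
  have hG1 : (1 : ℝ) < Fintype.card (alternatingGroup (Fin n)) := by
    have : 1 < Fintype.card (alternatingGroup (Fin n)) := by omega
    exact_mod_cast this
  have hB' : (B.card : ℝ) ≤ (Fintype.card (alternatingGroup (Fin n)) : ℝ) ^ (1 - δ') :=
    hB.trans (Real.rpow_le_rpow_of_exponent_le hG1.le (by linarith [min_le_left δ 1]))
  rcases Nat.lt_or_ge ⌈Real.exp (40 / δ')⌉₊ n with hlt | hge
  · have hlog : 40 / δ' ≤ Real.log n := by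
      have h1 : Real.exp (40 / δ') ≤ n := (Nat.le_ceil _).trans (by exact_mod_cast hlt.le)
      have h2 := Real.log_le_log (Real.exp_pos _) h1
      rwa [Real.log_exp] at h2
    obtain ⟨g, hg⟩ := hbig n hlog A B hA hB'
    refine ⟨g, le_trans (mul_le_mul_of_nonneg_left ?_ (Nat.cast_nonneg _)) hg⟩
    exact Real.rpow_le_rpow_of_exponent_le hA1 (min_le_left _ _)
  · have hBu : B ≠ univ := by
      intro h
      rw [h, Finset.card_univ] at hB'
      have h1 : (Fintype.card (alternatingGroup (Fin n)) : ℝ) ^ (1 - δ') <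
          (Fintype.card (alternatingGroup (Fin n)) : ℝ) ^ (1 : ℝ) :=
        Real.rpow_lt_rpow_of_exponent_lt hG1 (by linarith)
      rw [Real.rpow_one] at h1
      linarith
    obtain ⟨g, hg⟩ := hsmall n hn hge A B hA hBu
    refine ⟨g, le_trans (mul_le_mul_of_nonneg_left ?_ (Nat.cast_nonneg _)) hg⟩
    exact Real.rpow_le_rpow_of_exponent_le hA1 (min_le_right _ _)

end Pool.Agent.TH408.GR.Asm
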