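import Pool.Agent.TH408.GR.Stm

set_option autoImplicit false
set_option linter.unusedSectionVars false

open Finset
open scoped Classical

namespace Pool.Agent.TH408.GR.CARD

open Pool.Agent.W904.AK Pool.Agent.TH408.GR

variable {G : Type} [Group G] [Fintype G]

/-- The uniform law of a set. -/
noncomputable def us (B : Finset G) (x : G) : ℝ := if x ∈ B then 1 / (B.card : ℝ) else 0

lemma us_law (B : Finset G) (hB : B.Nonempty) : IsLaw (us B) := by
  have hc : (0 : ℝ) < B.card := by exact_mod_cast Finset.card_pos.2 hB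
  constructor
  · intro x
    unfold us
    split_ifs
    · positivity
    · exact le_rfl
  · unfold us
    rw [Finset.sum_ite_mem, Finset.univ_inter, Finset.sum_const, nsmul_eq_mul]
    field_simp

lemma us_mem {B : Finset G} {x : G} (h : us B x ≠ 0) : x ∈ B := by
  by_contra hx
  exact h (by simp [us, hx])

lemma H_us (B : Finset G) (hB : B.Nonempty) : H (us B) (fun x => x) = Real.log B.card := by
  have hc : (0 : ℝ) < B.card := by exact_mod_cast Finset.card_pos.2 hB
  have h1 : ∀ x : G, im (us B) (fun x => x) x = us B x := by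
    intro x
    simp [im]
  unfold H
  simp only [h1]
  have h2 : ∀ x : G, us B x * -Real.log (us B x) =
      if x ∈ B then 1 / (B.card : ℝ) * Real.log B.card else 0 := by
    intro x
    unfold us
    split_ifs
    · rw [Real.log_div one_ne_zero hc.ne', Real.log_one]
      ring
    · simp
  rw [Finset.sum_congr rfl fun x _ => h2 x, Finset.sum_ite_mem, Finset.univ_inter,
    Finset.sum_const, nsmul_eq_mul]
  field_simp

lemma sq_us (B : Finset G) (hB : B.Nonempty) : ∑ x, us B x ^ 2 ≤ 1 / (B.card : ℝ) := by
  have hc : (0 : ℝ) < B.card := by exact_mod_cast Finset.card_pos.2 hB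
  have h2 : ∀ x : G, us B x ^ 2 = if x ∈ B then (1 / (B.card : ℝ)) ^ 2 else 0 := by
    intro x
    unfold us
    split_ifs
    · rfl
    · simp
  rw [Finset.sum_congr rfl fun x _ => h2 x, Finset.sum_ite_mem, Finset.univ_inter,
    Finset.sum_const, nsmul_eq_mul]
  apply le_of_eq
  field_simp

theorem tCARD : S_CARD := by
  intro G _ _ A B hA hB
  have hν := us_law A hA
  have hμ := us_law B hB
  refine ⟨us B, us A, hμ, hν, H_us B hB, H_us A hA, sq_us A hA, ?_⟩
  have hBc : (0 : ℝ) < B.card := by exact_mod_cast Finset.card_pos.2 hB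
  have hGc : (0 : ℝ) < Fintype.card G := by exact_mod_cast Fintype.card_pos
  have hq : IsLaw (pr (us B) (us A)) := pr_law hμ hν
  let f : G → G × G → Unit × G := fun g z => ((), z.1 * g * z.2)
  have e1 : eff (us B) (Model.pure (us A) hν) =
      H (pr (unif G) (pr (us B) (us A))) (fun z => (z.1, f z.1 z.2)) -
        H (pr (unif G) (pr (us B) (us A))) (fun z => (z.1, ())) - H (us B) (fun x => x) := rfl
  have e2 := H_dis (unif_law G) hq f
  have e3 := H_dis (unif_law G) hq (fun (_ : G) (_ : G × G) => ())
  simp only [H_const hq, mul_zero, Finset.sum_const_zero, add_zero] at e3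
  rw [e2, e3, H_us B hB] at e1
  have e4 : ∃ g : G, ∑ x, unif G x * H (pr (us B) (us A)) (f x) ≤ H (pr (us B) (us A)) (f g) := by
    by_contra hcon
    push Not at hcon
    have h1 : ∑ g : G, H (pr (us B) (us A)) (f g) <
        ∑ _g : G, ∑ x, unif G x * H (pr (us B) (us A)) (f x) :=
      Finset.sum_lt_sum_of_nonempty Finset.univ_nonempty (fun g _ => hcon g)
    rw [Finset.sum_const, Finset.card_univ, nsmul_eq_mul] at h1
    unfold unif at h1
    rw [← Finset.mul_sum, ← mul_assoc, mul_one_div_cancel hGc.ne', one_mul] at h1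
    exact lt_irrefl _ h1
  obtain ⟨g, hg⟩ := e4
  let S : Finset (Unit × G) := (B ×ˢ A).image (f g)
  have hS : ∀ z : G × G, pr (us B) (us A) z ≠ 0 → f g z ∈ S := by
    intro z hz
    unfold pr at hz
    have h1 := us_mem (left_ne_zero_of_mul hz)
    have h2 := us_mem (right_ne_zero_of_mul hz)
    exact Finset.mem_image_of_mem _ (Finset.mem_product.2 ⟨h1, h2⟩)
  have e5 := H_le_log_card hq (f g) S hS
  have hSne : S.Nonempty := (hB.product hA).image _
  have hSc : (0 : ℝ) < S.card := by exact_mod_cast Finset.card_pos.2 hSne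
  refine ⟨g⁻¹, ?_⟩
  have e6 : S.card ≤ (bag B A g⁻¹).card := by
    refine Finset.card_le_card_of_injOn (fun x => x.2 * g⁻¹) ?_ ?_
    · intro x hx
      obtain ⟨z, hz, rfl⟩ := Finset.mem_image.1 hx
      unfold bag
      refine Finset.mem_coe.2 (Finset.mem_image.2 ⟨z, hz, ?_⟩)
      change z.1 * (g⁻¹⁻¹ * z.2 * g⁻¹) = z.1 * g * z.2 * g⁻¹
      rw [inv_inv]
      group
    · intro x _ y _ hxy
      have : x.2 = y.2 := mul_right_cancel hxy
      exact Prod.ext rfl this
  have e7 : eff (us B) (Model.pure (us A) hν) ≤ Real.log S.card - Real.log B.card := by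
    rw [e1]
    linarith
  calc (B.card : ℝ) * Real.exp (eff (us B) (Model.pure (us A) hν)) ≤
      B.card * Real.exp (Real.log S.card - Real.log B.card) :=
        mul_le_mul_of_nonneg_left (Real.exp_le_exp.2 e7) hBc.le
    _ = S.card := by
        rw [Real.exp_sub, Real.exp_log hSc, Real.exp_log hBc]
        field_simp
    _ ≤ _ := by exact_mod_cast e6

end Pool.Agent.TH408.GR.CARD
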