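import Pool.Agent.TH408.GR.Stm

/-!
# Conjugacy classes of the alternating group (`S_CLS`)
-/

set_option autoImplicit false

open Finset
open scoped Classical

namespace Pool.Agent.TH408.GR

namespace CLS

variable {n : ℕ}

/-- permutations with given values on a set -/
lemma card_val (s : Finset (Fin n)) (𝓢 : Finset (Equiv.Perm (Fin n))) (y : Fin n → Fin n)
    (h𝓢 : ∀ h ∈ 𝓢, ∀ x ∈ s, h x = y x) : 𝓢.card ≤ (n - s.card).factorial := by
  rcases 𝓢.eq_empty_or_nonempty with he | ⟨h0, hh0⟩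
  · rw [he, Finset.card_empty]
    exact Nat.zero_le _
  · have h1 : 𝓢.card ≤ Fintype.card {f : Equiv.Perm (Fin n) // ∀ a, ¬ (a ∉ s) → f a = a} := by
      rw [← Fintype.card_coe]
      refine Fintype.card_le_of_injective (fun h => ⟨h0⁻¹ * h.1, ?_⟩) ?_
      · intro a ha
        have ha' : a ∈ s := by
          by_contra hc
          exact ha hc
        rw [Equiv.Perm.mul_apply, h𝓢 _ h.2 a ha', ← h𝓢 _ hh0 a ha']
        exact Equiv.symm_apply_apply h0 a
      · intro h h' he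
        have h2 : h0⁻¹ * h.1 = h0⁻¹ * h'.1 := congrArg Subtype.val he
        exact Subtype.ext (mul_left_cancel h2)
    rw [← Fintype.card_congr (Equiv.Perm.subtypeEquivSubtypePerm (fun a => a ∉ s)),
      Fintype.card_perm, Fintype.card_subtype_compl, Fintype.card_fin, Fintype.card_coe] at h1
    exact h1

/-- the count from the values at three points -/
lemma card_three (𝓢 : Finset (Equiv.Perm (Fin n))) (x1 x2 x3 : Fin n) (s : Finset (Fin n))
    (D : Finset (Fin n)) (hD : ∀ h ∈ 𝓢, h x1 ∈ D ∧ h x2 ∈ D ∧ h x3 ∈ D)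
    (hs : ∀ h ∈ 𝓢, ∀ h' ∈ 𝓢, h x1 = h' x1 → h x2 = h' x2 → h x3 = h' x3 → ∀ x ∈ s, h x = h' x) :
    𝓢.card ≤ (n - s.card).factorial * D.card ^ 3 := by
  have h1 := Finset.card_le_mul_card_image (f := fun h : Equiv.Perm (Fin n) => (h x1, h x2, h x3))
    𝓢 (n - s.card).factorial (by
      intro b hb
      obtain ⟨h0, hh0, rfl⟩ := Finset.mem_image.1 hb
      refine card_val s _ h0 ?_
      intro h hh x hx
      obtain ⟨h2, h3⟩ := Finset.mem_filter.1 hh
      simp only [Prod.mk.injEq] at h3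
      exact hs h h2 h0 hh0 h3.1 h3.2.1 h3.2.2 x hx)
  refine h1.trans (Nat.mul_le_mul_left _ ?_)
  have h2 : 𝓢.image (fun h : Equiv.Perm (Fin n) => (h x1, h x2, h x3)) ⊆ D ×ˢ D ×ˢ D := by
    intro b hb
    obtain ⟨h0, hh0, rfl⟩ := Finset.mem_image.1 hb
    obtain ⟨h3, h4, h5⟩ := hD h0 hh0
    exact Finset.mem_product.2 ⟨h3, Finset.mem_product.2 ⟨h4, h5⟩⟩
  refine (Finset.card_le_card h2).trans ?_
  rw [Finset.card_product, Finset.card_product]
  exact le_of_eq (by ring)

/-- six distinct points from a large support -/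
lemma six (w : Equiv.Perm (Fin n)) (hw : 7 ≤ w.support.card) :
    ∃ x1 x2 x3 : Fin n, ({x1, w x1, x2, w x2, x3, w x3} : Finset (Fin n)).card = 6 := by
  obtain ⟨x1, hx1, -⟩ := Finset.exists_mem_notMem_of_card_lt_card
    (s := (∅ : Finset (Fin n))) (t := w.support) (by rw [Finset.card_empty]; omega)
  obtain ⟨x2, hx2, hn2⟩ := Finset.exists_mem_notMem_of_card_lt_card
    (s := ({x1, w x1, w⁻¹ x1} : Finset (Fin n))) (t := w.support)
    (lt_of_le_of_lt Finset.card_le_three (by omega))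
  obtain ⟨x3, hx3, hn3⟩ := Finset.exists_mem_notMem_of_card_lt_card
    (s := ({x1, w x1, w⁻¹ x1, x2, w x2, w⁻¹ x2} : Finset (Fin n))) (t := w.support)
    (lt_of_le_of_lt Finset.card_le_six (by omega))
  refine ⟨x1, x2, x3, ?_⟩
  rw [Equiv.Perm.mem_support] at hx1 hx2 hx3
  simp only [Finset.mem_insert, Finset.mem_singleton, not_or] at hn2 hn3
  obtain ⟨a1, a2, a3⟩ := hn2
  obtain ⟨b1, b2, b3, b4, b5, b6⟩ := hn3
  have c0 : ∀ x, w⁻¹ (w x) = x := fun x => Equiv.symm_apply_apply w x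
  have c3 : w x2 ≠ x1 := fun h => a3 (by rw [← h, c0])
  have c4 : w x2 ≠ w x1 := fun h => a1 (w.injective h)
  have c5 : w x3 ≠ x1 := fun h => b3 (by rw [← h, c0])
  have c6 : w x3 ≠ w x1 := fun h => b1 (w.injective h)
  have c7 : w x3 ≠ x2 := fun h => b6 (by rw [← h, c0])
  have c8 : w x3 ≠ w x2 := fun h => b4 (w.injective h)
  rw [Finset.card_insert_of_notMem, Finset.card_insert_of_notMem, Finset.card_insert_of_notMem,
    Finset.card_insert_of_notMem, Finset.card_pair hx3.symm]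
  · simp only [Finset.mem_insert, Finset.mem_singleton, not_or]
    exact ⟨Ne.symm b5, Ne.symm c8⟩
  · simp only [Finset.mem_insert, Finset.mem_singleton, not_or]
    exact ⟨Ne.symm hx2, Ne.symm b4, Ne.symm c7⟩
  · simp only [Finset.mem_insert, Finset.mem_singleton, not_or]
    exact ⟨Ne.symm a2, Ne.symm c4, Ne.symm b2, Ne.symm c6⟩
  · simp only [Finset.mem_insert, Finset.mem_singleton, not_or]
    exact ⟨Ne.symm hx1, Ne.symm a1, Ne.symm c3, Ne.symm b1, Ne.symm c5⟩

lemma arith1 (n : ℕ) (hn : 10 ≤ n) :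
    (((n - 6).factorial * n ^ 3 : ℕ) : ℝ) ≤ 1000 / (n : ℝ) ^ 3 * ((n.factorial : ℝ) / 2) := by
  obtain ⟨m, rfl⟩ : ∃ m, n = m + 6 := ⟨n - 6, by omega⟩
  rw [Nat.add_sub_cancel]
  have h1 : ((m + 6).factorial : ℝ) = ((m : ℝ) + 6) * ((m + 5) * ((m + 4) * ((m + 3) * ((m + 2) *
      ((m + 1) * (m.factorial : ℝ)))))) := by
    rw [Nat.factorial_succ, Nat.factorial_succ, Nat.factorial_succ, Nat.factorial_succ,
      Nat.factorial_succ, Nat.factorial_succ]
    push_cast
    ring
  have hm : (4 : ℝ) ≤ m := by exact_mod_cast (by omega : 4 ≤ m)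
  have hf : (0 : ℝ) < (m.factorial : ℝ) := by exact_mod_cast Nat.factorial_pos m
  rw [h1]
  push_cast
  have h2 : ((m : ℝ) + 6) ^ 5 ≤ 32 * ((m + 5) * ((m + 4) * ((m + 3) * ((m + 2) * (m + 1))))) := by
    have e1 : ((m : ℝ) + 6) ≤ 2 * (m + 5) := by linarith
    have e2 : ((m : ℝ) + 6) ≤ 2 * (m + 4) := by linarith
    have e3 : ((m : ℝ) + 6) ≤ 2 * (m + 3) := by linarith
    have e4 : ((m : ℝ) + 6) ≤ 2 * (m + 2) := by linarith
    have e5 : ((m : ℝ) + 6) ≤ 2 * (m + 1) := by linarith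
    calc ((m : ℝ) + 6) ^ 5 = (m + 6) * ((m + 6) * ((m + 6) * ((m + 6) * (m + 6)))) := by ring
      _ ≤ (2 * (m + 5)) * ((2 * (m + 4)) * ((2 * (m + 3)) * ((2 * (m + 2)) * (2 * (m + 1))))) := by
        gcongr
      _ = _ := by ring
  have hX : (0 : ℝ) < ((m : ℝ) + 6) ^ 3 := by positivity
  rw [div_mul_eq_mul_div, le_div_iff₀ hX]
  have h3 : (0 : ℝ) ≤ ((m : ℝ) + 5) * ((m + 4) * ((m + 3) * ((m + 2) * (m + 1)))) := by positivity
  calc (m.factorial : ℝ) * ((m : ℝ) + 6) ^ 3 * ((m : ℝ) + 6) ^ 3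
      = (m.factorial : ℝ) * (m + 6) * ((m : ℝ) + 6) ^ 5 := by ring
    _ ≤ (m.factorial : ℝ) * (m + 6) *
        (32 * ((m + 5) * ((m + 4) * ((m + 3) * ((m + 2) * (m + 1)))))) := by
        gcongr
    _ ≤ (m.factorial : ℝ) * (m + 6) *
        (500 * ((m + 5) * ((m + 4) * ((m + 3) * ((m + 2) * (m + 1)))))) := by
        gcongr
        norm_num
    _ = _ := by ring

lemma arith2 (n : ℕ) (hn : 10 ≤ n) :
    (((n - 3).factorial * 6 ^ 3 : ℕ) : ℝ) ≤ 1000 / (n : ℝ) ^ 3 * ((n.factorial : ℝ) / 2) := by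
  obtain ⟨m, rfl⟩ : ∃ m, n = m + 3 := ⟨n - 3, by omega⟩
  rw [Nat.add_sub_cancel]
  have h1 : ((m + 3).factorial : ℝ) = ((m : ℝ) + 3) * ((m + 2) * ((m + 1) *
      (m.factorial : ℝ))) := by
    rw [Nat.factorial_succ, Nat.factorial_succ, Nat.factorial_succ]
    push_cast
    ring
  have hm : (7 : ℝ) ≤ m := by exact_mod_cast (by omega : 7 ≤ m)
  have hf : (0 : ℝ) < (m.factorial : ℝ) := by exact_mod_cast Nat.factorial_pos m
  rw [h1]
  push_cast
  have hX : (0 : ℝ) < ((m : ℝ) + 3) ^ 3 := by positivity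
  rw [div_mul_eq_mul_div, le_div_iff₀ hX]
  have h2 : 6 ^ 3 * ((m : ℝ) + 3) ^ 2 ≤ 500 * ((m + 2) * (m + 1)) := by nlinarith
  calc (m.factorial : ℝ) * 216 * ((m : ℝ) + 3) ^ 3
      = (m.factorial : ℝ) * (m + 3) * (6 ^ 3 * ((m : ℝ) + 3) ^ 2) := by ring
    _ ≤ (m.factorial : ℝ) * (m + 3) * (500 * ((m + 2) * (m + 1))) := by
        gcongr
    _ = _ := by ring

end CLS

open CLS in
theorem tCLS : S_CLS := by
  intro n hn d w hd
  have : Nontrivial (Fin n) := Fin.nontrivial_iff_two_le.2 (by omega)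
  have hcard : (Fintype.card (alternatingGroup (Fin n)) : ℝ) = (n.factorial : ℝ) / 2 := by
    have h1 := two_mul_card_alternatingGroup (α := Fin n)
    rw [Fintype.card_perm, Fintype.card_fin] at h1
    have h2 : (2 : ℝ) * (Fintype.card (alternatingGroup (Fin n)) : ℝ) = (n.factorial : ℝ) := by
      exact_mod_cast h1
    linarith
  rw [hcard]
  obtain ⟨𝓢, h𝓢⟩ : ∃ 𝓢 : Finset (Equiv.Perm (Fin n)), 𝓢 = (univ.filter
    (fun h : alternatingGroup (Fin n) => h⁻¹ * d * h = w)).image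
      (fun h : alternatingGroup (Fin n) => (h : Equiv.Perm (Fin n))) := ⟨_, rfl⟩
  have hS : (univ.filter (fun h : alternatingGroup (Fin n) => h⁻¹ * d * h = w)).card = 𝓢.card := by
    rw [h𝓢, Finset.card_image_of_injective _ Subtype.val_injective]
  rw [hS]
  have hmem : ∀ h ∈ 𝓢, (d : Equiv.Perm (Fin n)) * h = h * w := by
    intro h hh
    rw [h𝓢] at hh
    obtain ⟨k, hk, rfl⟩ := Finset.mem_image.1 hh
    have h1 := (Finset.mem_filter.1 hk).2
    have h2 : d * k = k * w := by rw [← h1]; group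
    exact congrArg Subtype.val h2
  have hpt : ∀ h ∈ 𝓢, ∀ x, (d : Equiv.Perm (Fin n)) (h x) = h ((w : Equiv.Perm (Fin n)) x) := by
    intro h hh x
    have := congrArg (fun f : Equiv.Perm (Fin n) => f x) (hmem h hh)
    simpa using this
  rcases 𝓢.eq_empty_or_nonempty with he | ⟨h0, hh0⟩
  · rw [he, Finset.card_empty, Nat.cast_zero]
    positivity
  by_cases h7 : 7 ≤ (w : Equiv.Perm (Fin n)).support.card
  · obtain ⟨x1, x2, x3, h6⟩ := six (w : Equiv.Perm (Fin n)) h7
    have h1 := card_three 𝓢 x1 x2 x3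
      ({x1, (w : Equiv.Perm (Fin n)) x1, x2, (w : Equiv.Perm (Fin n)) x2, x3,
        (w : Equiv.Perm (Fin n)) x3} : Finset (Fin n)) univ
      (fun h _ => ⟨mem_univ _, mem_univ _, mem_univ _⟩) (by
        intro h hh h' hh' e1 e2 e3 x hx
        simp only [Finset.mem_insert, Finset.mem_singleton] at hx
        rcases hx with rfl | rfl | rfl | rfl | rfl | rfl
        · exact e1
        · rw [← hpt h hh, ← hpt h' hh', e1]
        · exact e2
        · rw [← hpt h hh, ← hpt h' hh', e2]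
        · exact e3
        · rw [← hpt h hh, ← hpt h' hh', e3])
    rw [h6, Finset.card_univ, Fintype.card_fin] at h1
    exact le_trans (by exact_mod_cast h1) (arith1 n hn)
  · -- small support
    have hw1 : (w : Equiv.Perm (Fin n)) ≠ 1 := by
      intro hw
      have h1 := hmem h0 hh0
      rw [hw, mul_one] at h1
      have h2 : (d : Equiv.Perm (Fin n)) = 1 := by
        have := congrArg (fun f => f * h0⁻¹) h1
        simpa using this
      exact hd (Subtype.ext h2)
    have hsign : Equiv.Perm.sign (w : Equiv.Perm (Fin n)) = 1 := Equiv.Perm.mem_alternatingGroup.1 w.2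
    have h3 : 3 ≤ (w : Equiv.Perm (Fin n)).support.card := by
      have h4 := Equiv.Perm.two_le_card_support_of_ne_one hw1
      rcases Nat.lt_or_ge 2 (w : Equiv.Perm (Fin n)).support.card with h5 | h5
      · exact h5
      · exfalso
        have h6 : (w : Equiv.Perm (Fin n)).support.card = 2 := le_antisymm h5 h4
        have h8 := (Equiv.Perm.card_support_eq_two.1 h6).sign_eq
        rw [hsign] at h8
        exact absurd h8 (by decide)
    have hdc : (d : Equiv.Perm (Fin n)).support.card = (w : Equiv.Perm (Fin n)).support.card := by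
      have h4 : (d : Equiv.Perm (Fin n)) = h0 * w * h0⁻¹ := by
        rw [← hmem h0 hh0]
        group
      rw [h4]
      exact Equiv.Perm.card_support_conj
    obtain ⟨t, ht1, ht2⟩ := Finset.exists_subset_card_eq h3
    obtain ⟨x1, x2, x3, h12, h13, h23, rfl⟩ := Finset.card_eq_three.1 ht2
    have hD : ∀ h ∈ 𝓢, ∀ x ∈ ({x1, x2, x3} : Finset (Fin n)),
        h x ∈ (d : Equiv.Perm (Fin n)).support := by
      intro h hh x hx
      have h4 := Equiv.Perm.mem_support.1 (ht1 hx)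
      rw [Equiv.Perm.mem_support, hpt h hh]
      exact fun h5 => h4 (h.injective h5)
    have h1 := card_three 𝓢 x1 x2 x3 ({x1, x2, x3} : Finset (Fin n))
      (d : Equiv.Perm (Fin n)).support
      (fun h hh => ⟨hD h hh x1 (by simp), hD h hh x2 (by simp), hD h hh x3 (by simp)⟩) (by
        intro h _ h' _ e1 e2 e3 x hx
        simp only [Finset.mem_insert, Finset.mem_singleton] at hx
        rcases hx with rfl | rfl | rfl
        · exact e1
        · exact e2
        · exact e3)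
    rw [ht2, hdc] at h1
    have h4 : 𝓢.card ≤ (n - 3).factorial * 6 ^ 3 :=
      h1.trans (Nat.mul_le_mul_left _ (Nat.pow_le_pow_left (by omega) 3))
    exact le_trans (by exact_mod_cast h4) (arith2 n hn)

end Pool.Agent.TH408.GR
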