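import Pool.Agent.TH408.GR.Stm

/-!
# Collision probability of products of random conjugates (job 3151)
-/

set_option autoImplicit false
set_option linter.unusedSectionVars false

open Finset
open scoped Classical

namespace Pool.Agent.TH408.GR.Coll

open Pool.Agent.W904.AK Pool.Agent.TH408.GR

lemma sum_Rs {α : Type} [Fintype α] (N : ℕ) (f : Rs α (N + 1) → ℝ) :
    ∑ r : Rs α (N + 1), f r = ∑ a : Rs α N, ∑ b : α, f ((a, b) : Rs α N × α) := by
  change ∑ r : Rs α N × α, f r = _
  exact Fintype.sum_prod_type f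

lemma sum_im_sq {Ω α : Type*} [Fintype Ω] [Fintype α] (p : Ω → ℝ) (f : Ω → α) :
    ∑ a, im p f a ^ 2 = ∑ x, ∑ y, p x * p y * (if f x = f y then 1 else 0) := by
  have h1 : ∀ a, im p f a ^ 2 =
      ∑ x, ∑ y, (if f x = a then p x else 0) * (if f y = a then p y else 0) := by
    intro a
    rw [sq, im, Finset.sum_mul_sum]
  simp only [h1]
  rw [Finset.sum_comm]
  refine Finset.sum_congr rfl fun x _ => ?_
  rw [Finset.sum_comm]
  refine Finset.sum_congr rfl fun y _ => ?_
  rw [Finset.sum_eq_single (f x)]
  · by_cases h : f x = f y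
    · rw [if_pos rfl, if_pos h.symm, if_pos h, mul_one]
    · rw [if_pos rfl, if_neg (fun h' => h h'.symm), if_neg h, mul_zero, mul_zero]
  · intro a _ ha
    rw [if_neg (fun h' => ha h'.symm), zero_mul]
  · intro h
    exact absurd (Finset.mem_univ _) h

lemma sq_le_one {Ω : Type*} [Fintype Ω] {ν : Ω → ℝ} (hν : IsLaw ν) : ∑ x, ν x ^ 2 ≤ 1 := by
  rw [← hν.total]
  refine Finset.sum_le_sum fun x _ => ?_
  have h1 := hν.nonneg x
  have h2 : ν x ≤ 1 := by
    rw [← hν.total]
    exact Finset.single_le_sum (fun y _ => hν.nonneg y) (Finset.mem_univ x)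
  nlinarith

/-- one step -/
lemma inner {G : Type} [Group G] [Fintype G] {ν : G → ℝ} {κ : ℝ} (hν : IsLaw ν) (hκ : 0 ≤ κ)
    (hc : ∀ d w : G, d ≠ 1 → ((univ.filter (fun h : G => h⁻¹ * d * h = w)).card : ℝ) ≤
      κ * Fintype.card G) (P Q : G) :
    ∑ g : G, unif G g * ∑ a, ∑ a', ν a * ν a' * (if P * (g * a) = Q * (g * a') then 1 else 0) ≤
      (if P = Q then 1 else 0) * ∑ x, ν x ^ 2 + κ * (1 - ∑ x, ν x ^ 2) := by
  have hs1 := sq_le_one hν
  have hu := (unif_law G).total
  by_cases h : P = Q
  · subst h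
    have h1 : ∀ g : G, ∑ a, ∑ a', ν a * ν a' * (if P * (g * a) = P * (g * a') then (1 : ℝ) else 0) =
        ∑ x, ν x ^ 2 := by
      intro g
      refine Finset.sum_congr rfl fun a _ => ?_
      rw [Finset.sum_eq_single a]
      · rw [if_pos rfl, mul_one, sq]
      · intro b _ hb
        rw [if_neg, mul_zero]
        intro he
        exact hb (mul_left_cancel (mul_left_cancel he)).symm
      · intro hn
        exact absurd (Finset.mem_univ _) hn
    rw [Finset.sum_congr rfl (fun g _ => by rw [h1 g])]
    rw [← Finset.sum_mul, hu, if_pos rfl]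
    nlinarith
  · rw [if_neg h, zero_mul, zero_add]
    have hd : Q⁻¹ * P ≠ 1 := by
      intro hd
      exact h (inv_mul_eq_one.mp hd).symm
    have hcard : (0 : ℝ) < Fintype.card G := by
      exact_mod_cast Fintype.card_pos
    -- exchange the sums
    have h1 : ∑ g : G, unif G g *
        ∑ a, ∑ a', ν a * ν a' * (if P * (g * a) = Q * (g * a') then (1 : ℝ) else 0) =
        ∑ a, ∑ a', ν a * ν a' *
          ∑ g : G, unif G g * (if P * (g * a) = Q * (g * a') then (1 : ℝ) else 0) := by
      simp only [Finset.mul_sum]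
      rw [Finset.sum_comm]
      refine Finset.sum_congr rfl fun a _ => ?_
      rw [Finset.sum_comm]
      refine Finset.sum_congr rfl fun a' _ => ?_
      refine Finset.sum_congr rfl fun g _ => ?_
      ring
    rw [h1]
    have h2 : ∀ a a' : G, ∑ g : G, unif G g * (if P * (g * a) = Q * (g * a') then (1 : ℝ) else 0) ≤
        if a = a' then 0 else κ := by
      intro a a'
      by_cases haa : a = a'
      · subst haa
        rw [if_pos rfl]
        apply le_of_eq
        apply Finset.sum_eq_zero
        intro g _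
        rw [if_neg, mul_zero]
        intro he
        exact h (mul_right_cancel he)
      · rw [if_neg haa]
        have h3 : ∑ g : G, unif G g * (if P * (g * a) = Q * (g * a') then (1 : ℝ) else 0) =
            ((univ.filter (fun g : G => g⁻¹ * (Q⁻¹ * P) * g = a' * a⁻¹)).card : ℝ) /
              Fintype.card G := by
          rw [Finset.card_filter, Nat.cast_sum, Finset.sum_div]
          refine Finset.sum_congr rfl fun g _ => ?_
          have h4 : (P * (g * a) = Q * (g * a')) ↔ (g⁻¹ * (Q⁻¹ * P) * g = a' * a⁻¹) := by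
            constructor
            · intro he
              have : Q⁻¹ * (P * (g * a)) = g * a' := by
                rw [he]; group
              have h5 : g⁻¹ * (Q⁻¹ * (P * (g * a))) = a' := by
                rw [this]; group
              rw [← h5]; group
            · intro he
              have h5 : a' = g⁻¹ * (Q⁻¹ * P) * g * a := by
                rw [he]; group
              rw [h5]; group
          by_cases h5 : P * (g * a) = Q * (g * a')
          · rw [if_pos h5, if_pos (h4.mp h5)]
            simp [unif]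
          · rw [if_neg h5, if_neg (fun h6 => h5 (h4.mpr h6))]
            simp
        rw [h3, div_le_iff₀ hcard]
        exact hc _ _ hd
    calc ∑ a, ∑ a', ν a * ν a' *
          ∑ g : G, unif G g * (if P * (g * a) = Q * (g * a') then (1 : ℝ) else 0)
        ≤ ∑ a, ∑ a', ν a * ν a' * (if a = a' then 0 else κ) :=
          Finset.sum_le_sum fun a _ => Finset.sum_le_sum fun a' _ =>
            mul_le_mul_of_nonneg_left (h2 a a') (mul_nonneg (hν.nonneg a) (hν.nonneg a'))
      _ = κ * (1 - ∑ x, ν x ^ 2) := by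
          have h6 : ∀ a : G, ∑ a', ν a * ν a' * (if a = a' then 0 else κ) =
              κ * ν a - κ * ν a ^ 2 := by
            intro a
            have h7 : ∀ a', ν a * ν a' * (if a = a' then 0 else κ) =
                κ * ν a * ν a' - (if a = a' then κ * ν a * ν a' else 0) := by
              intro a'
              by_cases haa : a = a'
              · rw [if_pos haa, if_pos haa]; ring
              · rw [if_neg haa, if_neg haa]; ring
            simp only [h7]
            rw [Finset.sum_sub_distrib, ← Finset.mul_sum, hν.total, Finset.sum_ite_eq,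
              if_pos (Finset.mem_univ _)]
            ring
          simp only [h6]
          rw [Finset.sum_sub_distrib, ← Finset.mul_sum, ← Finset.mul_sum, hν.total]
          ring

/-- the collision probability -/
noncomputable def cM {G : Type} [Group G] [Fintype G] (ν : G → ℝ) (M : ℕ) : ℝ :=
  ∑ h : Rs G M, pR (unif G) M h * ∑ y : Rs G M, ∑ y' : Rs G M,
    pR ν M y * pR ν M y' * (if PPh M h y = PPh M h y' then 1 else 0)

lemma cM_zero {G : Type} [Group G] [Fintype G] (ν : G → ℝ) : cM ν 0 = 1 := by
  unfold cM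
  change ∑ h : Unit, (1 : ℝ) * ∑ y : Unit, ∑ y' : Unit,
    (1 : ℝ) * 1 * (if (1 : G) = 1 then 1 else 0) = 1
  simp

lemma cM_succ {G : Type} [Group G] [Fintype G] {ν : G → ℝ} {κ : ℝ} (hν : IsLaw ν) (hκ : 0 ≤ κ)
    (hc : ∀ d w : G, d ≠ 1 → ((univ.filter (fun h : G => h⁻¹ * d * h = w)).card : ℝ) ≤
      κ * Fintype.card G) (M : ℕ) :
    cM ν (M + 1) ≤ cM ν M * ∑ x, ν x ^ 2 + κ * (1 - ∑ x, ν x ^ 2) := by
  have hU := pR_law (unif_law G) M
  have hN := pR_law hν M
  have h1 : cM ν (M + 1) = ∑ h : Rs G M, pR (unif G) M h * ∑ y : Rs G M, ∑ y' : Rs G M,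
      pR ν M y * pR ν M y' *
        ∑ g : G, unif G g * ∑ a, ∑ a', ν a * ν a' *
          (if PPh M h y * (g * a) = PPh M h y' * (g * a') then 1 else 0) := by
    unfold cM
    rw [sum_Rs]
    refine Finset.sum_congr rfl fun h _ => ?_
    have e1 : ∀ g : G, pR (unif G) (M + 1) ((h, g) : Rs G M × G) *
        ∑ y : Rs G (M + 1), ∑ y' : Rs G (M + 1), pR ν (M + 1) y * pR ν (M + 1) y' *
          (if PPh (M + 1) ((h, g) : Rs G M × G) y = PPh (M + 1) ((h, g) : Rs G M × G) y'
            then (1 : ℝ) else 0) =
        ∑ y : Rs G M, ∑ y' : Rs G M, pR (unif G) M h * (pR ν M y * pR ν M y' *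
          (unif G g * ∑ a, ∑ a', ν a * ν a' *
            (if PPh M h y * (g * a) = PPh M h y' * (g * a') then 1 else 0))) := by
      intro g
      rw [sum_Rs]
      have e2 : ∀ (y : Rs G M) (a : G), ∑ y' : Rs G (M + 1),
          pR ν (M + 1) ((y, a) : Rs G M × G) * pR ν (M + 1) y' *
            (if PPh (M + 1) ((h, g) : Rs G M × G) ((y, a) : Rs G M × G) =
              PPh (M + 1) ((h, g) : Rs G M × G) y' then (1 : ℝ) else 0) =
          ∑ y' : Rs G M, ∑ a' : G, (pR ν M y * ν a) * (pR ν M y' * ν a') *
            (if PPh M h y * (g * a) = PPh M h y' * (g * a') then 1 else 0) := by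
        intro y a
        rw [sum_Rs]
        rfl
      simp only [e2]
      have e3 : pR (unif G) (M + 1) ((h, g) : Rs G M × G) = pR (unif G) M h * unif G g := rfl
      rw [e3, Finset.mul_sum]
      refine Finset.sum_congr rfl fun y _ => ?_
      rw [Finset.sum_comm, Finset.mul_sum]
      refine Finset.sum_congr rfl fun y' _ => ?_
      simp only [Finset.mul_sum]
      refine Finset.sum_congr rfl fun a _ => ?_
      refine Finset.sum_congr rfl fun a' _ => ?_
      ring
    have e4 : ∀ g : G, pR (unif G) (M + 1) ((h, g) : Rs G M × G) *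
        ∑ y : Rs G (M + 1), ∑ y' : Rs G (M + 1), pR ν (M + 1) y * pR ν (M + 1) y' *
          (if PPh (M + 1) ((h, g) : Rs G M × G) y = PPh (M + 1) ((h, g) : Rs G M × G) y'
            then (1 : ℝ) else 0) = _ := e1
    rw [Finset.sum_congr rfl (fun g _ => e4 g)]
    rw [Finset.sum_comm, Finset.mul_sum]
    refine Finset.sum_congr rfl fun y _ => ?_
    rw [Finset.sum_comm, Finset.mul_sum]
    refine Finset.sum_congr rfl fun y' _ => ?_
    rw [Finset.mul_sum, Finset.mul_sum]
  rw [h1]
  calc ∑ h : Rs G M, pR (unif G) M h * ∑ y : Rs G M, ∑ y' : Rs G M,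
      pR ν M y * pR ν M y' *
        ∑ g : G, unif G g * ∑ a, ∑ a', ν a * ν a' *
          (if PPh M h y * (g * a) = PPh M h y' * (g * a') then 1 else 0)
      ≤ ∑ h : Rs G M, pR (unif G) M h * ∑ y : Rs G M, ∑ y' : Rs G M,
        pR ν M y * pR ν M y' * ((if PPh M h y = PPh M h y' then 1 else 0) * ∑ x, ν x ^ 2 +
          κ * (1 - ∑ x, ν x ^ 2)) :=
        Finset.sum_le_sum fun h _ => mul_le_mul_of_nonneg_left
          (Finset.sum_le_sum fun y _ => Finset.sum_le_sum fun y' _ =>
            mul_le_mul_of_nonneg_left (inner hν hκ hc _ _)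
              (mul_nonneg (hN.nonneg y) (hN.nonneg y'))) (hU.nonneg h)
    _ = cM ν M * ∑ x, ν x ^ 2 + κ * (1 - ∑ x, ν x ^ 2) := by
        have e5 : ∀ h : Rs G M, ∑ y : Rs G M, ∑ y' : Rs G M,
            pR ν M y * pR ν M y' * ((if PPh M h y = PPh M h y' then 1 else 0) * ∑ x, ν x ^ 2 +
              κ * (1 - ∑ x, ν x ^ 2)) =
            (∑ y : Rs G M, ∑ y' : Rs G M,
              pR ν M y * pR ν M y' * (if PPh M h y = PPh M h y' then 1 else 0)) *
              ∑ x, ν x ^ 2 + κ * (1 - ∑ x, ν x ^ 2) := by
          intro h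
          have e6 : ∀ y y' : Rs G M, pR ν M y * pR ν M y' *
              ((if PPh M h y = PPh M h y' then 1 else 0) * ∑ x, ν x ^ 2 +
              κ * (1 - ∑ x, ν x ^ 2)) =
              pR ν M y * pR ν M y' * (if PPh M h y = PPh M h y' then 1 else 0) * ∑ x, ν x ^ 2 +
              (κ * (1 - ∑ x, ν x ^ 2)) * pR ν M y * pR ν M y' := fun y y' => by ring
          simp only [e6, Finset.sum_add_distrib, ← Finset.mul_sum, ← Finset.sum_mul, hN.total,
            mul_one]
        simp only [e5]
        unfold cM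
        simp only [mul_add, Finset.sum_add_distrib, ← Finset.sum_mul, hU.total, one_mul,
          ← mul_assoc]

end Pool.Agent.TH408.GR.Coll

namespace Pool.Agent.TH408.GR

open Pool.Agent.W904.AK Coll

theorem tCOLL : S_COLL := by
  intro G _ _ ν κ ς hν hκ hς hc M
  have hs0 : 0 ≤ ∑ x, ν x ^ 2 := Finset.sum_nonneg fun x _ => sq_nonneg _
  have hs1 := sq_le_one hν
  have h1 : ∑ h : Rs G M, pR (unif G) M h * ∑ x, lawM ν M h x ^ 2 = cM ν M := by
    unfold cM
    refine Finset.sum_congr rfl fun h _ => ?_
    congr 1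
    unfold lawM
    exact sum_im_sq _ _
  rw [h1]
  have h2 : cM ν M ≤ (∑ x, ν x ^ 2) ^ M + κ := by
    induction M with
    | zero => rw [cM_zero, pow_zero]; linarith
    | succ M ih =>
      have ih' := ih (by
        unfold cM
        refine Finset.sum_congr rfl fun h _ => ?_
        congr 1
        unfold lawM
        exact sum_im_sq _ _)
      have h3 := cM_succ hν hκ hc M
      have h4 := mul_le_mul_of_nonneg_right ih' hs0
      rw [pow_succ]
      nlinarith
  refine h2.trans ?_
  have := pow_le_pow_left₀ hs0 hς M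
  linarith

end Pool.Agent.TH408.GR
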