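import Pool.Agent.TH408.GR.Stm

/-!
# The sum of the conditional entropies along random triples
-/

set_option autoImplicit false
set_option linter.unusedSectionVars false

open Finset
open scoped Classical

namespace Pool.Agent.TH408.GR.ETA

open Pool.Agent.W904.AK Pool.Agent.TH408.GR

section Sub

variable {G P : Type} [Group G] [Fintype G] [Fintype P] [MulAction G P]

/-- The entropy of the preimages of the points of `S`. -/
noncomputable def F (ν : G → ℝ) (S : Finset P) : ℝ :=
  H ν (fun y => fun x : P => if x ∈ S then some (y⁻¹ • x) else none)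

lemma F_key (S : Finset P) (y y' : G) :
    ((fun x : P => if x ∈ S then some (y⁻¹ • x) else none) =
     (fun x : P => if x ∈ S then some (y'⁻¹ • x) else none)) ↔
      ∀ x ∈ S, y⁻¹ • x = y'⁻¹ • x := by
  constructor
  · intro h x hx
    have := congrFun h x
    simpa [hx] using this
  · intro h
    funext x
    by_cases hx : x ∈ S
    · simp [hx, h x hx]
    · simp [hx]

lemma F_eq {ν : G → ℝ} (h : IsLaw ν) {α : Type*} (f : G → α) (S : Finset P)
    (hf : ∀ y y', f y = f y' ↔ ∀ x ∈ S, y⁻¹ • x = y'⁻¹ • x) : H ν f = F ν S := by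
  apply H_congr h
  · intro y y' _ _ e
    exact (F_key S y y').2 ((hf y y').1 e)
  · intro y y' _ _ e
    exact (hf y y').2 ((F_key S y y').1 e)

lemma F_mono {ν : G → ℝ} (h : IsLaw ν) {S T : Finset P} (hST : S ⊆ T) : F ν S ≤ F ν T := by
  apply H_mono h
  intro y y' _ _ e
  exact (F_key S y y').2 (fun x hx => (F_key T y y').1 e x (hST hx))

/-- Diminishing returns. -/
lemma F_dim {ν : G → ℝ} (h : IsLaw ν) {S T : Finset P} (hST : S ⊆ T) (x : P) :
    F ν (insert x T) + F ν S ≤ F ν (insert x S) + F ν T := by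
  apply submod' h
  · intro y y' _ _ e
    exact (F_key S y y').2 (fun z hz => (F_key _ y y').1 e z (Finset.mem_insert_of_mem hz))
  · intro y y' _ _ e
    exact (F_key S y y').2 (fun z hz => (F_key T y y').1 e z (hST hz))
  · intro y y' _ _ e
    have e1 := (F_key _ y y').1 (congrArg Prod.fst e)
    have e2 := (F_key _ y y').1 (congrArg Prod.snd e)
    refine (F_key _ y y').2 (fun z hz => ?_)
    rcases Finset.mem_insert.1 hz with rfl | hz
    · exact e1 z (Finset.mem_insert_self _ _)
    · exact e2 z hz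

lemma F_empty {ν : G → ℝ} (h : IsLaw ν) : F ν (∅ : Finset P) = 0 := by
  unfold F
  simp only [Finset.notMem_empty, if_false]
  exact H_const h _

lemma F_single {ν : G → ℝ} (h : IsLaw ν) (x : P) :
    F ν (insert x ∅ : Finset P) ≤ Real.log (Fintype.card P) := by
  have e : H ν (fun y => y⁻¹ • x) = F ν (insert x ∅ : Finset P) := by
    apply F_eq h
    intro y y'
    simp
  rw [← e, ← Finset.card_univ]
  exact H_le_log_card h _ _ (fun _ _ => Finset.mem_univ _)

lemma F_univ [FaithfulSMul G P] {ν : G → ℝ} (h : IsLaw ν) :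
    H ν (fun x => x) = F ν (univ : Finset P) := by
  apply F_eq h
  intro y y'
  constructor
  · rintro rfl x _
    rfl
  · intro e
    have : y⁻¹ = y'⁻¹ := FaithfulSMul.eq_of_smul_eq_smul (fun x : P => e x (Finset.mem_univ x))
    exact inv_injective this

/-- The greedy vertex. -/
lemma greedy {ν : G → ℝ} (h : IsLaw ν) (T : Finset P) :
    ∃ w : P → ℝ, (∀ x, 0 ≤ w x) ∧ ∑ x ∈ T, w x = F ν T ∧
      ∀ S ⊆ T, ∑ x ∈ S, w x ≤ F ν S := by
  induction T using Finset.induction_on with
  | empty =>
    refine ⟨fun _ => 0, fun _ => le_rfl, by simp [F_empty h], ?_⟩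
    intro S hS
    rw [Finset.subset_empty] at hS
    simp [hS, F_empty h]
  | insert a T ha ih =>
    obtain ⟨w, hw0, hw1, hw2⟩ := ih
    refine ⟨fun x => if x = a then F ν (insert a T) - F ν T else w x, ?_, ?_, ?_⟩
    · intro x
      by_cases hx : x = a
      · simp only [hx, if_true]
        have := F_mono h (Finset.subset_insert a T)
        linarith
      · simp only [hx, if_false]
        exact hw0 x
    · rw [Finset.sum_insert ha]
      simp only [if_true]
      have : ∑ x ∈ T, (if x = a then F ν (insert a T) - F ν T else w x) = ∑ x ∈ T, w x := by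
        refine Finset.sum_congr rfl fun x hx => ?_
        rw [if_neg]
        rintro rfl
        exact ha hx
      rw [this, hw1]
      ring
    · intro S hS
      by_cases haS : a ∈ S
      · have h1 : S.erase a ⊆ T := by
          intro x hx
          rw [Finset.mem_erase] at hx
          rcases Finset.mem_insert.1 (hS hx.2) with h2 | h2
          · exact absurd h2 hx.1
          · exact h2
        have h2 := hw2 _ h1
        have h3 := F_dim h h1 a
        rw [Finset.insert_erase haS] at h3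
        rw [← Finset.add_sum_erase _ _ haS]
        simp only [if_true]
        have : ∑ x ∈ S.erase a, (if x = a then F ν (insert a T) - F ν T else w x) =
            ∑ x ∈ S.erase a, w x := by
          refine Finset.sum_congr rfl fun x hx => ?_
          rw [if_neg (Finset.mem_erase.1 hx).1]
        rw [this]
        linarith
      · have h1 : S ⊆ T := by
          intro x hx
          rcases Finset.mem_insert.1 (hS hx) with rfl | h2
          · exact absurd hx haS
          · exact h2
        have : ∑ x ∈ S, (if x = a then F ν (insert a T) - F ν T else w x) = ∑ x ∈ S, w x := by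
          refine Finset.sum_congr rfl fun x hx => ?_
          rw [if_neg]
          rintro rfl
          exact haS hx
        rw [this]
        exact hw2 _ h1

end Sub

section Avg

variable {G P : Type} [Group G] [Fintype G] [Fintype P] [MulAction G P]

/-- Averages over the group. -/
lemma avg_one (A : Act G P) (e : P) (φ : P → ℝ) :
    (Fintype.card P : ℝ) * ∑ u : G, φ (u • e) = (Fintype.card G : ℝ) * ∑ x, φ x := by
  have h1 : ∀ x : P, ∑ u : G, φ (u • e) = ∑ u : G, φ (u • x) := by
    intro x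
    obtain ⟨s, hs⟩ := A.t1 e x
    rw [← Equiv.sum_comp (Equiv.mulRight s) (fun u : G => φ (u • e))]
    refine Finset.sum_congr rfl fun u _ => ?_
    rw [Equiv.coe_mulRight, mul_smul, hs]
  have h2 : ∑ x : P, ∑ u : G, φ (u • x) = (Fintype.card P : ℝ) * ∑ u : G, φ (u • e) := by
    rw [Finset.sum_congr rfl fun x _ => (h1 x).symm, Finset.sum_const, Finset.card_univ,
      nsmul_eq_mul]
  have h3 : ∑ x : P, ∑ u : G, φ (u • x) = (Fintype.card G : ℝ) * ∑ x, φ x := by
    rw [Finset.sum_comm]
    have : ∀ u : G, ∑ x : P, φ (u • x) = ∑ x, φ x := by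
      intro u
      exact Equiv.sum_comp (MulAction.toPerm u) φ
    rw [Finset.sum_congr rfl fun u _ => this u, Finset.sum_const, Finset.card_univ,
      nsmul_eq_mul]
  rw [← h2, h3]

/-- Averages over triples. -/
lemma avg_three (A : Act G P) (φ : P → P → P → ℝ) (h0 : ∀ a b c, 0 ≤ φ a b c)
    (ha : ∀ a b, φ a b a = 0) (hb : ∀ a b, φ a b b = 0) :
    ∑ u : G, ∑ x, φ (u • A.e0) (u • A.e1) x ≤
      (Fintype.card P : ℝ) * ∑ u : G, φ (u • A.e0) (u • A.e1) (u • A.e2) := by
  have h1 : ∀ x : P, ∑ u : G, φ (u • A.e0) (u • A.e1) (u • x) ≤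
      ∑ u : G, φ (u • A.e0) (u • A.e1) (u • A.e2) := by
    intro x
    by_cases hx0 : x = A.e0
    · rw [hx0]
      simp only [ha, Finset.sum_const_zero]
      exact Finset.sum_nonneg fun _ _ => h0 _ _ _
    by_cases hx1 : x = A.e1
    · rw [hx1]
      simp only [hb, Finset.sum_const_zero]
      exact Finset.sum_nonneg fun _ _ => h0 _ _ _
    obtain ⟨s, hs0, hs1, hs2⟩ := A.t3 A.e2 x A.h02.symm A.h12.symm hx0 hx1
    apply le_of_eq
    rw [← Equiv.sum_comp (Equiv.mulRight s) (fun u : G => φ (u • A.e0) (u • A.e1) (u • A.e2))]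
    refine Finset.sum_congr rfl fun u _ => ?_
    rw [Equiv.coe_mulRight, mul_smul, mul_smul, mul_smul, hs0, hs1, hs2]
  have h2 : ∑ u : G, ∑ x, φ (u • A.e0) (u • A.e1) x =
      ∑ x : P, ∑ u : G, φ (u • A.e0) (u • A.e1) (u • x) := by
    rw [Finset.sum_comm (s := (univ : Finset P))]
    refine Finset.sum_congr rfl fun u _ => ?_
    exact (Equiv.sum_comp (MulAction.toPerm u) (fun x => φ (u • A.e0) (u • A.e1) x)).symm
  rw [h2]
  refine (Finset.sum_le_sum fun x _ => h1 x).trans (le_of_eq ?_)
  rw [Finset.sum_const, Finset.card_univ, nsmul_eq_mul]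

end Avg

section Main

variable {G P : Type} [Group G] [Fintype G] [Fintype P] [MulAction G P]

/-- The points covered by a sequence of triples. -/
noncomputable def cov (A : Act G P) : ∀ i, Rs G i → Finset P
  | 0, _ => ∅
  | (i + 1), s => insert (s.2 • A.e0) (insert (s.2 • A.e1) (insert (s.2 • A.e2) (cov A i s.1)))

lemma img_iff (A : Act G P) : ∀ i (s : Rs G i) (y y' : G),
    img A i s y = img A i s y' ↔ ∀ x ∈ cov A i s, y⁻¹ • x = y'⁻¹ • x
  | 0, s, y, y' => by simp [img, cov]
  | (i + 1), s, y, y' => by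
    have ih := img_iff A i s.1 y y'
    simp only [img, cov, List.cons.injEq, Prod.mk.injEq, Finset.mem_insert, forall_eq_or_imp, ih]
    tauto

lemma H_re {α β : Type*} {ν : G → ℝ} (h : IsLaw ν) (i : ℕ) (g : Rs G i → G → β)
    (f : G → Rs G i → G → α) :
    H (pr (unif G) (pr (pR (unif G) i) ν))
      (fun z => (z.1, ((z.2.1, g z.2.1 z.2.2), f z.1 z.2.1 z.2.2))) =
    H (pr (unif G) (pR (unif G) i)) (fun x => x) +
      ∑ x, pr (unif G) (pR (unif G) i) x * H ν (fun y => (g x.2 y, f x.1 x.2 y)) := by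
  have e1 := H_equiv (p := pr (pr (unif G) (pR (unif G) i)) ν)
    (q := pr (unif G) (pr (pR (unif G) i) ν)) (Equiv.prodAssoc G (Rs G i) G)
    (fun x => by simp [pr, mul_assoc])
    (fun z => (z.1, ((z.2.1, g z.2.1 z.2.2), f z.1 z.2.1 z.2.2)))
  rw [← e1]
  have e2 := H_comp_injective (pr (pr (unif G) (pR (unif G) i)) ν)
    (fun z : (G × Rs G i) × G => (z.1, (g z.1.2 z.2, f z.1.1 z.1.2 z.2)))
    (φ := fun w : (G × Rs G i) × (β × α) => (w.1.1, ((w.1.2, w.2.1), w.2.2))) (by
      rintro ⟨⟨a, b⟩, ⟨c, d⟩⟩ ⟨⟨a', b'⟩, ⟨c', d'⟩⟩ hh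
      simp only [Prod.mk.injEq] at hh ⊢
      tauto)
  have e3 := H_dis (pr_law (unif_law G) (pR_law (unif_law G) i)) h
    (fun (x : G × Rs G i) (y : G) => (g x.2 y, f x.1 x.2 y))
  rw [← e3, ← e2]
  rfl

/-- The increment of the third point. -/
noncomputable def g2 (A : Act G P) (ν : G → ℝ) (S : Finset P) : ℝ :=
  ∑ u : G, unif G u * (F ν (insert (u • A.e0) (insert (u • A.e1) (insert (u • A.e2) S))) -
    F ν (insert (u • A.e0) (insert (u • A.e1) S)))

lemma eta_eq (A : Act G P) {ν : G → ℝ} (h : IsLaw ν) (i : ℕ) :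
    eta A (Mi A ν h i) = ∑ s, pR (unif G) i s * g2 A ν (cov A i s) := by
  have e1 := H_re h i (fun s y => img A i s y)
    (fun u _ y => (y⁻¹ • u • A.e0, y⁻¹ • u • A.e1, y⁻¹ • u • A.e2))
  have e2 := H_re h i (fun s y => img A i s y)
    (fun u _ y => (y⁻¹ • u • A.e0, y⁻¹ • u • A.e1))
  have e3 : ∀ x : G × Rs G i, H ν (fun y => (img A i x.2 y, (y⁻¹ • x.1 • A.e0, y⁻¹ • x.1 • A.e1,
      y⁻¹ • x.1 • A.e2))) =
      F ν (insert (x.1 • A.e0) (insert (x.1 • A.e1) (insert (x.1 • A.e2) (cov A i x.2)))) := by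
    intro x
    apply F_eq h
    intro y y'
    simp only [Prod.mk.injEq, Finset.mem_insert, forall_eq_or_imp, img_iff]
    tauto
  have e4 : ∀ x : G × Rs G i, H ν (fun y => (img A i x.2 y, (y⁻¹ • x.1 • A.e0,
      y⁻¹ • x.1 • A.e1))) =
      F ν (insert (x.1 • A.e0) (insert (x.1 • A.e1) (cov A i x.2))) := by
    intro x
    apply F_eq h
    intro y y'
    simp only [Prod.mk.injEq, Finset.mem_insert, forall_eq_or_imp, img_iff]
    tauto
  have e5 : eta A (Mi A ν h i) = (H (pr (unif G) (pR (unif G) i)) (fun x => x) +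
      ∑ x, pr (unif G) (pR (unif G) i) x * H ν (fun y => (img A i x.2 y,
        (y⁻¹ • x.1 • A.e0, y⁻¹ • x.1 • A.e1, y⁻¹ • x.1 • A.e2)))) -
      (H (pr (unif G) (pR (unif G) i)) (fun x => x) +
      ∑ x, pr (unif G) (pR (unif G) i) x * H ν (fun y => (img A i x.2 y,
        (y⁻¹ • x.1 • A.e0, y⁻¹ • x.1 • A.e1)))) := by
    rw [← e1, ← e2]
    rfl
  rw [e5, add_sub_add_left_eq_sub, ← Finset.sum_sub_distrib]
  simp only [e3, e4]
  rw [Fintype.sum_prod_type, Finset.sum_comm]
  refine Finset.sum_congr rfl fun s _ => ?_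
  unfold g2 pr
  rw [Finset.mul_sum]
  refine Finset.sum_congr rfl fun u _ => ?_
  ring

lemma sum_succ (i : ℕ) (f : Rs G i → G → ℝ) :
    ∑ s : Rs G (i + 1), pR (unif G) (i + 1) s * f s.1 s.2 =
      ∑ s : Rs G i, pR (unif G) i s * ∑ u : G, unif G u * f s u := by
  show ∑ s : Rs G i × G, (pR (unif G) i s.1 * unif G s.2) * f s.1 s.2 = _
  rw [Fintype.sum_prod_type]
  refine Finset.sum_congr rfl fun s _ => ?_
  rw [Finset.mul_sum]
  refine Finset.sum_congr rfl fun u _ => ?_
  ring

/-- Averages over the group, normalised. -/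
lemma avg_one' (A : Act G P) (e : P) (φ : P → ℝ) :
    ∑ u : G, unif G u * φ (u • e) = (∑ x, φ x) / (Fintype.card P : ℝ) := by
  have hP : (Fintype.card P : ℝ) ≠ 0 := by
    have : Nonempty P := ⟨e⟩
    exact_mod_cast Fintype.card_ne_zero
  have hG : (Fintype.card G : ℝ) ≠ 0 := by exact_mod_cast Fintype.card_ne_zero
  have h1 := avg_one A e φ
  unfold unif
  rw [← Finset.mul_sum, eq_div_iff hP]
  field_simp
  linarith

lemma unif_sum_const (c : ℝ) : ∑ u : G, unif G u * c = c := by
  rw [← Finset.sum_mul, (unif_law G).total, one_mul]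

lemma unif_nonneg (u : G) : 0 ≤ unif G u := (unif_law G).nonneg u

/-- The mean entropy of the covered points. -/
noncomputable def Phi (A : Act G P) (ν : G → ℝ) (i : ℕ) : ℝ :=
  ∑ s, pR (unif G) i s * F ν (cov A i s)

/-- The increment of a random triple. -/
noncomputable def g3 (A : Act G P) (ν : G → ℝ) (S : Finset P) : ℝ :=
  ∑ u : G, unif G u * (F ν (insert (u • A.e0) (insert (u • A.e1) (insert (u • A.e2) S))) - F ν S)

/-- The increment of a random point. -/
noncomputable def gD (ν : G → ℝ) (S : Finset P) : ℝ :=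
  (∑ x, (F ν (insert x S) - F ν S)) / (Fintype.card P : ℝ)

lemma Phi_zero (A : Act G P) {ν : G → ℝ} (h : IsLaw ν) : Phi A ν 0 = 0 := by
  show ∑ _s : Unit, (1 : ℝ) * F ν (∅ : Finset P) = 0
  simp [F_empty h]

lemma Phi_succ (A : Act G P) (ν : G → ℝ) (i : ℕ) :
    Phi A ν (i + 1) = Phi A ν i + ∑ s, pR (unif G) i s * g3 A ν (cov A i s) := by
  unfold Phi
  have e1 := sum_succ i (fun s (u : G) => F ν (insert (u • A.e0) (insert (u • A.e1)
    (insert (u • A.e2) (cov A i s)))))
  have e2 : ∑ s : Rs G (i + 1), pR (unif G) (i + 1) s * F ν (cov A (i + 1) s) =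
    ∑ s : Rs G (i + 1), pR (unif G) (i + 1) s * F ν (insert (s.2 • A.e0) (insert (s.2 • A.e1)
    (insert (s.2 • A.e2) (cov A i s.1)))) := rfl
  rw [e2, e1, ← Finset.sum_add_distrib]
  refine Finset.sum_congr rfl fun s _ => ?_
  rw [← mul_add]
  congr 1
  unfold g3
  have e3 : ∑ u : G, unif G u * F ν (cov A i s) = F ν (cov A i s) := unif_sum_const _
  simp only [mul_sub]
  rw [Finset.sum_sub_distrib, e3]
  ring

lemma g2_nonneg (A : Act G P) {ν : G → ℝ} (h : IsLaw ν) (S : Finset P) : 0 ≤ g2 A ν S := by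
  unfold g2
  refine Finset.sum_nonneg fun u _ => mul_nonneg (unif_nonneg u) ?_
  have := F_mono h (S := insert (u • A.e0) (insert (u • A.e1) S))
    (T := insert (u • A.e0) (insert (u • A.e1) (insert (u • A.e2) S)))
    (Finset.insert_subset_insert _ (Finset.insert_subset_insert _ (Finset.subset_insert _ _)))
  linarith

lemma g3_le (A : Act G P) {ν : G → ℝ} (h : IsLaw ν) (S : Finset P) :
    g3 A ν S ≤ 3 * gD ν S := by
  have h1 : ∀ u : G, unif G u * (F ν (insert (u • A.e0) (insert (u • A.e1)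
      (insert (u • A.e2) S))) - F ν S) ≤ unif G u * (F ν (insert (u • A.e0) S) - F ν S) +
      unif G u * (F ν (insert (u • A.e1) S) - F ν S) +
      unif G u * (F ν (insert (u • A.e2) S) - F ν S) := by
    intro u
    rw [← mul_add, ← mul_add]
    refine mul_le_mul_of_nonneg_left ?_ (unif_nonneg u)
    have h2 := F_dim h (Finset.subset_insert (u • A.e2) S) (u • A.e1)
    have h3 := F_dim h (S := S) (T := insert (u • A.e1) (insert (u • A.e2) S))
      ((Finset.subset_insert _ _).trans (Finset.subset_insert _ _)) (u • A.e0)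
    linarith
  unfold g3
  refine (Finset.sum_le_sum fun u _ => h1 u).trans (le_of_eq ?_)
  rw [Finset.sum_add_distrib, Finset.sum_add_distrib,
    avg_one' A A.e0 (fun x => F ν (insert x S) - F ν S),
    avg_one' A A.e1 (fun x => F ν (insert x S) - F ν S),
    avg_one' A A.e2 (fun x => F ν (insert x S) - F ν S)]
  unfold gD
  ring

lemma gD_anti {ν : G → ℝ} (h : IsLaw ν) {S T : Finset P} (hST : S ⊆ T) :
    gD ν T ≤ gD ν S := by
  unfold gD
  refine div_le_div_of_nonneg_right (Finset.sum_le_sum fun x _ => ?_) (Nat.cast_nonneg _)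
  have := F_dim h hST x
  linarith

lemma avg_gD (A : Act G P) {ν : G → ℝ} (h : IsLaw ν) (S : Finset P) :
    ∑ u : G, unif G u * gD ν (insert (u • A.e0) (insert (u • A.e1) S)) ≤ g2 A ν S := by
  have hP : (0 : ℝ) < (Fintype.card P : ℝ) := by
    have : Nonempty P := ⟨A.e0⟩
    exact_mod_cast Fintype.card_pos
  have hG : (0 : ℝ) < (Fintype.card G : ℝ) := by exact_mod_cast Fintype.card_pos
  have h1 := avg_three A (fun a b x => F ν (insert a (insert b (insert x S))) -
    F ν (insert a (insert b S))) (by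
      intro a b c
      have := F_mono h (S := insert a (insert b S)) (T := insert a (insert b (insert c S)))
        (Finset.insert_subset_insert _ (Finset.insert_subset_insert _ (Finset.subset_insert _ _)))
      linarith) (by
      intro a b
      have : insert a (insert b (insert a S)) = insert a (insert b S) := by
        ext z
        simp only [Finset.mem_insert]
        tauto
      rw [this, sub_self]) (by
      intro a b
      have : insert a (insert b (insert b S)) = insert a (insert b S) := by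
        ext z
        simp only [Finset.mem_insert]
        tauto
      rw [this, sub_self])
  have h2 : ∀ u : G, unif G u * gD ν (insert (u • A.e0) (insert (u • A.e1) S)) =
      1 / (Fintype.card G : ℝ) * (1 / (Fintype.card P : ℝ)) * ∑ x, (F ν (insert (u • A.e0)
        (insert (u • A.e1) (insert x S))) - F ν (insert (u • A.e0) (insert (u • A.e1) S))) := by
    intro u
    unfold unif gD
    have : ∀ x, insert x (insert (u • A.e0) (insert (u • A.e1) S)) =
        insert (u • A.e0) (insert (u • A.e1) (insert x S)) := by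
      intro x
      ext z
      simp only [Finset.mem_insert]
      tauto
    simp only [this]
    ring
  rw [Finset.sum_congr rfl fun u _ => h2 u, ← Finset.mul_sum]
  unfold g2 unif
  rw [← Finset.mul_sum, mul_assoc]
  refine mul_le_mul_of_nonneg_left ?_ (by positivity)
  rw [one_div, inv_mul_le_iff₀ hP]
  exact h1

/-- The increment is at most three times the previous `eta`. -/
lemma step (A : Act G P) {ν : G → ℝ} (h : IsLaw ν) (i : ℕ) :
    ∑ s, pR (unif G) (i + 1) s * g3 A ν (cov A (i + 1) s) ≤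
      3 * ∑ s, pR (unif G) i s * g2 A ν (cov A i s) := by
  have e1 := sum_succ i (fun s (u : G) => g3 A ν (insert (u • A.e0) (insert (u • A.e1)
    (insert (u • A.e2) (cov A i s)))))
  have e2 : ∑ s : Rs G (i + 1), pR (unif G) (i + 1) s * g3 A ν (cov A (i + 1) s) =
    ∑ s : Rs G (i + 1), pR (unif G) (i + 1) s * g3 A ν (insert (s.2 • A.e0) (insert (s.2 • A.e1)
    (insert (s.2 • A.e2) (cov A i s.1)))) := rfl
  rw [e2, e1, Finset.mul_sum]
  refine Finset.sum_le_sum fun s _ => ?_
  have h0 := (pR_law (unif_law G) i).nonneg s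
  have h1 : ∑ u : G, unif G u * g3 A ν (insert (u • A.e0) (insert (u • A.e1)
      (insert (u • A.e2) (cov A i s)))) ≤ 3 * g2 A ν (cov A i s) := by
    refine le_trans ?_ (mul_le_mul_of_nonneg_left (avg_gD A h (cov A i s)) (by norm_num))
    rw [Finset.mul_sum]
    refine Finset.sum_le_sum fun u _ => ?_
    have h2 := g3_le A h (insert (u • A.e0) (insert (u • A.e1) (insert (u • A.e2) (cov A i s))))
    have h3 := gD_anti h (S := insert (u • A.e0) (insert (u • A.e1) (cov A i s)))
      (T := insert (u • A.e0) (insert (u • A.e1) (insert (u • A.e2) (cov A i s))))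
      (Finset.insert_subset_insert _ (Finset.insert_subset_insert _ (Finset.subset_insert _ _)))
    have h4 := mul_le_mul_of_nonneg_left (h2.trans (mul_le_mul_of_nonneg_left h3
      (by norm_num : (0 : ℝ) ≤ 3))) (unif_nonneg u)
    linarith
  have h2 := mul_le_mul_of_nonneg_left h1 h0
  linarith

lemma base0 (A : Act G P) {ν : G → ℝ} (h : IsLaw ν) :
    g3 A ν ∅ ≤ 2 * Real.log (Fintype.card P) + g2 A ν ∅ := by
  unfold g3 g2
  rw [← unif_sum_const (G := G) (2 * Real.log (Fintype.card P)), ← Finset.sum_add_distrib]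
  refine Finset.sum_le_sum fun u _ => ?_
  rw [← mul_add]
  refine mul_le_mul_of_nonneg_left ?_ (unif_nonneg u)
  have h1 := F_single h (u • A.e0)
  have h2 := F_single h (u • A.e1)
  have h3 := F_dim h (Finset.empty_subset (insert (u • A.e1) (∅ : Finset P))) (u • A.e0)
  rw [F_empty h] at h3 ⊢
  linarith

lemma main_le (A : Act G P) {ν : G → ℝ} (h : IsLaw ν) : ∀ N : ℕ,
    Phi A ν (N + 1) ≤ 2 * Real.log (Fintype.card P) + eta A (Mi A ν h 0) +
      3 * ∑ i ∈ Finset.range N, eta A (Mi A ν h i)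
  | 0 => by
    rw [Phi_succ, Phi_zero A h, eta_eq]
    have e1 : ∑ s : Rs G 0, pR (unif G) 0 s * g3 A ν (cov A 0 s) = g3 A ν ∅ := by
      show ∑ _s : Unit, (1 : ℝ) * g3 A ν ∅ = _
      simp
    have e2 : ∑ s : Rs G 0, pR (unif G) 0 s * g2 A ν (cov A 0 s) = g2 A ν ∅ := by
      show ∑ _s : Unit, (1 : ℝ) * g2 A ν ∅ = _
      simp
    rw [e1, e2]
    have := base0 A h
    simp only [Finset.range_zero, Finset.sum_empty]
    linarith
  | (N + 1) => by
    have ih := main_le A h N
    have h1 := step A h N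
    rw [← eta_eq A h N] at h1
    rw [Phi_succ, Finset.sum_range_succ]
    linarith

lemma eta_nonneg (A : Act G P) {ν : G → ℝ} (h : IsLaw ν) (i : ℕ) : 0 ≤ eta A (Mi A ν h i) := by
  rw [eta_eq]
  exact Finset.sum_nonneg fun s _ => mul_nonneg ((pR_law (unif_law G) i).nonneg s)
    (g2_nonneg A h _)

lemma hit (A : Act G P) (x : P) :
    ∑ u : G, unif G u * (if x = u • A.e0 ∨ x = u • A.e1 ∨ x = u • A.e2 then (0 : ℝ) else 1) =
      1 - 3 / (Fintype.card P : ℝ) := by
  have h1 : ∀ e : P, ∑ u : G, unif G u * (if x = u • e then (1 : ℝ) else 0) =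
      1 / (Fintype.card P : ℝ) := by
    intro e
    rw [avg_one' A e (fun z => if x = z then (1 : ℝ) else 0)]
    congr 1
    simp
  have h2 : ∀ u : G, unif G u * (if x = u • A.e0 ∨ x = u • A.e1 ∨ x = u • A.e2 then (0 : ℝ)
      else 1) = unif G u * 1 - unif G u * (if x = u • A.e0 then (1 : ℝ) else 0) -
      unif G u * (if x = u • A.e1 then (1 : ℝ) else 0) -
      unif G u * (if x = u • A.e2 then (1 : ℝ) else 0) := by
    intro u
    rw [← mul_sub, ← mul_sub, ← mul_sub]
    congr 1
    have a1 : u • A.e0 ≠ u • A.e1 := fun hh => A.h01 (MulAction.injective u hh)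
    have a2 : u • A.e0 ≠ u • A.e2 := fun hh => A.h02 (MulAction.injective u hh)
    have a3 : u • A.e1 ≠ u • A.e2 := fun hh => A.h12 (MulAction.injective u hh)
    by_cases b0 : x = u • A.e0
    · have b1 : x ≠ u • A.e1 := by rw [b0]; exact a1
      have b2 : x ≠ u • A.e2 := by rw [b0]; exact a2
      rw [if_pos (Or.inl b0), if_pos b0, if_neg b1, if_neg b2]
      ring
    by_cases b1 : x = u • A.e1
    · have b2 : x ≠ u • A.e2 := by rw [b1]; exact a3
      rw [if_pos (Or.inr (Or.inl b1)), if_neg b0, if_pos b1, if_neg b2]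
      ring
    by_cases b2 : x = u • A.e2
    · rw [if_pos (Or.inr (Or.inr b2)), if_neg b0, if_neg b1, if_pos b2]
      ring
    · rw [if_neg (by tauto), if_neg b0, if_neg b1, if_neg b2]
      ring
  rw [Finset.sum_congr rfl fun u _ => h2 u, Finset.sum_sub_distrib, Finset.sum_sub_distrib,
    Finset.sum_sub_distrib, h1, h1, h1, unif_sum_const]
  ring

lemma miss (A : Act G P) (x : P) : ∀ i : ℕ,
    ∑ s, pR (unif G) i s * (if x ∈ cov A i s then (0 : ℝ) else 1) =
      (1 - 3 / (Fintype.card P : ℝ)) ^ i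
  | 0 => by
    show ∑ _s : Unit, (1 : ℝ) * (if x ∈ (∅ : Finset P) then (0 : ℝ) else 1) = _
    simp
  | (i + 1) => by
    have ih := miss A x i
    have e1 := sum_succ i (fun s (u : G) => if x ∈ (insert (u • A.e0) (insert (u • A.e1)
      (insert (u • A.e2) (cov A i s)))) then (0 : ℝ) else 1)
    have e2 : ∑ s : Rs G (i + 1), pR (unif G) (i + 1) s *
        (if x ∈ cov A (i + 1) s then (0 : ℝ) else 1) =
      ∑ s : Rs G (i + 1), pR (unif G) (i + 1) s * (if x ∈ (insert (s.2 • A.e0)
        (insert (s.2 • A.e1) (insert (s.2 • A.e2) (cov A i s.1)))) then (0 : ℝ) else 1) := rfl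
    rw [e2, e1, pow_succ, ← ih, Finset.sum_mul]
    refine Finset.sum_congr rfl fun s _ => ?_
    rw [mul_assoc]
    congr 1
    rw [← hit A x, Finset.mul_sum]
    refine Finset.sum_congr rfl fun u _ => ?_
    by_cases b1 : x ∈ cov A i s
    · simp [b1]
    · by_cases b2 : x = u • A.e0 ∨ x = u • A.e1 ∨ x = u • A.e2
      · rw [if_pos b2, if_pos (by simp only [Finset.mem_insert]; tauto)]
        ring
      · rw [if_neg b2, if_neg (by simp only [Finset.mem_insert]; tauto), if_neg b1]
        ring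

lemma exp_bd (n : ℕ) (hn : 6 ≤ n) : (1 - 3 / (n : ℝ)) ^ n ≤ 1 / 20 := by
  have hn' : (0 : ℝ) < n := by exact_mod_cast (by omega : 0 < n)
  have h6 : (6 : ℝ) ≤ n := by exact_mod_cast hn
  have h1 : 1 - 3 / (n : ℝ) ≤ Real.exp (-(3 / (n : ℝ))) := by
    have := Real.add_one_le_exp (-(3 / (n : ℝ)))
    linarith
  have h0 : 0 ≤ 1 - 3 / (n : ℝ) := by
    rw [sub_nonneg, div_le_one hn']
    linarith
  have h2 := pow_le_pow_left₀ h0 h1 n
  rw [← Real.exp_nat_mul] at h2
  have h3 : (n : ℝ) * -(3 / (n : ℝ)) = -3 := by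
    field_simp
  rw [h3] at h2
  refine h2.trans ?_
  rw [Real.exp_neg, one_div]
  refine inv_anti₀ (by norm_num) ?_
  have h4 := Real.exp_one_gt_d9
  have h5 : Real.exp 3 = Real.exp 1 ^ 3 := by
    rw [← Real.exp_nat_mul]
    norm_num
  rw [h5]
  have h7 : (2.7182818283 : ℝ) ^ 3 ≤ Real.exp 1 ^ 3 := pow_le_pow_left₀ (by norm_num) h4.le 3
  refine le_trans ?_ h7
  norm_num

lemma lower [FaithfulSMul G P] (A : Act G P) {ν : G → ℝ} (h : IsLaw ν)
    (hP : 6 ≤ Fintype.card P) :
    (19 / 20 : ℝ) * H ν (fun x => x) ≤ Phi A ν (Fintype.card P) := by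
  obtain ⟨w, hw0, hw1, hw2⟩ := greedy h (univ : Finset P)
  rw [F_univ (P := P) h, ← hw1]
  set n := Fintype.card P with hn
  have h1 : ∀ s : Rs G n, pR (unif G) n s * ∑ x, w x * (1 - (if x ∈ cov A n s then (0 : ℝ) else 1))
      ≤ pR (unif G) n s * F ν (cov A n s) := by
    intro s
    refine mul_le_mul_of_nonneg_left ?_ ((pR_law (unif_law G) n).nonneg s)
    refine le_trans (le_of_eq ?_) (hw2 _ (Finset.subset_univ (cov A n s)))
    rw [← Finset.sum_subset (Finset.subset_univ (cov A n s))]
    · refine Finset.sum_congr rfl fun x hx => ?_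
      rw [if_pos hx]
      ring
    · intro x _ hx
      rw [if_neg hx]
      ring
  unfold Phi
  refine le_trans ?_ (Finset.sum_le_sum fun s _ => h1 s)
  have h2 : ∑ s : Rs G n, pR (unif G) n s *
      ∑ x, w x * (1 - (if x ∈ cov A n s then (0 : ℝ) else 1)) =
      ∑ x, w x * (1 - (1 - 3 / (n : ℝ)) ^ n) := by
    simp only [Finset.mul_sum]
    rw [Finset.sum_comm]
    refine Finset.sum_congr rfl fun x _ => ?_
    rw [hn, ← miss A x, ← hn]
    have h3 : ∑ s : Rs G n, pR (unif G) n s = 1 := (pR_law (unif_law G) n).total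
    have h6 : ∀ s : Rs G n, pR (unif G) n s * (w x * (1 - (if x ∈ cov A n s then (0 : ℝ) else 1)))
        = w x * pR (unif G) n s - w x * (pR (unif G) n s *
          (if x ∈ cov A n s then (0 : ℝ) else 1)) := fun s => by ring
    rw [Finset.sum_congr rfl fun s _ => h6 s, Finset.sum_sub_distrib, ← Finset.mul_sum, h3,
      ← Finset.mul_sum]
    ring
  rw [h2, Finset.mul_sum]
  refine Finset.sum_le_sum fun x _ => ?_
  have h4 := exp_bd n hP
  have h5 := mul_le_mul_of_nonneg_left (show (19 / 20 : ℝ) ≤ 1 - (1 - 3 / (n : ℝ)) ^ n by linarith)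
    (hw0 x)
  linarith

end Main

end Pool.Agent.TH408.GR.ETA

namespace Pool.Agent.TH408.GR

open Pool.Agent.W904.AK

theorem tETA : S_ETA := by
  intro G P _ _ _ _ _ A ν h hP
  have h1 := ETA.lower A h hP
  obtain ⟨N, hN⟩ : ∃ N, Fintype.card P = N + 1 := ⟨Fintype.card P - 1, by omega⟩
  have h2 := ETA.main_le A h N
  rw [← hN] at h2
  have h3 : ∑ i ∈ Finset.range (Fintype.card P), eta A (Mi A ν h i) =
      ∑ i ∈ Finset.range N, eta A (Mi A ν h i) + eta A (Mi A ν h N) := by
    rw [hN, Finset.sum_range_succ]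
  have h4 : eta A (Mi A ν h 0) ≤ ∑ i ∈ Finset.range (Fintype.card P), eta A (Mi A ν h i) :=
    Finset.single_le_sum (f := fun i => eta A (Mi A ν h i)) (fun i _ => ETA.eta_nonneg A h i)
      (Finset.mem_range.2 (by omega))
  have h5 := ETA.eta_nonneg A h N
  linarith

end Pool.Agent.TH408.GR
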