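import Pool.Agent.TH408.GR.Stm

/-!
# Sum of informations and public information
-/

set_option autoImplicit false
set_option linter.unusedSectionVars false

open Finset
open scoped Classical

namespace Pool.Agent.TH408.GR.JAY

open Pool.Agent.W904.AK Pool.Agent.TH408.GR

section Gen

variable {Ω1 Ω2 Ω3 Ω4 : Type*} [Fintype Ω1] [Fintype Ω2] [Fintype Ω3] [Fintype Ω4] {α β : Type*}
  {a : Ω1 → ℝ} {b : Ω2 → ℝ} {c : Ω3 → ℝ} {d : Ω4 → ℝ}

lemma H_13 (hb : IsLaw b) (f : Ω1 × Ω3 → α) :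
    H (pr (pr a b) c) (fun z => f (z.1.1, z.2)) = H (pr a c) f := by
  have h1 : H (pr (pr a b) c) (fun z => f (z.1.1, z.2)) = H (pr (pr a c) b) (fun z => f z.1) :=
    H_equiv (p := pr (pr a b) c) (q := pr (pr a c) b)
      ⟨fun z => ((z.1.1, z.2), z.1.2), fun z => ((z.1.1, z.2), z.1.2), fun _ => rfl, fun _ => rfl⟩
      (fun x => by
        simp only [pr, Equiv.coe_fn_mk]
        ring) (fun z => f z.1)
  rw [h1, H_fst hb]

/-- On `((g,u),(X,ω))`: the entropy of `(g, F (u,ω))`. -/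
lemma H_g (ha : IsLaw a) (hb : IsLaw b) (hc : IsLaw c) (hd : IsLaw d) (F : Ω2 × Ω4 → α) :
    H (pr (pr a b) (pr c d)) (fun z => (z.1.1, F (z.1.2, z.2.2))) =
      H a (fun x => x) + H (pr b d) F := by
  have h1 : H (pr (pr a b) (pr c d)) (fun z => (z.1.1, F (z.1.2, z.2.2))) =
      H (pr a (pr (pr b d) c)) (fun z => (z.1, F z.2.1)) :=
    H_equiv (p := pr (pr a b) (pr c d)) (q := pr a (pr (pr b d) c))
      ⟨fun z => (z.1.1, ((z.1.2, z.2.2), z.2.1)), fun z => ((z.1, z.2.1.1), (z.2.2, z.2.1.2)),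
        fun _ => rfl, fun _ => rfl⟩
      (fun x => by
        simp only [pr, Equiv.coe_fn_mk]
        ring) (fun z => (z.1, F z.2.1))
  rw [h1, H_ind ha (pr_law (pr_law hb hd) hc) (fun x => x) (fun z => F z.1), H_fst hc]

end Gen

variable {G P : Type} [Group G] [Fintype G] [Fintype P] [MulAction G P]

/-- The conditional entropy `H(X g y | g, θ)`. -/
noncomputable def phi (μ : G → ℝ) (Y : Model G) : ℝ :=
  H (pr (unif G) (pr μ Y.p)) (fun z => (z.1, (Y.θ z.2.2, z.2.1 * z.1 * Y.y z.2.2))) -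
    H (pr (unif G) (pr μ Y.p)) (fun z => (z.1, Y.θ z.2.2))

lemma eff_eq (μ : G → ℝ) (Y : Model G) : eff μ Y = phi μ Y - H μ (fun x => x) := rfl

lemma phi_ge {μ : G → ℝ} (hμ : IsLaw μ) (Y : Model G) : H μ (fun x => x) ≤ phi μ Y := by
  have hL : IsLaw (pr (unif G) (pr μ Y.p)) := pr_law (unif_law G) (pr_law hμ Y.law)
  have h1 : H (pr (unif G) (pr μ Y.p)) (fun z => (z.1, z.2)) +
      H (pr (unif G) (pr μ Y.p)) (fun z => (z.1, Y.θ z.2.2)) ≤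
      H (pr (unif G) (pr μ Y.p)) (fun z => (z.1, z.2.2)) +
      H (pr (unif G) (pr μ Y.p)) (fun z => (z.1, (Y.θ z.2.2, z.2.1 * z.1 * Y.y z.2.2))) := by
    apply submod' hL
    · intro x y hx hy h
      simp only [Prod.mk.injEq] at h ⊢
      exact ⟨h.1, by rw [h.2]⟩
    · intro x y hx hy h
      simp only [Prod.mk.injEq] at h ⊢
      exact ⟨h.1, h.2.1⟩
    · rintro ⟨g, X, ω⟩ ⟨g', X', ω'⟩ hx hy h
      simp only [Prod.mk.injEq] at h ⊢
      obtain ⟨⟨h1, h2⟩, -, -, h3⟩ := h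
      subst h1 h2
      exact ⟨rfl, mul_right_cancel (mul_right_cancel h3), rfl⟩
  have h2 : H (pr (unif G) (pr μ Y.p)) (fun z => (z.1, z.2)) = H (unif G) (fun x => x) +
      (H μ (fun x => x) + H Y.p (fun x => x)) := by
    rw [H_ind (unif_law G) (pr_law hμ Y.law) (fun x => x) (fun x => x),
      ← H_ind hμ Y.law (fun x => x) (fun x => x)]
  have h3 : H (pr (unif G) (pr μ Y.p)) (fun z => (z.1, z.2.2)) = H (unif G) (fun x => x) +
      H Y.p (fun x => x) := by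
    rw [H_ind (unif_law G) (pr_law hμ Y.law) (fun x => x) (fun x => x.2), H_snd hμ (fun x => x)]
  rw [h2, h3] at h1
  unfold phi
  linarith

lemma phi_le (A : Act G P) {μ ν : G → ℝ} (hμ : IsLaw μ) (h : IsLaw ν) (i : ℕ) :
    phi μ (Mi A ν h i) ≤ phi μ (Model.pure ν h) := by
  set Y := Mi A ν h i with hY
  have hL : IsLaw (pr (unif G) (pr μ Y.p)) := pr_law (unif_law G) (pr_law hμ Y.law)
  have h1 : H (pr (unif G) (pr μ Y.p)) (fun z => (z.1, (Y.θ z.2.2, z.2.1 * z.1 * Y.y z.2.2))) +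
      H (pr (unif G) (pr μ Y.p)) (fun z => z.1) ≤
      H (pr (unif G) (pr μ Y.p)) (fun z => (z.1, Y.θ z.2.2)) +
      H (pr (unif G) (pr μ Y.p)) (fun z => (z.1, z.2.1 * z.1 * Y.y z.2.2)) := by
    apply submod' hL
    · exact Det.fst _ _ _
    · exact Det.fst _ _ _
    · intro x y hx hy h
      simp only [Prod.mk.injEq] at h ⊢
      exact ⟨h.1.1, h.1.2, h.2.2⟩
  have h2 : H (pr (unif G) (pr μ Y.p)) (fun z => (z.1, z.2.1 * z.1 * Y.y z.2.2)) =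
      H (pr (unif G) (pr μ ν)) (fun z => (z.1, z.2.1 * z.1 * z.2.2)) := by
    have e1 := H_equiv (Ω := G × (G × (Mi A ν h i).Ω)) (Ω' := (G × (G × G)) × Rs G i)
      (p := pr (unif G) (pr μ (Mi A ν h i).p)) (q := pr (pr (unif G) (pr μ ν)) (pR (unif G) i))
      ⟨fun z => ((z.1, (z.2.1, (z.2.2 : Rs G i × G).2)), (z.2.2 : Rs G i × G).1),
        fun z => (z.1.1, (z.1.2.1, ((z.2, z.1.2.2) : Rs G i × G))), fun _ => rfl, fun _ => rfl⟩
      (fun x => show unif G x.1 * (μ x.2.1 * ν (x.2.2 : Rs G i × G).2) *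
          pR (unif G) i (x.2.2 : Rs G i × G).1 = unif G x.1 * (μ x.2.1 *
            (pR (unif G) i (x.2.2 : Rs G i × G).1 * ν (x.2.2 : Rs G i × G).2)) by ring)
      (fun z => (z.1.1, z.1.2.1 * z.1.1 * z.1.2.2))
    rw [H_fst (pR_law (unif_law G) i) (fun z : G × (G × G) => (z.1, z.2.1 * z.1 * z.2.2))] at e1
    exact e1
  have hL' : IsLaw (pr (unif G) (pr μ ν)) := pr_law (unif_law G) (pr_law hμ h)
  have h3 : H (pr (unif G) (pr μ Y.p)) (fun z => z.1) = H (unif G) (fun x => x) :=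
    H_fst (pr_law hμ Y.law) (fun x => x)
  have h4 : phi μ (Model.pure ν h) = H (pr (unif G) (pr μ ν)) (fun z => (z.1, z.2.1 * z.1 * z.2.2)) -
      H (unif G) (fun x => x) := by
    have e2 : H (pr (unif G) (pr μ ν)) (fun z => (z.1, ((), z.2.1 * z.1 * z.2.2))) =
        H (pr (unif G) (pr μ ν)) (fun z => (z.1, z.2.1 * z.1 * z.2.2)) := by
      apply H_congr hL'
      · intro x y hx hy h
        simp only [Prod.mk.injEq, true_and] at h ⊢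
        exact h
      · intro x y hx hy h
        simp only [Prod.mk.injEq, true_and] at h ⊢
        exact h
    have e3 : H (pr (unif G) (pr μ ν)) (fun z => (z.1, ())) = H (unif G) (fun x => x) := by
      rw [← H_fst (pr_law hμ h) (fun x => x)]
      apply H_congr hL'
      · intro x y hx hy h
        simp only [Prod.mk.injEq, and_true] at h ⊢
        exact h
      · intro x y hx hy h
        simp only [Prod.mk.injEq, and_true] at h ⊢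
        exact h
    rw [← e2, ← e3]
    rfl
  rw [h2, h3] at h1
  rw [h4]
  unfold phi
  linarith

lemma img_key (A : Act G P) (i : ℕ) (s s' : Rs G i) (u u' y y' : G) :
    ((((s, u), (y⁻¹ • u • A.e0, y⁻¹ • u • A.e1, y⁻¹ • u • A.e2) :: img A i s y) :
      (Rs G i × G) × List (P × P × P)) = ((s', u'), (y'⁻¹ • u' • A.e0, y'⁻¹ • u' • A.e1,
        y'⁻¹ • u' • A.e2) :: img A i s' y')) ↔ (u = u' ∧ (((s, img A i s y) :
      Rs G i × List (P × P × P)) = (s', img A i s' y')) ∧ y⁻¹ • u • A.e0 = y'⁻¹ • u' • A.e0 ∧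
      y⁻¹ • u • A.e1 = y'⁻¹ • u' • A.e1 ∧ y⁻¹ • u • A.e2 = y'⁻¹ • u' • A.e2) := by
  simp only [Prod.mk.injEq, List.cons.injEq]
  tauto

lemma jay_le (A : Act G P) {μ ν : G → ℝ} (hμ : IsLaw μ) (h : IsLaw ν) (i : ℕ) :
    jay A μ (Mi A ν h i) ≤ phi μ (Mi A ν h i) - phi μ (Mi A ν h (i + 1)) := by
  set Y := Mi A ν h i with hY
  have hL : IsLaw (p4 μ Y) := pr_law (pr_law (unif_law G) (unif_law G)) (pr_law hμ Y.law)
  -- entropies on the space of `((g,u),(X,ω))`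
  have a1 : H (pr (unif G) (pr μ Y.p)) (fun z => (z.1, (Y.θ z.2.2, z.2.1 * z.1 * Y.y z.2.2))) =
      H (p4 μ Y) (fun z => (z.1.1, (Y.θ z.2.2, z.2.1 * z.1.1 * Y.y z.2.2))) :=
    (H_13 (unif_law G)
      (fun z : G × (G × Y.Ω) => (z.1, (Y.θ z.2.2, z.2.1 * z.1 * Y.y z.2.2)))).symm
  have a2 : H (pr (unif G) (pr μ Y.p)) (fun z => (z.1, Y.θ z.2.2)) =
      H (p4 μ Y) (fun z => (z.1.1, Y.θ z.2.2)) :=
    (H_13 (unif_law G) (fun z : G × (G × Y.Ω) => (z.1, Y.θ z.2.2))).symm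
  have a0 : ∀ {α : Type} (f : G × (G × (Mi A ν h (i + 1)).Ω) → α),
      H (pr (unif G) (pr μ (Mi A ν h (i + 1)).p)) f = H (p4 μ Y) (fun z => f (z.1.1, (z.2.1,
        ((((z.2.2 : Rs G i × G).1, z.1.2), (z.2.2 : Rs G i × G).2) : (Rs G i × G) × G)))) := by
    intro α f
    exact (H_equiv (Ω := (G × G) × (G × Y.Ω)) (Ω' := G × (G × (Mi A ν h (i + 1)).Ω))
      (p := p4 μ Y) (q := pr (unif G) (pr μ (Mi A ν h (i + 1)).p))
      ⟨fun z => (z.1.1, (z.2.1, ((((z.2.2 : Rs G i × G).1, z.1.2), (z.2.2 : Rs G i × G).2) :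
          (Rs G i × G) × G))),
        fun z => ((z.1, (z.2.2 : (Rs G i × G) × G).1.2), (z.2.1,
          (((z.2.2 : (Rs G i × G) × G).1.1, (z.2.2 : (Rs G i × G) × G).2) : Rs G i × G))),
        fun _ => rfl, fun _ => rfl⟩
      (fun x => show unif G x.1.1 * (μ x.2.1 * ((pR (unif G) i (x.2.2 : Rs G i × G).1 *
          unif G x.1.2) * ν (x.2.2 : Rs G i × G).2)) = (unif G x.1.1 * unif G x.1.2) * (μ x.2.1 *
            (pR (unif G) i (x.2.2 : Rs G i × G).1 * ν (x.2.2 : Rs G i × G).2)) by ring) f).symm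
  have a3 : H (pr (unif G) (pr μ (Mi A ν h (i + 1)).p)) (fun z => (z.1,
      ((Mi A ν h (i + 1)).θ z.2.2, z.2.1 * z.1 * (Mi A ν h (i + 1)).y z.2.2))) =
      H (p4 μ Y) (fun z => (z.1, (Y.θ z.2.2, (Y.y z.2.2)⁻¹ • z.1.2 • A.e0,
        (Y.y z.2.2)⁻¹ • z.1.2 • A.e1, z.2.1 * z.1.1 * Y.y z.2.2,
        (Y.y z.2.2)⁻¹ • z.1.2 • A.e2))) := by
    rw [a0]
    apply H_congr hL
    · rintro ⟨⟨g, u⟩, X, s, y⟩ ⟨⟨g', u'⟩, X', s', y'⟩ hx hy h
      simp only [Prod.mk.injEq] at h ⊢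
      obtain ⟨h1, h2, h3⟩ := h
      obtain ⟨k1, k2, k3, k4, k5⟩ := (img_key A i s s' u u' y y').1 h2
      exact ⟨⟨h1, k1⟩, k2, k3, k4, h3, k5⟩
    · rintro ⟨⟨g, u⟩, X, s, y⟩ ⟨⟨g', u'⟩, X', s', y'⟩ hx hy h
      simp only [Prod.mk.injEq] at h ⊢
      obtain ⟨⟨h1, k1⟩, k2, k3, k4, h3, k5⟩ := h
      exact ⟨h1, (img_key A i s s' u u' y y').2 ⟨k1, k2, k3, k4, k5⟩, h3⟩
  have a4 : H (pr (unif G) (pr μ (Mi A ν h (i + 1)).p)) (fun z => (z.1,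
      (Mi A ν h (i + 1)).θ z.2.2)) =
      H (p4 μ Y) (fun z => (z.1, (Y.θ z.2.2, (Y.y z.2.2)⁻¹ • z.1.2 • A.e0,
        (Y.y z.2.2)⁻¹ • z.1.2 • A.e1, (Y.y z.2.2)⁻¹ • z.1.2 • A.e2))) := by
    rw [a0]
    apply H_congr hL
    · rintro ⟨⟨g, u⟩, X, s, y⟩ ⟨⟨g', u'⟩, X', s', y'⟩ hx hy h
      simp only [Prod.mk.injEq] at h ⊢
      obtain ⟨h1, h2⟩ := h
      obtain ⟨k1, k2, k3, k4, k5⟩ := (img_key A i s s' u u' y y').1 h2
      exact ⟨⟨h1, k1⟩, k2, k3, k4, k5⟩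
    · rintro ⟨⟨g, u⟩, X, s, y⟩ ⟨⟨g', u'⟩, X', s', y'⟩ hx hy h
      simp only [Prod.mk.injEq] at h ⊢
      obtain ⟨⟨h1, k1⟩, k2, k3, k4, k5⟩ := h
      exact ⟨h1, (img_key A i s s' u u' y y').2 ⟨k1, k2, k3, k4, k5⟩⟩
  have a7 : ∀ {α : Type} (F : G × Y.Ω → α), H (p4 μ Y) (fun z => (z.1, F (z.1.2, z.2.2))) =
      H (unif G) (fun x => x) + H (pr (unif G) Y.p) (fun z => (z.1, F z)) := by
    intro α F
    rw [← H_g (unif_law G) (unif_law G) hμ Y.law (fun z => (z.1, F z))]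
    apply H_congr hL
    · rintro ⟨⟨g, u⟩, X, ω⟩ ⟨⟨g', u'⟩, X', ω'⟩ hx hy h
      simp only [Prod.mk.injEq] at h ⊢
      tauto
    · rintro ⟨⟨g, u⟩, X, ω⟩ ⟨⟨g', u'⟩, X', ω'⟩ hx hy h
      simp only [Prod.mk.injEq] at h ⊢
      tauto
  have a5 : eta A Y = H (p4 μ Y) (fun z => (z.1, (Y.θ z.2.2, (Y.y z.2.2)⁻¹ • z.1.2 • A.e0,
        (Y.y z.2.2)⁻¹ • z.1.2 • A.e1, (Y.y z.2.2)⁻¹ • z.1.2 • A.e2))) -
      H (p4 μ Y) (fun z => (z.1, (Y.θ z.2.2, (Y.y z.2.2)⁻¹ • z.1.2 • A.e0,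
        (Y.y z.2.2)⁻¹ • z.1.2 • A.e1))) := by
    have b1 := a7 (fun z => (Y.θ z.2, (Y.y z.2)⁻¹ • z.1 • A.e0,
        (Y.y z.2)⁻¹ • z.1 • A.e1, (Y.y z.2)⁻¹ • z.1 • A.e2))
    have b2 := a7 (fun z => (Y.θ z.2, (Y.y z.2)⁻¹ • z.1 • A.e0,
        (Y.y z.2)⁻¹ • z.1 • A.e1))
    rw [b1, b2]
    unfold eta
    ring
  have a6 : H (p4 μ Y) (fun z => (z.1, (Y.θ z.2.2, (Y.y z.2.2)⁻¹ • z.1.2 • A.e0,
        (Y.y z.2.2)⁻¹ • z.1.2 • A.e1, z.2.1 * z.1.1 * Y.y z.2.2))) +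
      H (p4 μ Y) (fun z => (z.1.1, Y.θ z.2.2)) ≤
      H (p4 μ Y) (fun z => (z.1, (Y.θ z.2.2, (Y.y z.2.2)⁻¹ • z.1.2 • A.e0,
        (Y.y z.2.2)⁻¹ • z.1.2 • A.e1))) +
      H (p4 μ Y) (fun z => (z.1.1, (Y.θ z.2.2, z.2.1 * z.1.1 * Y.y z.2.2))) := by
    apply submod' hL
    · intro x y hx hy h
      simp only [Prod.mk.injEq] at h ⊢
      exact ⟨by rw [h.1], h.2.1⟩
    · intro x y hx hy h
      simp only [Prod.mk.injEq] at h ⊢
      exact ⟨h.1, h.2.1⟩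
    · intro x y hx hy h
      simp only [Prod.mk.injEq] at h ⊢
      exact ⟨h.1.1, h.1.2.1, h.1.2.2.1, h.1.2.2.2, h.2.2.2⟩
  unfold jay
  rw [a5]
  have p1 : phi μ Y = H (p4 μ Y) (fun z => (z.1.1, (Y.θ z.2.2, z.2.1 * z.1.1 * Y.y z.2.2))) -
      H (p4 μ Y) (fun z => (z.1.1, Y.θ z.2.2)) := by
    unfold phi
    rw [a1, a2]
  have p2 := (show phi μ (Mi A ν h (i + 1)) = _ - _ from rfl)
  rw [a3, a4] at p2
  rw [p1, p2]
  linarith

theorem tEFF : S_EFF := by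
  intro G P _ _ _ _ A μ ν hμ h i
  rw [eff_eq, eff_eq]
  have := phi_le A hμ h i
  linarith

theorem tJAY : S_JAY := by
  intro G P _ _ _ _ A μ ν hμ h n
  have h1 : ∀ n : ℕ, ∑ i ∈ Finset.range n, jay A μ (Mi A ν h i) ≤
      phi μ (Mi A ν h 0) - phi μ (Mi A ν h n) := by
    intro n
    induction n with
    | zero => simp
    | succ n ih =>
      rw [Finset.sum_range_succ]
      have := jay_le A hμ h n
      linarith
  have h2 := h1 n
  have h3 := phi_le A hμ h 0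
  have h4 := phi_ge hμ (Mi A ν h n)
  rw [eff_eq]
  linarith

end Pool.Agent.TH408.GR.JAY
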