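import Pool.Agent.TH408.GR.Stm

/-!
# The one point lemma
-/

set_option autoImplicit false
set_option linter.unusedSectionVars false

open Finset
open scoped Classical

namespace Pool.Agent.TH408.GR.PT

open Pool.Agent.W904.AK Pool.Agent.TH408.GR

/-! ### One step -/

section Step

variable {G P : Type} [Group G] [Fintype G] [Fintype P] [MulAction G P]

/-- joint probability of the public data and the preimage of the third point being that of `x` -/
noncomputable def K3 (A : Act G P) (Y : Model G) (T : G) (ω : Y.Ω) (x : P) : ℝ :=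
  im Y.p (fun ω' => (Y.θ ω', (Y.y ω')⁻¹ • T • A.e0, (Y.y ω')⁻¹ • T • A.e1, (Y.y ω')⁻¹ • T • x))
    (Y.θ ω, (Y.y ω)⁻¹ • T • A.e0, (Y.y ω)⁻¹ • T • A.e1, (Y.y ω)⁻¹ • T • A.e2)

/-- probability of the public data -/
noncomputable def K2 (A : Act G P) (Y : Model G) (T : G) (ω : Y.Ω) : ℝ :=
  im Y.p (fun ω' => (Y.θ ω', (Y.y ω')⁻¹ • T • A.e0, (Y.y ω')⁻¹ • T • A.e1))
    (Y.θ ω, (Y.y ω)⁻¹ • T • A.e0, (Y.y ω)⁻¹ • T • A.e1)

lemma K3_nonneg (A : Act G P) (Y : Model G) (T : G) (ω : Y.Ω) (x : P) : 0 ≤ K3 A Y T ω x :=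
  im_nonneg Y.law _ _

lemma K2_nonneg (A : Act G P) (Y : Model G) (T : G) (ω : Y.Ω) : 0 ≤ K2 A Y T ω :=
  im_nonneg Y.law _ _

lemma K2_pos (A : Act G P) (Y : Model G) (T : G) {ω : Y.Ω} (h : Y.p ω ≠ 0) : 0 < K2 A Y T ω :=
  im_pos Y.law (fun ω' => (Y.θ ω', (Y.y ω')⁻¹ • T • A.e0, (Y.y ω')⁻¹ • T • A.e1)) h

lemma K3_pos (A : Act G P) (Y : Model G) (T : G) {ω : Y.Ω} (h : Y.p ω ≠ 0) :
    0 < K3 A Y T ω A.e2 :=
  im_pos Y.law (fun ω' => (Y.θ ω', (Y.y ω')⁻¹ • T • A.e0, (Y.y ω')⁻¹ • T • A.e1,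
    (Y.y ω')⁻¹ • T • A.e2)) h

lemma sv_eq (A : Act G P) (Y : Model G) (T : G) (ω : Y.Ω) :
    sv A Y (T, ω) = -Real.log (K3 A Y T ω A.e2 / K2 A Y T ω) := rfl

lemma exp_sv (A : Act G P) (Y : Model G) (T : G) {ω : Y.Ω} (h : Y.p ω ≠ 0) :
    Real.exp (-sv A Y (T, ω)) = K3 A Y T ω A.e2 / K2 A Y T ω := by
  rw [sv_eq, neg_neg, Real.exp_log (div_pos (K3_pos A Y T h) (K2_pos A Y T h))]

lemma sum_K3 (A : Act G P) (Y : Model G) (T : G) (ω : Y.Ω) :
    ∑ x, K3 A Y T ω x = K2 A Y T ω := by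
  unfold K3 K2 im
  rw [Finset.sum_comm]
  refine Finset.sum_congr rfl fun ω' _ => ?_
  by_cases h : (Y.θ ω', (Y.y ω')⁻¹ • T • A.e0, (Y.y ω')⁻¹ • T • A.e1) =
      (Y.θ ω, (Y.y ω)⁻¹ • T • A.e0, (Y.y ω)⁻¹ • T • A.e1)
  · rw [if_pos h]
    simp only [Prod.mk.injEq] at h
    obtain ⟨h1, h2, h3⟩ := h
    rw [Finset.sum_eq_single_of_mem (T⁻¹ • Y.y ω' • (Y.y ω)⁻¹ • T • A.e2) (Finset.mem_univ _)]
    · rw [if_pos]
      simp only [Prod.mk.injEq]
      exact ⟨h1, h2, h3, by simp⟩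
    · intro x _ hx
      rw [if_neg]
      intro h4
      simp only [Prod.mk.injEq] at h4
      apply hx
      rw [← h4.2.2.2]
      simp
  · rw [if_neg h]
    refine Finset.sum_eq_zero fun x _ => ?_
    rw [if_neg]
    intro h4
    simp only [Prod.mk.injEq] at h4 h
    exact h ⟨h4.1, h4.2.1, h4.2.2.1⟩

lemma K3_mul (A : Act G P) (Y : Model G) (T s : G) (ω : Y.Ω) (x : P) (h0 : s • A.e0 = A.e0)
    (h1 : s • A.e1 = A.e1) (h2 : s • A.e2 = A.e2) : K3 A Y (T * s) ω x = K3 A Y T ω (s • x) := by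
  unfold K3
  simp only [mul_smul, h0, h1, h2]

lemma K2_mul (A : Act G P) (Y : Model G) (T s : G) (ω : Y.Ω) (h0 : s • A.e0 = A.e0)
    (h1 : s • A.e1 = A.e1) : K2 A Y (T * s) ω = K2 A Y T ω := by
  unfold K2
  simp only [mul_smul, h0, h1]

/-- the expected conditional probability -/
noncomputable def GF (A : Act G P) (Y : Model G) (F : ℝ → ℝ) (x : P) : ℝ :=
  ∑ T : G, ∑ ω, unif G T * Y.p ω * (F (sv A Y (T, ω)) * (K3 A Y T ω x / K2 A Y T ω))

lemma unif_nonneg (T : G) : 0 ≤ unif G T := by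
  unfold unif
  positivity

lemma GF_eq (A : Act G P) (Y : Model G) (F : ℝ → ℝ) {x x' : P} (hx0 : x ≠ A.e0) (hx1 : x ≠ A.e1)
    (hx2 : x ≠ A.e2) (hx0' : x' ≠ A.e0) (hx1' : x' ≠ A.e1) (hx2' : x' ≠ A.e2) :
    GF A Y F x = GF A Y F x' := by
  obtain ⟨s, h0, h1, h2, h3⟩ := A.t4 x x' hx0 hx1 hx2 hx0' hx1' hx2'
  unfold GF
  rw [← Equiv.sum_comp (Equiv.mulRight s)]
  refine Finset.sum_congr rfl fun T _ => Finset.sum_congr rfl fun ω _ => ?_
  simp only [Equiv.coe_mulRight]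
  rw [sv_eq, sv_eq, K3_mul A Y T s ω x h0 h1 h2, K3_mul A Y T s ω A.e2 h0 h1 h2,
    K2_mul A Y T s ω h0 h1, h2, h3]
  rfl

lemma GF_e2 (A : Act G P) (Y : Model G) (F : ℝ → ℝ) :
    GF A Y F A.e2 = ∑ T : G, ∑ ω, unif G T * Y.p ω *
      (F (sv A Y (T, ω)) * Real.exp (-sv A Y (T, ω))) := by
  unfold GF
  refine Finset.sum_congr rfl fun T _ => Finset.sum_congr rfl fun ω _ => ?_
  by_cases h : Y.p ω = 0
  · simp [h]
  · rw [exp_sv A Y T h]

lemma GF_le (A : Act G P) (Y : Model G) (F : ℝ → ℝ) (hF : ∀ v, 0 ≤ F v) (hP : 4 ≤ Fintype.card P)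
    {x : P} (hx0 : x ≠ A.e0) (hx1 : x ≠ A.e1) (hx2 : x ≠ A.e2) :
    GF A Y F x ≤ 1 / ((Fintype.card P : ℝ) - 3) * ∑ T : G, ∑ ω, unif G T * Y.p ω *
      (F (sv A Y (T, ω)) * (1 - Real.exp (-sv A Y (T, ω)))) := by
  set Z : Finset P := univ.filter (fun z => z ≠ A.e0 ∧ z ≠ A.e1 ∧ z ≠ A.e2) with hZ
  have hcard : (Z.card : ℝ) = (Fintype.card P : ℝ) - 3 := by
    have h1 : Z = univ \ {A.e0, A.e1, A.e2} := by
      ext z
      simp [hZ]
    have h2 : ({A.e0, A.e1, A.e2} : Finset P).card = 3 := by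
      rw [Finset.card_insert_of_notMem, Finset.card_insert_of_notMem, Finset.card_singleton]
      · simpa using A.h12
      · simp only [Finset.mem_insert, Finset.mem_singleton, not_or]
        exact ⟨A.h01, A.h02⟩
    rw [h1, Finset.card_sdiff_of_subset (Finset.subset_univ _), h2, Finset.card_univ,
      Nat.cast_sub (by omega)]
    norm_num
  have hpos : (0 : ℝ) < (Fintype.card P : ℝ) - 3 := by
    have : (4 : ℝ) ≤ Fintype.card P := by exact_mod_cast hP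
    linarith
  have h1 : ((Fintype.card P : ℝ) - 3) * GF A Y F x = ∑ z ∈ Z, GF A Y F z := by
    rw [← hcard, ← nsmul_eq_mul, ← Finset.sum_const]
    refine Finset.sum_congr rfl fun z hz => ?_
    simp only [hZ, Finset.mem_filter, Finset.mem_univ, true_and] at hz
    exact GF_eq A Y F hx0 hx1 hx2 hz.1 hz.2.1 hz.2.2
  have h2 : ∑ z ∈ Z, GF A Y F z ≤ ∑ T : G, ∑ ω, unif G T * Y.p ω *
      (F (sv A Y (T, ω)) * (1 - Real.exp (-sv A Y (T, ω)))) := by
    unfold GF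
    rw [Finset.sum_comm]
    refine Finset.sum_le_sum fun T _ => ?_
    rw [Finset.sum_comm]
    refine Finset.sum_le_sum fun ω _ => ?_
    rw [← Finset.mul_sum, ← Finset.mul_sum, ← Finset.sum_div]
    by_cases h : Y.p ω = 0
    · simp [h]
    · refine mul_le_mul_of_nonneg_left (mul_le_mul_of_nonneg_left ?_ (hF _))
        (mul_nonneg (unif_nonneg T) (Y.law.nonneg ω))
      have hk2 := K2_pos A Y T h
      rw [exp_sv A Y T h, div_le_iff₀ hk2, sub_mul, div_mul_cancel₀ _ hk2.ne', one_mul,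
        ← sum_K3 A Y T ω]
      have h3 : A.e2 ∉ Z := by
        simp [hZ]
      have h4 : ∑ z ∈ insert A.e2 Z, K3 A Y T ω z ≤ ∑ z, K3 A Y T ω z :=
        Finset.sum_le_sum_of_subset_of_nonneg (Finset.subset_univ _)
          fun z _ _ => K3_nonneg A Y T ω z
      rw [Finset.sum_insert h3] at h4
      linarith
  rw [one_div, inv_mul_eq_div, le_div_iff₀ hpos, mul_comm]
  rw [h1]
  exact h2

end Step

/-! ### The chain -/

/-- adding one coordinate -/
def snoc {α : Type} {N : ℕ} (r : Rs α N) (a : α) : Rs α (N + 1) := (r, a)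

lemma sum_Rs_succ {α : Type} [Fintype α] {N : ℕ} (f : Rs α (N + 1) → ℝ) :
    ∑ r, f r = ∑ r : Rs α N, ∑ a : α, f (snoc r a) := by
  exact Fintype.sum_prod_type (f := f)

section Chain

variable {G P : Type} [Group G] [Fintype G] [Fintype P] [MulAction G P]

lemma pZ_law (Y : Model G) (N : ℕ) : IsLaw (pZ Y N) :=
  pr_law (unif_law G) (pR_law (pr_law (unif_law G) Y.law) N)

lemma pZ_step (Y : Model G) (N : ℕ) (z : G × Rs (G × Y.Ω) N) (h : G) (ω : Y.Ω) :
    pZ Y (N + 1) (z.1, snoc z.2 (h, ω)) = pZ Y N z * (unif G h * Y.p ω) := by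
  show unif G z.1 * (pR (pr (unif G) Y.p) N z.2 * (unif G h * Y.p ω)) =
    unif G z.1 * pR (pr (unif G) Y.p) N z.2 * (unif G h * Y.p ω)
  ring

lemma sum_step (Y : Model G) (N : ℕ) (Φ : G × Rs (G × Y.Ω) (N + 1) → ℝ) :
    ∑ z, pZ Y (N + 1) z * Φ z = ∑ z : G × Rs (G × Y.Ω) N, pZ Y N z *
      ∑ h : G, ∑ ω : Y.Ω, unif G h * Y.p ω * Φ (z.1, snoc z.2 (h, ω)) := by
  rw [Fintype.sum_prod_type, Fintype.sum_prod_type]
  refine Finset.sum_congr rfl fun u _ => ?_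
  rw [sum_Rs_succ]
  refine Finset.sum_congr rfl fun r _ => ?_
  rw [Fintype.sum_prod_type, Finset.mul_sum]
  refine Finset.sum_congr rfl fun h _ => ?_
  rw [Finset.mul_sum]
  refine Finset.sum_congr rfl fun ω _ => ?_
  have := pZ_step Y N (u, r) h ω
  simp only at this
  rw [this]
  ring

lemma UU_step (Y : Model G) (N : ℕ) (z : G × Rs (G × Y.Ω) N) (h : G) (ω : Y.Ω) :
    UU Y (N + 1) (z.1, snoc z.2 (h, ω)) = (Y.y ω)⁻¹ * (h⁻¹ * UU Y N z) := by
  show (PP Y N z.2 * (h * Y.y ω))⁻¹ * z.1 = (Y.y ω)⁻¹ * (h⁻¹ * ((PP Y N z.2)⁻¹ * z.1))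
  group

lemma UU_zero (Y : Model G) (z : G × Rs (G × Y.Ω) 0) : UU Y 0 z = z.1 := by
  show (1 : G)⁻¹ * z.1 = z.1
  simp

lemma AB_head (A : Act G P) (Y : Model G) (N : ℕ) (z : G × Rs (G × Y.Ω) N) :
    ∃ t, AB A Y N z = (UU Y N z • A.e0, UU Y N z • A.e1) :: t := by
  cases N with
  | zero => exact ⟨[], by rw [UU_zero]; rfl⟩
  | succ N => exact ⟨_, rfl⟩

lemma pub_head (A : Act G P) (Y : Model G) (N : ℕ) {z z' : G × Rs (G × Y.Ω) N}
    (h : Pub A Y N z' = Pub A Y N z) :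
    UU Y N z' • A.e0 = UU Y N z • A.e0 ∧ UU Y N z' • A.e1 = UU Y N z • A.e1 := by
  have h1 : AB A Y N z' = AB A Y N z := congrArg (fun w => w.2.1) h
  obtain ⟨t, ht⟩ := AB_head A Y N z
  obtain ⟨t', ht'⟩ := AB_head A Y N z'
  rw [ht, ht'] at h1
  simp only [List.cons.injEq, Prod.mk.injEq] at h1
  exact h1.1

lemma pub_iff (A : Act G P) (Y : Model G) (N : ℕ) (z z' : G × Rs (G × Y.Ω) N) (h h' : G)
    (ω ω' : Y.Ω) :
    Pub A Y (N + 1) (z'.1, snoc z'.2 (h', ω')) = Pub A Y (N + 1) (z.1, snoc z.2 (h, ω)) ↔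
      Pub A Y N z' = Pub A Y N z ∧ h' = h ∧
      (Y.θ ω', (Y.y ω')⁻¹ • (h⁻¹ * UU Y N z) • A.e0, (Y.y ω')⁻¹ • (h⁻¹ * UU Y N z) • A.e1) =
      (Y.θ ω, (Y.y ω)⁻¹ • (h⁻¹ * UU Y N z) • A.e0, (Y.y ω)⁻¹ • (h⁻¹ * UU Y N z) • A.e1) := by
  have e : ∀ (z : G × Rs (G × Y.Ω) N) (h : G) (ω : Y.Ω),
      Pub A Y (N + 1) (z.1, snoc z.2 (h, ω)) = ((h, Y.θ ω) :: CC Y N z.2,
        (UU Y (N + 1) (z.1, snoc z.2 (h, ω)) • A.e0, UU Y (N + 1) (z.1, snoc z.2 (h, ω)) • A.e1) ::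
          AB A Y N z, z.1 • A.e2) := fun z h ω => rfl
  have e2 : ∀ z : G × Rs (G × Y.Ω) N, Pub A Y N z = (CC Y N z.2, AB A Y N z, z.1 • A.e2) :=
    fun z => rfl
  rw [e, e]
  simp only [UU_step, Prod.mk.injEq, List.cons.injEq, mul_smul]
  constructor
  · rintro ⟨⟨⟨h1, h2⟩, h3⟩, ⟨⟨h4, h5⟩, h6⟩, h7⟩
    have hp : Pub A Y N z' = Pub A Y N z := by
      rw [e2, e2, h3, h6, h7]
    obtain ⟨k0, k1⟩ := pub_head A Y N hp
    rw [k0, h1] at h4
    rw [k1, h1] at h5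
    exact ⟨hp, h1, h2, h4, h5⟩
  · rintro ⟨hp, h1, h2, h4, h5⟩
    obtain ⟨k0, k1⟩ := pub_head A Y N hp
    rw [e2, e2] at hp
    simp only [Prod.mk.injEq] at hp
    obtain ⟨h3, h6, h7⟩ := hp
    rw [k0, k1, h1]
    exact ⟨⟨⟨rfl, h2⟩, h3⟩, ⟨⟨h4, h5⟩, h6⟩, h7⟩

/-- joint probability of the public data and of the position `x` of the third point -/
noncomputable def JJ (A : Act G P) (Y : Model G) (N : ℕ) (z : G × Rs (G × Y.Ω) N) (x : P) : ℝ :=
  im (pZ Y N) (fun z => (Pub A Y N z, UU Y N z • A.e2)) (Pub A Y N z, x)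

/-- probability of the public data -/
noncomputable def MM (A : Act G P) (Y : Model G) (N : ℕ) (z : G × Rs (G × Y.Ω) N) : ℝ :=
  im (pZ Y N) (Pub A Y N) (Pub A Y N z)

lemma im_eq_mul {Ω α : Type*} [Fintype Ω] (p : Ω → ℝ) (f : Ω → α) (a : α) :
    im p f a = ∑ x, p x * (if f x = a then 1 else 0) := by
  unfold im
  refine Finset.sum_congr rfl fun x _ => ?_
  split_ifs <;> simp

lemma MM_step (A : Act G P) (Y : Model G) (N : ℕ) (z : G × Rs (G × Y.Ω) N) (h : G) (ω : Y.Ω) :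
    MM A Y (N + 1) (z.1, snoc z.2 (h, ω)) =
      MM A Y N z * (unif G h * K2 A Y (h⁻¹ * UU Y N z) ω) := by
  unfold MM
  rw [im_eq_mul, sum_step, im_eq_mul, Finset.sum_mul]
  refine Finset.sum_congr rfl fun z' _ => ?_
  rw [mul_assoc]
  congr 1
  by_cases hp : Pub A Y N z' = Pub A Y N z
  · rw [if_pos hp, one_mul, Finset.sum_eq_single_of_mem h (Finset.mem_univ _)]
    · unfold K2
      rw [im_eq_mul, Finset.mul_sum]
      refine Finset.sum_congr rfl fun ω' _ => ?_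
      rw [mul_assoc]
      congr 2
      have := pub_iff A Y N z z' h h ω ω'
      simp only [this, hp, true_and]
      congr
    · intro h' _ hh
      refine Finset.sum_eq_zero fun ω' _ => ?_
      rw [if_neg, mul_zero]
      rw [pub_iff]
      exact fun hc => hh hc.2.1
  · rw [if_neg hp, zero_mul]
    refine Finset.sum_eq_zero fun h' _ => Finset.sum_eq_zero fun ω' _ => ?_
    rw [if_neg, mul_zero]
    rw [pub_iff]
    exact fun hc => hp hc.1

lemma JJ_step (A : Act G P) (Y : Model G) (N : ℕ) (z : G × Rs (G × Y.Ω) N) (h : G) (ω : Y.Ω) :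
    JJ A Y (N + 1) (z.1, snoc z.2 (h, ω)) (UU Y (N + 1) (z.1, snoc z.2 (h, ω)) • A.e2) =
      ∑ x, JJ A Y N z x * (unif G h * K3 A Y (h⁻¹ * UU Y N z) ω ((UU Y N z)⁻¹ • x)) := by
  have hR : ∑ x, JJ A Y N z x * (unif G h * K3 A Y (h⁻¹ * UU Y N z) ω ((UU Y N z)⁻¹ • x)) =
      ∑ z', pZ Y N z' * ((if Pub A Y N z' = Pub A Y N z then 1 else 0) *
        (unif G h * K3 A Y (h⁻¹ * UU Y N z) ω ((UU Y N z)⁻¹ • UU Y N z' • A.e2))) := by
    unfold JJ
    simp only [im_eq_mul (pZ Y N), Finset.sum_mul]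
    rw [Finset.sum_comm]
    refine Finset.sum_congr rfl fun z' _ => ?_
    rw [Finset.sum_eq_single_of_mem (UU Y N z' • A.e2) (Finset.mem_univ _)]
    · rw [mul_assoc]
      congr 2
      simp only [Prod.mk.injEq, and_true]
    · intro x _ hx
      rw [if_neg, mul_zero, zero_mul]
      simp only [Prod.mk.injEq]
      exact fun hc => hx hc.2.symm
  rw [hR]
  unfold JJ
  rw [im_eq_mul, sum_step]
  refine Finset.sum_congr rfl fun z' _ => ?_
  congr 1
  by_cases hp : Pub A Y N z' = Pub A Y N z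
  · rw [if_pos hp, one_mul, Finset.sum_eq_single_of_mem h (Finset.mem_univ _)]
    · unfold K3
      rw [im_eq_mul, Finset.mul_sum]
      refine Finset.sum_congr rfl fun ω' _ => ?_
      rw [mul_assoc]
      congr 2
      have := pub_iff A Y N z z' h h ω ω'
      simp only [Prod.mk.injEq, this, hp, true_and, UU_step, mul_smul, smul_inv_smul, and_assoc]
    · intro h' _ hh
      refine Finset.sum_eq_zero fun ω' _ => ?_
      rw [if_neg, mul_zero]
      simp only [Prod.mk.injEq, pub_iff]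
      exact fun hc => hh hc.1.2.1
  · rw [if_neg hp, zero_mul]
    refine Finset.sum_eq_zero fun h' _ => Finset.sum_eq_zero fun ω' _ => ?_
    rw [if_neg, mul_zero]
    simp only [Prod.mk.injEq, pub_iff]
    exact fun hc => hp hc.1.1

/-- substitution -/
lemma sum_subst (U : G) (Ψ : G → ℝ) : ∑ h : G, Ψ (h⁻¹ * U) = ∑ T : G, Ψ T :=
  Equiv.sum_comp ((Equiv.inv G).trans (Equiv.mulRight U)) Ψ

lemma unif_pos (h : G) : 0 < unif G h := by
  unfold unif
  have : 0 < Fintype.card G := Fintype.card_pos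
  positivity

lemma sum_JJ (A : Act G P) (Y : Model G) (N : ℕ) (z : G × Rs (G × Y.Ω) N) :
    ∑ x, JJ A Y N z x = MM A Y N z := by
  unfold JJ MM im
  rw [Finset.sum_comm]
  refine Finset.sum_congr rfl fun z' _ => ?_
  rw [Finset.sum_eq_single_of_mem (UU Y N z' • A.e2) (Finset.mem_univ _)]
  · simp only [Prod.mk.injEq, and_true]
    congr
  · intro x _ hx
    rw [if_neg]
    simp only [Prod.mk.injEq]
    exact fun hc => hx hc.2.symm

lemma JJ_nonneg (A : Act G P) (Y : Model G) (N : ℕ) (z : G × Rs (G × Y.Ω) N) (x : P) :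
    0 ≤ JJ A Y N z x := im_nonneg (pZ_law Y N) _ _

lemma MM_nonneg (A : Act G P) (Y : Model G) (N : ℕ) (z : G × Rs (G × Y.Ω) N) :
    0 ≤ MM A Y N z := im_nonneg (pZ_law Y N) _ _

lemma JJ_le (A : Act G P) (Y : Model G) (N : ℕ) (z : G × Rs (G × Y.Ω) N) (x : P) :
    JJ A Y N z x ≤ MM A Y N z := by
  rw [← sum_JJ]
  exact Finset.single_le_sum (f := fun x => JJ A Y N z x) (fun x _ => JJ_nonneg A Y N z x)
    (Finset.mem_univ x)

lemma MM_pos (A : Act G P) (Y : Model G) (N : ℕ) {z : G × Rs (G × Y.Ω) N} (hz : pZ Y N z ≠ 0) :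
    0 < MM A Y N z := im_pos (pZ_law Y N) (Pub A Y N) hz

lemma JJ_pos (A : Act G P) (Y : Model G) (N : ℕ) {z : G × Rs (G × Y.Ω) N} (hz : pZ Y N z ≠ 0) :
    0 < JJ A Y N z (UU Y N z • A.e2) :=
  im_pos (pZ_law Y N) (fun z => (Pub A Y N z, UU Y N z • A.e2)) hz

lemma JJ_e0 (A : Act G P) (Y : Model G) (N : ℕ) (z : G × Rs (G × Y.Ω) N) :
    JJ A Y N z (UU Y N z • A.e0) = 0 := by
  unfold JJ im
  refine Finset.sum_eq_zero fun z' _ => ?_
  rw [if_neg]
  intro hc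
  simp only [Prod.mk.injEq] at hc
  obtain ⟨k0, -⟩ := pub_head A Y N hc.1
  rw [← k0] at hc
  exact A.h02 (MulAction.injective (UU Y N z') hc.2).symm

lemma JJ_e1 (A : Act G P) (Y : Model G) (N : ℕ) (z : G × Rs (G × Y.Ω) N) :
    JJ A Y N z (UU Y N z • A.e1) = 0 := by
  unfold JJ im
  refine Finset.sum_eq_zero fun z' _ => ?_
  rw [if_neg]
  intro hc
  simp only [Prod.mk.injEq] at hc
  obtain ⟨-, k1⟩ := pub_head A Y N hc.1
  rw [← k1] at hc
  exact A.h12 (MulAction.injective (UU Y N z') hc.2).symm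

/-- conditional probability of the position of the third point -/
noncomputable def Rr (A : Act G P) (Y : Model G) (N : ℕ) (z : G × Rs (G × Y.Ω) N) : ℝ :=
  JJ A Y N z (UU Y N z • A.e2) / MM A Y N z

lemma Rr_le_one (A : Act G P) (Y : Model G) (N : ℕ) (z : G × Rs (G × Y.Ω) N) :
    Rr A Y N z ≤ 1 := div_le_one_of_le₀ (JJ_le A Y N z _) (MM_nonneg A Y N z)

lemma Rr_step (A : Act G P) (Y : Model G) (N : ℕ) (z : G × Rs (G × Y.Ω) N) (h : G) {ω : Y.Ω}
    (hz : pZ Y N z ≠ 0) (hω : Y.p ω ≠ 0) :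
    Rr A Y (N + 1) (z.1, snoc z.2 (h, ω)) =
      ∑ x, JJ A Y N z x / MM A Y N z *
        (K3 A Y (h⁻¹ * UU Y N z) ω ((UU Y N z)⁻¹ • x) / K2 A Y (h⁻¹ * UU Y N z) ω) := by
  unfold Rr
  rw [JJ_step, MM_step, Finset.sum_div]
  refine Finset.sum_congr rfl fun x _ => ?_
  have h1 := (unif_pos h).ne'
  have h2 := (MM_pos A Y N hz).ne'
  have h3 := (K2_pos A Y (h⁻¹ * UU Y N z) hω).ne'
  field_simp

lemma step_ineq (A : Act G P) (Y : Model G) (N : ℕ) (z : G × Rs (G × Y.Ω) N)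
    (hz : pZ Y N z ≠ 0) (hP : 4 ≤ Fintype.card P) (F : ℝ → ℝ) (hF : ∀ v, 0 ≤ F v) :
    ∑ h : G, ∑ ω, unif G h * Y.p ω * (F (sv A Y (h⁻¹ * UU Y N z, ω)) *
      Rr A Y (N + 1) (z.1, snoc z.2 (h, ω))) ≤
    ∑ T : G, ∑ ω, unif G T * Y.p ω * (F (sv A Y (T, ω)) * (Rr A Y N z *
      Real.exp (-sv A Y (T, ω)) + 1 / ((Fintype.card P : ℝ) - 3) *
        (1 - Real.exp (-sv A Y (T, ω))))) := by
  set w : ℝ := 1 / ((Fintype.card P : ℝ) - 3) with hw
  have hw0 : 0 < w := by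
    have : (4 : ℝ) ≤ Fintype.card P := by exact_mod_cast hP
    rw [hw]
    apply div_pos one_pos
    linarith
  set E2 : ℝ := ∑ T : G, ∑ ω, unif G T * Y.p ω *
      (F (sv A Y (T, ω)) * (1 - Real.exp (-sv A Y (T, ω)))) with hE2
  have hE2n : 0 ≤ E2 := by
    refine Finset.sum_nonneg fun T _ => Finset.sum_nonneg fun ω _ => ?_
    by_cases h : Y.p ω = 0
    · simp [h]
    · refine mul_nonneg (mul_nonneg (unif_nonneg T) (Y.law.nonneg ω)) (mul_nonneg (hF _) ?_)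
      rw [exp_sv A Y T h, sub_nonneg, div_le_one (K2_pos A Y T h), ← sum_K3]
      exact Finset.single_le_sum (f := fun x => K3 A Y T ω x) (fun x _ => K3_nonneg A Y T ω x)
        (Finset.mem_univ _)
  have hL : ∑ h : G, ∑ ω, unif G h * Y.p ω * (F (sv A Y (h⁻¹ * UU Y N z, ω)) *
      Rr A Y (N + 1) (z.1, snoc z.2 (h, ω))) =
      ∑ x, JJ A Y N z x / MM A Y N z * GF A Y F ((UU Y N z)⁻¹ • x) := by
    have e1 : ∀ h : G, ∑ ω, unif G h * Y.p ω * (F (sv A Y (h⁻¹ * UU Y N z, ω)) *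
        Rr A Y (N + 1) (z.1, snoc z.2 (h, ω))) =
        ∑ x, JJ A Y N z x / MM A Y N z * ∑ ω, unif G (h⁻¹ * UU Y N z) * Y.p ω *
          (F (sv A Y (h⁻¹ * UU Y N z, ω)) * (K3 A Y (h⁻¹ * UU Y N z) ω ((UU Y N z)⁻¹ • x) /
            K2 A Y (h⁻¹ * UU Y N z) ω)) := by
      intro h
      simp only [Finset.mul_sum]
      rw [Finset.sum_comm]
      refine Finset.sum_congr rfl fun ω _ => ?_
      by_cases hω : Y.p ω = 0
      · simp [hω]
      · rw [Rr_step A Y N z h hz hω, Finset.mul_sum, Finset.mul_sum]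
        refine Finset.sum_congr rfl fun x _ => ?_
        have : unif G (h⁻¹ * UU Y N z) = unif G h := rfl
        rw [this]
        ring
    rw [Finset.sum_congr rfl fun h _ => e1 h, Finset.sum_comm]
    refine Finset.sum_congr rfl fun x _ => ?_
    rw [← Finset.mul_sum]
    congr 1
    exact sum_subst (UU Y N z) (fun T => ∑ ω, unif G T * Y.p ω *
      (F (sv A Y (T, ω)) * (K3 A Y T ω ((UU Y N z)⁻¹ • x) / K2 A Y T ω)))
  have hR : ∑ T : G, ∑ ω, unif G T * Y.p ω * (F (sv A Y (T, ω)) * (Rr A Y N z *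
      Real.exp (-sv A Y (T, ω)) + w * (1 - Real.exp (-sv A Y (T, ω))))) =
      Rr A Y N z * GF A Y F A.e2 + w * E2 := by
    rw [GF_e2, hE2, Finset.mul_sum, Finset.mul_sum, ← Finset.sum_add_distrib]
    refine Finset.sum_congr rfl fun T _ => ?_
    rw [Finset.mul_sum, Finset.mul_sum, ← Finset.sum_add_distrib]
    refine Finset.sum_congr rfl fun ω _ => ?_
    ring
  rw [hL, hR]
  have hM := MM_pos A Y N hz
  have hx : ∀ x, JJ A Y N z x / MM A Y N z * GF A Y F ((UU Y N z)⁻¹ • x) ≤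
      JJ A Y N z x / MM A Y N z * ((if x = UU Y N z • A.e2 then GF A Y F A.e2 else 0) +
        w * E2) := by
    intro x
    have hJ : 0 ≤ JJ A Y N z x / MM A Y N z := div_nonneg (JJ_nonneg A Y N z x) hM.le
    by_cases h2 : x = UU Y N z • A.e2
    · rw [if_pos h2, h2, inv_smul_smul]
      rw [h2] at hJ
      exact mul_le_mul_of_nonneg_left (by nlinarith) hJ
    rw [if_neg h2]
    by_cases h0 : x = UU Y N z • A.e0
    · rw [h0, JJ_e0]
      simp
    by_cases h1 : x = UU Y N z • A.e1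
    · rw [h1, JJ_e1]
      simp
    rw [zero_add]
    refine mul_le_mul_of_nonneg_left ?_ hJ
    refine GF_le A Y F hF hP ?_ ?_ ?_
    · intro h
      exact h0 (by rw [← h, smul_inv_smul])
    · intro h
      exact h1 (by rw [← h, smul_inv_smul])
    · intro h
      exact h2 (by rw [← h, smul_inv_smul])
  refine (Finset.sum_le_sum fun x _ => hx x).trans (le_of_eq ?_)
  simp only [mul_add]
  rw [Finset.sum_add_distrib, ← Finset.sum_mul, ← Finset.sum_div, sum_JJ, div_self hM.ne', one_mul]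
  congr 1
  rw [Finset.sum_eq_single_of_mem (UU Y N z • A.e2) (Finset.mem_univ _)]
  · rw [if_pos rfl]
    rfl
  · intro x _ hx
    rw [if_neg hx, mul_zero]

/-- the values of the surprisal along the chain -/
noncomputable def vt (A : Act G P) (Y : Model G) : ∀ N, G × Rs (G × Y.Ω) N → List ℝ
  | 0, _ => []
  | (N + 1), z => sv A Y (z.2.2.1⁻¹ * UU Y N (z.1, z.2.1), z.2.2.2) :: vt A Y N (z.1, z.2.1)

lemma vt_step (A : Act G P) (Y : Model G) (N : ℕ) (z : G × Rs (G × Y.Ω) N) (h : G) (ω : Y.Ω) :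
    vt A Y (N + 1) (z.1, snoc z.2 (h, ω)) = sv A Y (h⁻¹ * UU Y N z, ω) :: vt A Y N z := rfl

lemma kap_cons (w v : ℝ) (l : List ℝ) :
    kap w (v :: l) = Real.exp (-v) * kap w l + w * (1 - Real.exp (-v)) := by
  unfold kap
  rw [List.sum_cons, neg_add, Real.exp_add]
  ring

lemma kap_pos {w : ℝ} (hw0 : 0 < w) (hw1 : w ≤ 1) (l : List ℝ) : 0 < kap w l := by
  unfold kap
  have h1 := Real.exp_pos (-l.sum)
  nlinarith

lemma main_ineq (A : Act G P) (Y : Model G) (hP : 4 ≤ Fintype.card P) (N : ℕ) :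
    ∀ f : List ℝ → ℝ, (∀ l, 0 ≤ f l) →
      ∑ z, pZ Y N z * (Rr A Y N z * f (vt A Y N z)) ≤
      ∑ z, pZ Y N z * (kap (1 / ((Fintype.card P : ℝ) - 3)) (vt A Y N z) * f (vt A Y N z)) := by
  induction N with
  | zero =>
    intro f hf
    refine Finset.sum_le_sum fun z _ => mul_le_mul_of_nonneg_left ?_ ((pZ_law Y 0).nonneg z)
    refine mul_le_mul_of_nonneg_right ?_ (hf _)
    have : kap (1 / ((Fintype.card P : ℝ) - 3)) (vt A Y 0 z) = 1 := by
      show kap _ [] = 1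
      unfold kap
      simp
    rw [this]
    exact Rr_le_one A Y 0 z
  | succ N ih =>
    intro f hf
    set w : ℝ := 1 / ((Fintype.card P : ℝ) - 3) with hw
    rw [sum_step, sum_step]
    -- the step inequality
    have h1 : ∀ z : G × Rs (G × Y.Ω) N, pZ Y N z * ∑ h : G, ∑ ω, unif G h * Y.p ω *
        (Rr A Y (N + 1) (z.1, snoc z.2 (h, ω)) * f (vt A Y (N + 1) (z.1, snoc z.2 (h, ω)))) ≤
        pZ Y N z * ∑ T : G, ∑ ω, unif G T * Y.p ω * (f (sv A Y (T, ω) :: vt A Y N z) *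
          (Rr A Y N z * Real.exp (-sv A Y (T, ω)) + w * (1 - Real.exp (-sv A Y (T, ω))))) := by
      intro z
      by_cases hz : pZ Y N z = 0
      · simp [hz]
      · refine mul_le_mul_of_nonneg_left ?_ ((pZ_law Y N).nonneg z)
        have h2 := step_ineq A Y N z hz hP (fun v => f (v :: vt A Y N z)) (fun v => hf _)
        refine le_trans (le_of_eq ?_) h2
        refine Finset.sum_congr rfl fun h _ => Finset.sum_congr rfl fun ω _ => ?_
        rw [vt_step]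
        ring
    refine (Finset.sum_le_sum fun z _ => h1 z).trans ?_
    -- rearrange
    have h3 : ∑ z : G × Rs (G × Y.Ω) N, pZ Y N z * ∑ T : G, ∑ ω, unif G T * Y.p ω *
        (f (sv A Y (T, ω) :: vt A Y N z) *
          (Rr A Y N z * Real.exp (-sv A Y (T, ω)) + w * (1 - Real.exp (-sv A Y (T, ω))))) =
        ∑ T : G, ∑ ω, unif G T * Y.p ω * (Real.exp (-sv A Y (T, ω)) *
          (∑ z, pZ Y N z * (Rr A Y N z * f (sv A Y (T, ω) :: vt A Y N z))) +
          ∑ z, pZ Y N z * (w * (1 - Real.exp (-sv A Y (T, ω))) *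
            f (sv A Y (T, ω) :: vt A Y N z))) := by
      simp only [Finset.mul_sum, mul_add]
      rw [Finset.sum_comm]
      refine Finset.sum_congr rfl fun T _ => ?_
      rw [Finset.sum_comm]
      refine Finset.sum_congr rfl fun ω _ => ?_
      rw [← Finset.sum_add_distrib]
      refine Finset.sum_congr rfl fun z _ => ?_
      ring
    rw [h3]
    have h4 : ∀ z : G × Rs (G × Y.Ω) N, ∑ h : G, ∑ ω, unif G h * Y.p ω *
        (kap w (vt A Y (N + 1) (z.1, snoc z.2 (h, ω))) *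
          f (vt A Y (N + 1) (z.1, snoc z.2 (h, ω)))) =
        ∑ T : G, ∑ ω, unif G T * Y.p ω * (kap w (sv A Y (T, ω) :: vt A Y N z) *
          f (sv A Y (T, ω) :: vt A Y N z)) := by
      intro z
      exact sum_subst (UU Y N z) (fun T => ∑ ω, unif G T * Y.p ω *
        (kap w (sv A Y (T, ω) :: vt A Y N z) * f (sv A Y (T, ω) :: vt A Y N z)))
    rw [Finset.sum_congr rfl fun z _ => congrArg (fun t => pZ Y N z * t) (h4 z)]
    have h5 : ∑ z : G × Rs (G × Y.Ω) N, pZ Y N z * ∑ T : G, ∑ ω, unif G T * Y.p ω *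
        (kap w (sv A Y (T, ω) :: vt A Y N z) * f (sv A Y (T, ω) :: vt A Y N z)) =
        ∑ T : G, ∑ ω, unif G T * Y.p ω * (Real.exp (-sv A Y (T, ω)) *
          (∑ z, pZ Y N z * (kap w (vt A Y N z) * f (sv A Y (T, ω) :: vt A Y N z))) +
          ∑ z, pZ Y N z * (w * (1 - Real.exp (-sv A Y (T, ω))) *
            f (sv A Y (T, ω) :: vt A Y N z))) := by
      simp only [Finset.mul_sum, mul_add]
      rw [Finset.sum_comm]
      refine Finset.sum_congr rfl fun T _ => ?_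
      rw [Finset.sum_comm]
      refine Finset.sum_congr rfl fun ω _ => ?_
      rw [← Finset.sum_add_distrib]
      refine Finset.sum_congr rfl fun z _ => ?_
      rw [kap_cons]
      ring
    rw [h5]
    refine Finset.sum_le_sum fun T _ => Finset.sum_le_sum fun ω _ => ?_
    refine mul_le_mul_of_nonneg_left (add_le_add ?_ le_rfl)
      (mul_nonneg (unif_nonneg T) (Y.law.nonneg ω))
    exact mul_le_mul_of_nonneg_left (ih (fun l => f (sv A Y (T, ω) :: l)) fun l => hf _)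
      (Real.exp_pos _).le

lemma law_vt (A : Act G P) (Y : Model G) (N : ℕ) : ∀ Φ : List ℝ → ℝ,
    ∑ z, pZ Y N z * Φ (vt A Y N z) =
      ∑ s : Rs (G × Y.Ω) N, pR (pr (unif G) Y.p) N s * Φ (vs (sv A Y) N s) := by
  induction N with
  | zero =>
    intro Φ
    have e1 : ∀ z : G × Rs (G × Y.Ω) 0, Φ (vt A Y 0 z) = Φ [] := fun z => rfl
    have e2 : ∀ s : Rs (G × Y.Ω) 0, Φ (vs (sv A Y) 0 s) = Φ [] := fun s => rfl
    simp only [e1, e2]
    rw [← Finset.sum_mul, ← Finset.sum_mul, (pZ_law Y 0).total,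
      (pR_law (pr_law (unif_law G) Y.law) 0).total]
  | succ N ih =>
    intro Φ
    rw [sum_step, sum_Rs_succ]
    have h4 : ∀ z : G × Rs (G × Y.Ω) N, ∑ h : G, ∑ ω, unif G h * Y.p ω *
        Φ (vt A Y (N + 1) (z.1, snoc z.2 (h, ω))) =
        ∑ T : G, ∑ ω, unif G T * Y.p ω * Φ (sv A Y (T, ω) :: vt A Y N z) := by
      intro z
      exact sum_subst (UU Y N z) (fun T => ∑ ω, unif G T * Y.p ω *
        Φ (sv A Y (T, ω) :: vt A Y N z))
    rw [Finset.sum_congr rfl fun z _ => congrArg (fun t => pZ Y N z * t) (h4 z)]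
    have h5 : ∑ z : G × Rs (G × Y.Ω) N, pZ Y N z * ∑ T : G, ∑ ω, unif G T * Y.p ω *
        Φ (sv A Y (T, ω) :: vt A Y N z) =
        ∑ T : G, ∑ ω, unif G T * Y.p ω * ∑ z, pZ Y N z * Φ (sv A Y (T, ω) :: vt A Y N z) := by
      simp only [Finset.mul_sum]
      rw [Finset.sum_comm]
      refine Finset.sum_congr rfl fun T _ => ?_
      rw [Finset.sum_comm]
      refine Finset.sum_congr rfl fun ω _ => Finset.sum_congr rfl fun z _ => ?_
      ring
    rw [h5]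
    have h6 : ∀ s : Rs (G × Y.Ω) N, ∑ a : G × Y.Ω, pR (pr (unif G) Y.p) (N + 1) (snoc s a) *
        Φ (vs (sv A Y) (N + 1) (snoc s a)) =
        ∑ T : G, ∑ ω, unif G T * Y.p ω * (pR (pr (unif G) Y.p) N s *
          Φ (sv A Y (T, ω) :: vs (sv A Y) N s)) := by
      intro s
      rw [Fintype.sum_prod_type]
      refine Finset.sum_congr rfl fun T _ => Finset.sum_congr rfl fun ω _ => ?_
      show pR (pr (unif G) Y.p) N s * (unif G T * Y.p ω) * Φ (sv A Y (T, ω) :: vs (sv A Y) N s) =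
        unif G T * Y.p ω * (pR (pr (unif G) Y.p) N s * Φ (sv A Y (T, ω) :: vs (sv A Y) N s))
      ring
    have h7 : (∑ s : Rs (G × Y.Ω) N, ∑ a : G × Y.Ω, pR (pr (unif G) Y.p) (N + 1) (snoc s a) *
        Φ (vs (sv A Y) (N + 1) (snoc s a))) =
        ∑ s : Rs (G × Y.Ω) N, ∑ T : G, ∑ ω, unif G T * Y.p ω * (pR (pr (unif G) Y.p) N s *
          Φ (sv A Y (T, ω) :: vs (sv A Y) N s)) := Finset.sum_congr rfl fun s _ => h6 s
    rw [h7]
    symm
    rw [Finset.sum_comm]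
    refine Finset.sum_congr rfl fun T _ => ?_
    rw [Finset.sum_comm]
    refine Finset.sum_congr rfl fun ω _ => ?_
    rw [← Finset.mul_sum]
    congr 1
    exact (ih (fun l => Φ (sv A Y (T, ω) :: l))).symm

lemma hend_eq (A : Act G P) (Y : Model G) (N : ℕ) :
    hend A Y N = ∑ z, pZ Y N z * -Real.log (Rr A Y N z) := by
  unfold hend H
  rw [← Finset.sum_sub_distrib]
  refine Finset.sum_congr rfl fun z _ => ?_
  by_cases hz : pZ Y N z = 0
  · simp [hz]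
  · have h1 := MM_pos A Y N hz
    have h2 := JJ_pos A Y N hz
    unfold Rr
    rw [Real.log_div h2.ne' h1.ne']
    unfold JJ MM
    ring

end Chain

/-- The one point lemma. -/
theorem tPT : S_PT := by
  intro G P _ _ _ _ A Y N hP
  set w : ℝ := 1 / ((Fintype.card P : ℝ) - 3) with hw
  have h4 : (4 : ℝ) ≤ Fintype.card P := by exact_mod_cast hP
  have hw0 : 0 < w := by
    rw [hw]
    apply div_pos one_pos
    linarith
  have hw1 : w ≤ 1 := by
    rw [hw, div_le_one (by linarith)]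
    linarith
  rw [← law_vt A Y N (fun l => -Real.log (kap w l)), hend_eq]
  have hmain := main_ineq A Y hP N (fun l => (kap w l)⁻¹) (fun l => (inv_pos.2 (kap_pos hw0 hw1 l)).le)
  have h1 : ∑ z, pZ Y N z * (kap w (vt A Y N z) * (kap w (vt A Y N z))⁻¹) = 1 := by
    rw [← (pZ_law Y N).total]
    refine Finset.sum_congr rfl fun z _ => ?_
    rw [mul_inv_cancel₀ (kap_pos hw0 hw1 _).ne', mul_one]
  rw [← hw, h1] at hmain
  have h2 : ∀ z, pZ Y N z * -Real.log (kap w (vt A Y N z)) ≤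
      pZ Y N z * -Real.log (Rr A Y N z) + (pZ Y N z * (Rr A Y N z * (kap w (vt A Y N z))⁻¹) -
        pZ Y N z) := by
    intro z
    by_cases hz : pZ Y N z = 0
    · simp [hz]
    · have hk := kap_pos hw0 hw1 (vt A Y N z)
      have hR : 0 < Rr A Y N z := div_pos (JJ_pos A Y N hz) (MM_pos A Y N hz)
      have h3 := Real.log_le_sub_one_of_pos (mul_pos hR (inv_pos.2 hk))
      rw [Real.log_mul hR.ne' (inv_pos.2 hk).ne', Real.log_inv] at h3
      have h5 := mul_le_mul_of_nonneg_left h3 ((pZ_law Y N).nonneg z)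
      linarith
  have h3 : ∑ z, pZ Y N z * -Real.log (kap w (vt A Y N z)) ≤
      ∑ z, (pZ Y N z * -Real.log (Rr A Y N z) + (pZ Y N z * (Rr A Y N z *
        (kap w (vt A Y N z))⁻¹) - pZ Y N z)) := Finset.sum_le_sum fun z _ => h2 z
  rw [Finset.sum_add_distrib, Finset.sum_sub_distrib, (pZ_law Y N).total] at h3
  linarith

end Pool.Agent.TH408.GR.PT
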