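import Pool.Agent.TH408.GR.Stm

set_option autoImplicit false
set_option linter.unusedSectionVars false

open Finset
open scoped Classical

namespace Pool.Agent.TH408.GR.SMALL

open Pool.Agent.W904.AK Pool.Agent.TH408.GR

variable {G : Type} [Group G] [Fintype G]

lemma card_le_bag (A B : Finset G) (hA : A.Nonempty) (g : G) : B.card ≤ (bag B A g).card := by
  obtain ⟨a, ha⟩ := hA
  refine Finset.card_le_card_of_injOn (fun b => b * (g⁻¹ * a * g)) ?_ ?_
  · intro b hb
    unfold bag
    exact Finset.mem_coe.2 (Finset.mem_image.2 ⟨(b, a), Finset.mem_product.2 ⟨hb, ha⟩, rfl⟩)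
  · intro x _ y _ hxy
    exact mul_right_cancel hxy

lemma bag_eq (A B : Finset G) (g a : G) (ha : a ∈ A) (h : (bag B A g).card ≤ B.card) :
    B.image (fun b => b * (g⁻¹ * a * g)) = bag B A g := by
  refine Finset.eq_of_subset_of_card_le ?_ ?_
  · intro x hx
    obtain ⟨b, hb, rfl⟩ := Finset.mem_image.1 hx
    unfold bag
    exact Finset.mem_image.2 ⟨(b, a), Finset.mem_product.2 ⟨hb, ha⟩, rfl⟩
  · rw [Finset.card_image_of_injective _ (mul_left_injective _)]
    exact h

lemma grow (A B : Finset G) [IsSimpleGroup G] (hA : 1 < A.card) (hB : B.Nonempty)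
    (hBu : B ≠ univ) : ∃ g, B.card + 1 ≤ (bag B A g).card := by
  by_contra hcon
  push Not at hcon
  have hle : ∀ g, (bag B A g).card ≤ B.card := fun g => Nat.le_of_lt_succ (hcon g)
  obtain ⟨a, ha, a', ha', hne⟩ := Finset.one_lt_card.1 hA
  -- the right stabilizer
  have hone : ∀ s : G, (∀ b ∈ B, b * s ∈ B) → ∀ k : ℕ, ∀ b ∈ B, b * s ^ k ∈ B := by
    intro s hs k
    induction k with
    | zero => intro b hb; simpa using hb
    | succ k ih =>
      intro b hb
      rw [pow_succ, ← mul_assoc]
      exact hs _ (ih b hb)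
  let S : Subgroup G :=
    { carrier := {s | ∀ b ∈ B, b * s ∈ B}
      mul_mem' := by
        intro s t hs ht b hb
        rw [← mul_assoc]
        exact ht _ (hs b hb)
      one_mem' := by
        intro b hb
        rwa [mul_one]
      inv_mem' := by
        intro s hs b hb
        have h1 : s⁻¹ = s ^ (Fintype.card G - 1) := by
          rw [inv_eq_iff_mul_eq_one, ← pow_succ', Nat.sub_add_cancel Fintype.card_pos,
            pow_card_eq_one]
        rw [h1]
        exact hone s hs _ b hb }
  have hconj : ∀ g : G, g⁻¹ * (a * a'⁻¹) * g ∈ S := by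
    intro g b hb
    have h1 : b * (g⁻¹ * a * g) ∈ bag B A g := by
      rw [← bag_eq A B g a ha (hle g)]
      exact Finset.mem_image_of_mem _ hb
    rw [← bag_eq A B g a' ha' (hle g)] at h1
    obtain ⟨b', hb', hbb⟩ := Finset.mem_image.1 h1
    have h2 : b * (g⁻¹ * (a * a'⁻¹) * g) = b' := by
      have h3 : b' = b * (g⁻¹ * a * g) * (g⁻¹ * a' * g)⁻¹ := by
        rw [← hbb]; group
      rw [h3]
      group
    rw [h2]
    exact hb'
  have hd : a * a'⁻¹ ≠ 1 := by
    intro h
    exact hne (mul_inv_eq_one.1 h)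
  have hnc : Subgroup.normalClosure {a * a'⁻¹} = (⊤ : Subgroup G) := by
    rcases (Subgroup.normalClosure_normal (s := ({a * a'⁻¹} : Set G))).eq_bot_or_eq_top with h | h
    · exfalso
      have h1 : a * a'⁻¹ ∈ Subgroup.normalClosure ({a * a'⁻¹} : Set G) :=
        Subgroup.subset_normalClosure rfl
      rw [h, Subgroup.mem_bot] at h1
      exact hd h1
    · exact h
  have hS : Subgroup.normalClosure {a * a'⁻¹} ≤ S := by
    unfold Subgroup.normalClosure
    rw [Subgroup.closure_le]
    intro x hx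
    rw [Group.mem_conjugatesOfSet_iff] at hx
    obtain ⟨y, hy, hc⟩ := hx
    rw [Set.mem_singleton_iff] at hy
    rw [hy, isConj_iff] at hc
    obtain ⟨c, hc⟩ := hc
    have := hconj c⁻¹
    rw [inv_inv, hc] at this
    exact this
  rw [hnc] at hS
  apply hBu
  rw [Finset.eq_univ_iff_forall]
  intro x
  obtain ⟨b, hb⟩ := hB
  have h1 : b⁻¹ * x ∈ S := hS (Subgroup.mem_top _)
  have h2 := h1 b hb
  rwa [mul_inv_cancel_left] at h2

lemma grp (G : Type) [Group G] [Fintype G] [IsSimpleGroup G] : ∃ c : ℝ, 0 < c ∧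
    ∀ A B : Finset G, A.Nonempty → B ≠ univ →
      ∃ g, (B.card : ℝ) * (A.card : ℝ) ^ c ≤ ((bag B A g).card : ℝ) := by
  have hN : (1 : ℝ) ≤ Fintype.card G := by exact_mod_cast Fintype.card_pos
  set N : ℝ := ((Fintype.card G : ℕ) : ℝ) with hNdef
  have hl : 0 < Real.log (N + 1) := Real.log_pos (by linarith)
  have hl2 : 0 < Real.log (1 + 1 / N) := Real.log_pos (by
    have : 0 < 1 / N := by positivity
    linarith)
  refine ⟨Real.log (1 + 1 / N) / Real.log (N + 1), by positivity, ?_⟩
  intro A B hA hB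
  by_cases h1 : 1 < A.card
  · by_cases h2 : B.Nonempty
    · obtain ⟨g, hg⟩ := grow A B h1 h2 hB
      refine ⟨g, ?_⟩
      have hA1 : (A.card : ℝ) ≤ N := by
        rw [hNdef]; exact_mod_cast Finset.card_le_univ A
      have hB1 : (B.card : ℝ) ≤ N := by
        rw [hNdef]; exact_mod_cast Finset.card_le_univ B
      have hA2 : (A.card : ℝ) ^ (Real.log (1 + 1 / N) / Real.log (N + 1)) ≤ 1 + 1 / N := by
        have h3 : (A.card : ℝ) ^ (Real.log (1 + 1 / N) / Real.log (N + 1)) ≤
            (N + 1) ^ (Real.log (1 + 1 / N) / Real.log (N + 1)) :=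
          Real.rpow_le_rpow (Nat.cast_nonneg _) (by linarith) (by positivity)
        refine h3.trans (le_of_eq ?_)
        rw [Real.rpow_def_of_pos (by linarith), mul_div_cancel₀ _ hl.ne',
          Real.exp_log (by positivity)]
      have hB2 : (B.card : ℝ) * (1 + 1 / N) ≤ B.card + 1 := by
        have : (B.card : ℝ) / N ≤ 1 := by
          rw [div_le_one (by linarith)]; exact hB1
        have h5 : (B.card : ℝ) * (1 + 1 / N) = B.card + B.card / N := by ring
        linarith
      have hg' : (B.card : ℝ) + 1 ≤ ((bag B A g).card : ℝ) := by exact_mod_cast hg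
      have := mul_le_mul_of_nonneg_left hA2 (Nat.cast_nonneg (α := ℝ) B.card)
      linarith
    · refine ⟨1, ?_⟩
      rw [Finset.not_nonempty_iff_eq_empty] at h2
      rw [h2]
      simp
  · have h3 : A.card = 1 := le_antisymm (not_lt.1 h1) (Finset.card_pos.2 hA)
    refine ⟨1, ?_⟩
    rw [h3, Nat.cast_one, Real.one_rpow, mul_one]
    exact_mod_cast card_le_bag A B hA 1

theorem tSMALL : S_SMALL := by
  intro N₀
  induction N₀ with
  | zero => exact ⟨1, one_pos, fun n h5 h0 => by omega⟩
  | succ N ih =>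
    obtain ⟨c, hc, hcN⟩ := ih
    by_cases h5 : 5 ≤ N + 1
    · have _ : IsSimpleGroup (alternatingGroup (Fin (N + 1))) :=
        alternatingGroup.isSimpleGroup (by simpa using h5)
      obtain ⟨c', hc', hG⟩ := grp (alternatingGroup (Fin (N + 1)))
      refine ⟨min c c', lt_min hc hc', ?_⟩
      have hmono : ∀ (x : ℕ) (d : ℝ), 0 < x → min c c' ≤ d → (x : ℝ) ^ (min c c') ≤ (x : ℝ) ^ d :=
        fun x d hx hd => Real.rpow_le_rpow_of_exponent_le (by exact_mod_cast hx) hd
      intro n h5n hn A B hA hB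
      rcases hn.eq_or_lt with h | h
      · subst h
        obtain ⟨g, hg⟩ := hG A B hA hB
        refine ⟨g, le_trans (mul_le_mul_of_nonneg_left
          (hmono A.card c' (Finset.card_pos.2 hA) (min_le_right _ _)) (Nat.cast_nonneg _)) hg⟩
      · obtain ⟨g, hg⟩ := hcN n h5n (Nat.le_of_lt_succ h) A B hA hB
        refine ⟨g, le_trans (mul_le_mul_of_nonneg_left
          (hmono A.card c (Finset.card_pos.2 hA) (min_le_left _ _)) (Nat.cast_nonneg _)) hg⟩
    · exact ⟨c, hc, fun n h5n hn => by omega⟩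

end Pool.Agent.TH408.GR.SMALL
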