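import Pool.Agent.TH408.GR.Stm

/-!
# Star systems give the star inequality
-/

set_option autoImplicit false
set_option linter.unusedSectionVars false

open Finset
open scoped Classical

namespace Pool.Agent.TH408.GR.STAR1

open Pool.Agent.W904.AK
open Pool.Agent.TH408.GR

section

variable {G P : Type} [Group G] [Fintype G] [Fintype P] [MulAction G P]
variable {Ω Γ : Type} [Fintype Ω] {p : Ω → ℝ}

/-- right multiplication of the uniform element -/
lemma shift {J : Type} [Fintype J] {α : Type} (p : Ω → ℝ) (q : J → ℝ) (m : J → G)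
    (F : Ω → G → J → α) :
    H (pr (pr p (unif G)) q) (fun z => F z.1.1 (z.1.2 * m z.2) z.2) =
      H (pr (pr p (unif G)) q) (fun z => F z.1.1 z.1.2 z.2) := by
  let e : (Ω × G) × J ≃ (Ω × G) × J :=
    { toFun := fun z => ((z.1.1, z.1.2 * m z.2), z.2)
      invFun := fun z => ((z.1.1, z.1.2 * (m z.2)⁻¹), z.2)
      left_inv := fun z => by simp
      right_inv := fun z => by simp }
  exact H_equiv (p := pr (pr p (unif G)) q) (q := pr (pr p (unif G)) q) e (fun z => rfl)
    (fun z => F z.1.1 z.1.2 z.2)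

lemma step2 (hp : IsLaw p) (A : Act G P) (W : Ω → G) (C : Ω → Γ) {I : Type} [Fintype I]
    [Nonempty I] (a : I → G) (t : G) (h0 : ∀ i i', a i • A.e0 = a i' • A.e0)
    (h1 : ∀ i i', a i • A.e1 = a i' • A.e1) :
    H (pr (pr p (unif G)) (unif I)) (fun z => (W z.1.1 * z.1.2 *
        (a z.2 * A.k * (a z.2)⁻¹ * t), z.1.2, C z.1.1)) +
      H (pr p (unif G)) (fun z => (C z.1, z.2 • A.e0, z.2 • A.e1)) ≤
    H (pr p (unif G)) (fun z => (C z.1, z.2 • A.e0, z.2 • A.e1,
        W z.1 * (z.2 * A.k * z.2⁻¹))) + (H p C + H (unif G) (fun x => x)) := by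
  have hG := unif_law G
  have hI := unif_law I
  have hP := pr_law hp hG
  have hPI := pr_law hP hI
  have hf : H (pr (pr p (unif G)) (unif I)) (fun z => (C z.1.1, (z.1.2 * a z.2) • A.e0,
      (z.1.2 * a z.2) • A.e1, W z.1.1 * ((z.1.2 * a z.2) * A.k * (z.1.2 * a z.2)⁻¹))) =
      H (pr p (unif G)) (fun z => (C z.1, z.2 • A.e0, z.2 • A.e1,
        W z.1 * (z.2 * A.k * z.2⁻¹))) := by
    rw [shift p (unif I) a (fun ω g _ => (C ω, g • A.e0, g • A.e1, W ω * (g * A.k * g⁻¹)))]
    exact H_fst hI (fun z : Ω × G => (C z.1, z.2 • A.e0, z.2 • A.e1, W z.1 * (z.2 * A.k * z.2⁻¹)))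
  have hh : H (pr (pr p (unif G)) (unif I)) (fun z => (C z.1.1, (z.1.2 * a z.2) • A.e0,
      (z.1.2 * a z.2) • A.e1)) =
      H (pr p (unif G)) (fun z => (C z.1, z.2 • A.e0, z.2 • A.e1)) := by
    rw [shift p (unif I) a (fun ω g _ => (C ω, g • A.e0, g • A.e1))]
    exact H_fst hI (fun z : Ω × G => (C z.1, z.2 • A.e0, z.2 • A.e1))
  have hg : H (pr (pr p (unif G)) (unif I)) (fun z => (C z.1.1, z.1.2)) =
      H p C + H (unif G) (fun x => x) := by
    rw [H_fst hI (fun z : Ω × G => (C z.1, z.2))]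
    exact H_ind hp hG C (fun x => x)
  have key := submod' hPI
    (f := fun z => (C z.1.1, (z.1.2 * a z.2) • A.e0,
      (z.1.2 * a z.2) • A.e1, W z.1.1 * ((z.1.2 * a z.2) * A.k * (z.1.2 * a z.2)⁻¹)))
    (g := fun z => (C z.1.1, z.1.2))
    (h := fun z => (C z.1.1, (z.1.2 * a z.2) • A.e0, (z.1.2 * a z.2) • A.e1))
    (k := fun z => (W z.1.1 * z.1.2 * (a z.2 * A.k * (a z.2)⁻¹ * t), z.1.2, C z.1.1))
    (by
      intro x y _ _ h
      simp only [Prod.mk.injEq] at h ⊢
      exact ⟨h.1, h.2.1, h.2.2.1⟩)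
    (by
      intro x y _ _ h
      simp only [Prod.mk.injEq] at h ⊢
      refine ⟨h.1, ?_, ?_⟩
      · rw [mul_smul, mul_smul, h.2, h0 x.2 y.2]
      · rw [mul_smul, mul_smul, h.2, h1 x.2 y.2])
    (by
      intro x y _ _ h
      simp only [Prod.mk.injEq] at h ⊢
      obtain ⟨⟨-, -, -, e1⟩, e2, e3⟩ := h
      refine ⟨?_, e3, e2⟩
      have e4 : ∀ z : (Ω × G) × I, W z.1.1 * z.1.2 * (a z.2 * A.k * (a z.2)⁻¹ * t) =
          (W z.1.1 * ((z.1.2 * a z.2) * A.k * (z.1.2 * a z.2)⁻¹)) * (z.1.2 * t) := by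
        intro z
        group
      rw [e4, e4, e1, e3])
  rw [hf, hh, hg] at key
  exact key

lemma step1 (hp : IsLaw p) (W : Ω → G) (C : Ω → Γ) {R : Type} [Fintype R] {q : R → ℝ}
    (hq : IsLaw q) (M : R → G) {I : Type} [Fintype I] [Nonempty I] (r : I → G) :
    H (pr (pr p (unif G)) (pr q (unif I))) (fun z =>
        (W z.1.1 * z.1.2 * (M z.2.1 * r z.2.2), z.1.2, C z.1.1)) +
      (H p (fun x => (C x, W x)) + H (unif G) (fun x => x)) ≤
    H (pr (pr p (unif G)) q) (fun z => (W z.1.1 * z.1.2 * M z.2, z.1.2, C z.1.1)) +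
      H (pr (pr p (unif G)) (unif I)) (fun z =>
        (W z.1.1 * z.1.2 * r z.2, z.1.2, C z.1.1)) := by
  have hG := unif_law G
  have hI := unif_law I
  have hP := pr_law hp hG
  have hqI := pr_law hq hI
  have hQ := pr_law hP hqI
  have hk : H (pr (pr p (unif G)) (pr q (unif I)))
      (fun z => (((C z.1.1, W z.1.1), z.1.2), (z.2.1, z.2.2))) =
      (H p (fun x => (C x, W x)) + H (unif G) (fun x => x)) +
        (H q (fun x => x) + H (unif I) (fun x => x)) := by
    rw [← H_ind hp hG (fun x => (C x, W x)) (fun x => x), ← H_ind hq hI (fun x => x) (fun x => x)]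
    exact H_ind hP hqI (fun z : Ω × G => ((C z.1, W z.1), z.2)) (fun z : R × I => (z.1, z.2))
  have hf : H (pr (pr p (unif G)) (pr q (unif I)))
      (fun z => ((W z.1.1 * z.1.2 * M z.2.1, z.1.2, C z.1.1), z.2.2)) =
      H (pr (pr p (unif G)) q) (fun z => (W z.1.1 * z.1.2 * M z.2, z.1.2, C z.1.1)) +
        H (unif I) (fun x => x) := by
    rw [← H_ind (pr_law hP hq) hI (fun z : (Ω × G) × R =>
      (W z.1.1 * z.1.2 * M z.2, z.1.2, C z.1.1)) (fun x => x)]
    exact H_equiv (Equiv.prodAssoc (Ω × G) R I).symm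
      (fun z => by simp only [pr, Equiv.prodAssoc_symm_apply]; ring)
      (fun z => ((W z.1.1.1 * z.1.1.2 * M z.1.2, z.1.1.2, C z.1.1.1), z.2))
  have hg : H (pr (pr p (unif G)) (pr q (unif I)))
      (fun z => ((W z.1.1 * z.1.2 * (M z.2.1 * r z.2.2), z.1.2, C z.1.1), z.2.1)) =
      H (pr (pr p (unif G)) (unif I)) (fun z =>
        (W z.1.1 * z.1.2 * r z.2, z.1.2, C z.1.1)) + H q (fun x => x) := by
    have e1 : H (pr (pr p (unif G)) (pr q (unif I)))
        (fun z => ((W z.1.1 * z.1.2 * (M z.2.1 * r z.2.2), z.1.2, C z.1.1), z.2.1)) =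
        H (pr (pr p (unif G)) (pr q (unif I)))
        (fun z => ((W z.1.1 * (z.1.2 * M z.2.1) * r z.2.2, z.1.2 * M z.2.1, C z.1.1), z.2.1)) := by
      apply H_congr hQ
      · intro x y _ _ h
        simp only [Prod.mk.injEq] at h ⊢
        obtain ⟨⟨h1, h2, h3⟩, h4⟩ := h
        refine ⟨⟨?_, ?_, h3⟩, h4⟩
        · rw [← mul_assoc, ← mul_assoc]
          rw [← mul_assoc, ← mul_assoc] at h1
          exact h1
        · rw [h2, h4]
      · intro x y _ _ h
        simp only [Prod.mk.injEq] at h ⊢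
        obtain ⟨⟨h1, h2, h3⟩, h4⟩ := h
        refine ⟨⟨?_, ?_, h3⟩, h4⟩
        · rw [← mul_assoc, ← mul_assoc] at h1
          rw [← mul_assoc, ← mul_assoc]
          exact h1
        · rw [h4] at h2
          exact mul_right_cancel h2
    have e2 := shift p (pr q (unif I)) (fun z : R × I => M z.1)
      (fun ω g z => ((W ω * g * r z.2, g, C ω), z.1))
    rw [e1]
    refine e2.trans ?_
    rw [← H_ind (pr_law hP hI) hq (fun z : (Ω × G) × I =>
      (W z.1.1 * z.1.2 * r z.2, z.1.2, C z.1.1)) (fun x => x)]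
    let e : (Ω × G) × (R × I) ≃ ((Ω × G) × I) × R :=
      { toFun := fun z => ((z.1, z.2.2), z.2.1)
        invFun := fun z => (z.1.1, (z.2, z.1.2))
        left_inv := fun z => rfl
        right_inv := fun z => rfl }
    exact H_equiv e (fun z => by
      show pr (pr (pr p (unif G)) (unif I)) q ((z.1, z.2.2), z.2.1) = _
      simp only [pr]; ring)
      (fun z => ((W z.1.1.1 * z.1.1.2 * r z.1.2, z.1.1.2, C z.1.1.1), z.2))
  have key := submod' hQ
    (f := fun z => ((W z.1.1 * z.1.2 * M z.2.1, z.1.2, C z.1.1), z.2.2))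
    (g := fun z => ((W z.1.1 * z.1.2 * (M z.2.1 * r z.2.2), z.1.2, C z.1.1), z.2.1))
    (h := fun z => (W z.1.1 * z.1.2 * (M z.2.1 * r z.2.2), z.1.2, C z.1.1))
    (k := fun z => (((C z.1.1, W z.1.1), z.1.2), (z.2.1, z.2.2)))
    (by
      intro x y _ _ h
      simp only [Prod.mk.injEq] at h ⊢
      obtain ⟨⟨h1, h2, h3⟩, h4⟩ := h
      refine ⟨?_, h2, h3⟩
      rw [← mul_assoc, ← mul_assoc, h1, h4])
    (by
      intro x y _ _ h
      simp only [Prod.mk.injEq] at h ⊢
      exact h.1)
    (by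
      intro x y _ _ h
      simp only [Prod.mk.injEq] at h ⊢
      obtain ⟨⟨⟨h1, h2, h3⟩, h4⟩, ⟨-, -, -⟩, h5⟩ := h
      refine ⟨⟨⟨h3, ?_⟩, h2⟩, h5, h4⟩
      rw [h2, h5] at h1
      exact mul_right_cancel (mul_right_cancel h1))
  rw [hk, hf, hg] at key
  linarith

end

/-- the product depends only on the first indices -/
lemma prR_congr {G : Type} [Group G] (k : G) (π : ℕ → ℕ → G) (t : ℕ → G) :
    ∀ (j : ℕ) (i i' : ℕ → ℕ), (∀ l, l < j → i l = i' l) → prR k π t j i = prR k π t j i'
  | 0, _, _, _ => rfl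
  | (j + 1), i, i', h => by
      unfold prR
      rw [prR_congr k π t j i i' (fun l hl => h l (by omega)), h j (by omega)]

theorem tSTAR1 : S_STAR1 := by
  intro G P _ _ _ _ A m s π t hS Ω Γ _ p W C hp
  obtain ⟨hpos, hagree, hinj⟩ := hS
  have hG := unif_law G
  have hP := pr_law hp hG
  obtain ⟨E1, hE1⟩ : ∃ E1 : ℝ, E1 = H (pr p (unif G)) (fun z => (C z.1, z.2 • A.e0, z.2 • A.e1,
      W z.1 * (z.2 * A.k * z.2⁻¹))) -
    H (pr p (unif G)) (fun z => (C z.1, z.2 • A.e0, z.2 • A.e1)) := ⟨_, rfl⟩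
  obtain ⟨E0, hE0⟩ : ∃ E0 : ℝ, E0 = H p (fun x => (C x, W x)) - H p C := ⟨_, rfl⟩
  have main : ∀ j, j ≤ m → ∃ (R : Type) (_ : Fintype R) (q : R → ℝ) (M : R → ℕ → ℕ), IsLaw q ∧
      (∀ r i, i < j → M r i < s i) ∧ (∀ r r', (∀ i, i < j → M r i = M r' i) → r = r') ∧
      H q (fun x => x) = Real.log ((∏ i ∈ Finset.range j, s i : ℕ) : ℝ) ∧
      H (pr (pr p (unif G)) q) (fun z => (W z.1.1 * z.1.2 * prR A.k π t j (M z.2), z.1.2,
        C z.1.1)) ≤ H p (fun x => (C x, W x)) + H (unif G) (fun x => x) + j * (E1 - E0) := by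
    intro j
    induction j with
    | zero =>
      intro _
      refine ⟨Unit, inferInstance, unif Unit, fun _ _ => 0, unif_law Unit,
        fun r i hi => absurd hi (Nat.not_lt_zero i), fun r r' _ => rfl, ?_, ?_⟩
      · rw [H_unif Unit (fun x y h => h)]
        simp
      · rw [H_fst (unif_law Unit) (fun z : Ω × G => (W z.1 * z.2 * prR A.k π t 0
          (fun _ => 0), z.2, C z.1))]
        rw [← H_ind hp hG (fun x => (C x, W x)) (fun x => x)]
        have h1 : H (pr p (unif G)) (fun z => (W z.1 * z.2 * prR A.k π t 0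
            (fun _ => 0), z.2, C z.1)) ≤ H (pr p (unif G)) (fun z => ((C z.1, W z.1), z.2)) := by
          apply H_mono hP
          intro x y _ _ h
          simp only [Prod.mk.injEq] at h ⊢
          obtain ⟨⟨h1, h2⟩, h3⟩ := h
          rw [h1, h2, h3]
          exact ⟨rfl, rfl, rfl⟩
        simpa using h1
    | succ j ih =>
      intro hj
      obtain ⟨R, hR, q, M, hq, hb, hi, hH, hle⟩ := ih (by omega)
      have : Nonempty (Fin (s j)) := ⟨⟨0, hpos j (by omega)⟩⟩
      have hI := unif_law (Fin (s j))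
      have hqI := pr_law hq hI
      have hlow : ∀ (r : R) (i : Fin (s j)) (l : ℕ), l < j →
          Function.update (M r) j (i : ℕ) l = M r l := by
        intro r i l hl
        exact Function.update_of_ne (by omega) _ _
      refine ⟨R × Fin (s j), inferInstance, pr q (unif (Fin (s j))),
        fun z => Function.update (M z.1) j (z.2 : ℕ), hqI, ?_, ?_, ?_, ?_⟩
      · intro r i hij
        by_cases e : i = j
        · subst e
          simp only [Function.update_self]
          exact r.2.2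
        · beta_reduce
          rw [hlow r.1 r.2 i (by omega)]
          exact hb r.1 i (by omega)
      · intro r r' h
        apply Prod.ext
        · apply hi
          intro i hij
          have := h i (by omega)
          beta_reduce at this
          rwa [hlow r.1 r.2 i hij, hlow r'.1 r'.2 i hij] at this
        · have := h j (by omega)
          simp only [Function.update_self] at this
          exact Fin.ext this
      · have h1 := H_ind hq hI (fun x => x) (fun x => x)
        have h2 : H (pr q (unif (Fin (s j)))) (fun x => x) =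
            H (pr q (unif (Fin (s j)))) (fun z => (z.1, z.2)) := rfl
        rw [h2, h1, hH, H_unif (Fin (s j)) (fun x y h => h), Fintype.card_fin,
          Finset.prod_range_succ, Nat.cast_mul, Real.log_mul]
        · have : ∏ i ∈ Finset.range j, s i ≠ 0 := by
            rw [Finset.prod_ne_zero_iff]
            intro i hi
            have := hpos i (by have := Finset.mem_range.1 hi; omega)
            omega
          exact_mod_cast this
        · have := hpos j (by omega)
          have : s j ≠ 0 := by omega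
          exact_mod_cast this
      · have h1 := step1 hp W C hq (fun r => prR A.k π t j (M r)) (I := Fin (s j))
          (fun i => π j i * A.k * (π j i)⁻¹ * t j)
        have h2 := step2 hp A W C (I := Fin (s j)) (fun i => π j i) (t j)
          (fun i i' => (hagree j (by omega) i i' i.2 i'.2).1)
          (fun i i' => (hagree j (by omega) i i' i.2 i'.2).2)
        have h3 : (fun z : (Ω × G) × R × Fin (s j) => (W z.1.1 * z.1.2 * prR A.k π t (j + 1)
            (Function.update (M z.2.1) j (z.2.2 : ℕ)), z.1.2, C z.1.1)) =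
            (fun z => (W z.1.1 * z.1.2 * (prR A.k π t j (M z.2.1) *
              (π j z.2.2 * A.k * (π j z.2.2)⁻¹ * t j)), z.1.2, C z.1.1)) := by
          funext z
          have h4 : prR A.k π t (j + 1) (Function.update (M z.2.1) j (z.2.2 : ℕ)) =
              prR A.k π t j (M z.2.1) * (π j z.2.2 * A.k * (π j z.2.2)⁻¹ * t j) := by
            rw [prR, prR_congr A.k π t j _ (M z.2.1) (hlow z.2.1 z.2.2), Function.update_self]
          rw [h4]
        rw [h3]
        push_cast
        rw [hE1, hE0] at hle ⊢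
        linarith
  obtain ⟨R, hR, q, M, hq, hb, hi, hH, hle⟩ := main m le_rfl
  have hPq := pr_law hP hq
  have hMinj : ∀ r r', prR A.k π t m (M r) = prR A.k π t m (M r') → r = r' := by
    intro r r' h
    apply hi
    exact hinj (M r) (M r') (fun j hj => hb r j hj) (fun j hj => hb r' j hj) h
  have key := submod' hPq
    (f := fun z => (W z.1.1 * z.1.2 * prR A.k π t m (M z.2), z.1.2, C z.1.1))
    (g := fun z => ((C z.1.1, W z.1.1), z.1.2))
    (h := fun z => (C z.1.1, z.1.2))
    (k := fun z => (((C z.1.1, W z.1.1), z.1.2), z.2))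
    (by
      intro x y _ _ h
      simp only [Prod.mk.injEq] at h ⊢
      exact ⟨h.2.2, h.2.1⟩)
    (by
      intro x y _ _ h
      simp only [Prod.mk.injEq] at h ⊢
      exact ⟨h.1.1, h.2⟩)
    (by
      intro x y _ _ h
      simp only [Prod.mk.injEq] at h ⊢
      obtain ⟨⟨h1, -, -⟩, ⟨h2, h3⟩, h4⟩ := h
      refine ⟨⟨⟨h2, h3⟩, h4⟩, hMinj _ _ ?_⟩
      rw [h3, h4] at h1
      exact mul_left_cancel h1)
  rw [H_ind hP hq (fun z : Ω × G => ((C z.1, W z.1), z.2)) (fun x => x),
    H_fst hq (fun z : Ω × G => (C z.1, z.2)), H_fst hq (fun z : Ω × G => ((C z.1, W z.1), z.2)),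
    H_ind hp hG C (fun x => x), hH] at key
  rw [← hE1, ← hE0]
  rw [hE0] at hle ⊢
  linarith

end Pool.Agent.TH408.GR.STAR1
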