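import Pool.Agent.TH408.GR.Stm

/-!
# The surprisal: mean, sign and exponential moment
-/

set_option autoImplicit false
set_option linter.unusedSectionVars false

open Finset
open scoped Classical

namespace Pool.Agent.TH408.GR.SV

open Pool.Agent.W904.AK Pool.Agent.TH408.GR

/-- Double counting: `E (im f / im g) ≤ card P` if `g` is determined by `f` and `c`. -/
lemma exp_bound {Ω P : Type} [Fintype Ω] [Fintype P] {α β : Type*} {p : Ω → ℝ} (hp : IsLaw p)
    (f : Ω → α) (g : Ω → β) (c : Ω → P) (h : ∀ x y, f x = f y → c x = c y → g x = g y) :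
    ∑ x, p x * (im p f (f x) / im p g (g x)) ≤ Fintype.card P := by
  have e1 : ∀ x, p x * (im p f (f x) / im p g (g x)) =
      ∑ y, p y * (if f x = f y then p x / im p g (g x) else 0) := by
    intro x
    have e2 : im p f (f x) = ∑ y, if f y = f x then p y else 0 := rfl
    rw [e2, Finset.sum_div, Finset.mul_sum]
    refine Finset.sum_congr rfl fun y _ => ?_
    by_cases h1 : f y = f x
    · rw [if_pos h1, if_pos h1.symm]
      ring
    · rw [if_neg h1, if_neg (fun h2 => h1 h2.symm), zero_div, mul_zero, mul_zero]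
  rw [Finset.sum_congr rfl fun x _ => e1 x, Finset.sum_comm]
  have e3 : ∀ y, ∑ x, (if f x = f y then p x / im p g (g x) else 0) ≤ (Fintype.card P : ℝ) := by
    intro y
    have e4 : ∑ x, (if f x = f y then p x / im p g (g x) else 0) =
        ∑ c0 : P, ∑ x, if c x = c0 then (if f x = f y then p x / im p g (g x) else 0) else 0 := by
      rw [Finset.sum_comm]
      refine Finset.sum_congr rfl fun x _ => ?_
      rw [Finset.sum_ite_eq]
      simp
    rw [e4]
    have e5 : ∀ c0 : P, ∑ x, (if c x = c0 then (if f x = f y then p x / im p g (g x) else 0)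
        else 0) ≤ 1 := by
      intro c0
      by_cases hex : ∃ x0, f x0 = f y ∧ c x0 = c0
      · obtain ⟨x0, h1, h2⟩ := hex
        have e6 : ∑ x, (if c x = c0 then (if f x = f y then p x / im p g (g x) else 0) else 0) ≤
            ∑ x, (if g x = g x0 then p x else 0) / im p g (g x0) := by
          refine Finset.sum_le_sum fun x _ => ?_
          by_cases h3 : c x = c0
          · by_cases h4 : f x = f y
            · have h5 : g x = g x0 := h x x0 (h4.trans h1.symm) (h3.trans h2.symm)
              rw [if_pos h3, if_pos h4, if_pos h5, h5]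
            · rw [if_pos h3, if_neg h4]
              refine div_nonneg ?_ (im_nonneg hp g _)
              split_ifs
              exacts [hp.nonneg x, le_rfl]
          · rw [if_neg h3]
            refine div_nonneg ?_ (im_nonneg hp g _)
            split_ifs
            exacts [hp.nonneg x, le_rfl]
        refine e6.trans ?_
        rw [← Finset.sum_div]
        exact div_self_le_one _
      · have e6 : ∑ x, (if c x = c0 then (if f x = f y then p x / im p g (g x) else 0) else 0) =
            0 := by
          refine Finset.sum_eq_zero fun x _ => ?_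
          by_cases h3 : c x = c0
          · by_cases h4 : f x = f y
            · exact absurd ⟨x, h4, h3⟩ hex
            · rw [if_pos h3, if_neg h4]
          · rw [if_neg h3]
        rw [e6]
        exact zero_le_one
    calc _ ≤ ∑ _c0 : P, (1 : ℝ) := Finset.sum_le_sum fun c0 _ => e5 c0
      _ = Fintype.card P := by
        rw [Finset.sum_const, nsmul_eq_mul, mul_one, Finset.card_univ]
  calc _ = ∑ y, p y * ∑ x, (if f x = f y then p x / im p g (g x) else 0) := by
        refine Finset.sum_congr rfl fun y _ => ?_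
        rw [Finset.mul_sum]
    _ ≤ ∑ y, p y * (Fintype.card P : ℝ) :=
        Finset.sum_le_sum fun y _ => mul_le_mul_of_nonneg_left (e3 y) (hp.nonneg y)
    _ = Fintype.card P := by
        rw [← Finset.sum_mul, hp.total, one_mul]

variable {G P : Type} [Group G] [Fintype G] [Fintype P] [MulAction G P]

/-- The public information and the first two preimages. -/
def f3 (A : Act G P) (Y : Model G) (u : G) (ω : Y.Ω) : Y.Θ × P × P :=
  (Y.θ ω, (Y.y ω)⁻¹ • u • A.e0, (Y.y ω)⁻¹ • u • A.e1)

/-- The public information and the three preimages. -/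
def f4 (A : Act G P) (Y : Model G) (u : G) (ω : Y.Ω) : Y.Θ × P × P × P :=
  (Y.θ ω, (Y.y ω)⁻¹ • u • A.e0, (Y.y ω)⁻¹ • u • A.e1, (Y.y ω)⁻¹ • u • A.e2)

lemma sv_eq (A : Act G P) (Y : Model G) (u : G) (ω : Y.Ω) :
    sv A Y (u, ω) = -Real.log (im Y.p (f4 A Y u) (f4 A Y u ω) / im Y.p (f3 A Y u) (f3 A Y u ω)) :=
  rfl

lemma det43 (A : Act G P) (Y : Model G) (u : G) : Det Y.p (f4 A Y u) (f3 A Y u) := by
  intro x y _ _ h
  unfold f4 at h
  unfold f3
  simp only [Prod.mk.injEq] at h ⊢
  exact ⟨h.1, h.2.1, h.2.2.1⟩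

lemma pr_ne {Y : Model G} {z : G × Y.Ω} (hz : pr (unif G) Y.p z ≠ 0) : Y.p z.2 ≠ 0 := by
  intro h
  apply hz
  unfold pr
  rw [h, mul_zero]

theorem tSV : S_SV := by
  intro G P _ _ _ _ A Y
  have hU := unif_law G
  have hp := Y.law
  refine ⟨?_, ?_, ?_⟩
  · have h4 := H_dis hU hp (f4 A Y)
    have h3 := H_dis hU hp (f3 A Y)
    have he : eta A Y = H (pr (unif G) Y.p) (fun z => (z.1, f4 A Y z.1 z.2)) -
        H (pr (unif G) Y.p) (fun z => (z.1, f3 A Y z.1 z.2)) := rfl
    rw [he, h4, h3, add_sub_add_left_eq_sub, ← Finset.sum_sub_distrib, Fintype.sum_prod_type]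
    refine Finset.sum_congr rfl fun u _ => ?_
    rw [← mul_sub]
    unfold H
    rw [← Finset.sum_sub_distrib, Finset.mul_sum]
    refine Finset.sum_congr rfl fun ω _ => ?_
    rw [sv_eq]
    unfold pr
    by_cases hω : Y.p ω = 0
    · simp only [hω, mul_zero, zero_mul, sub_zero]
    · rw [Real.log_div (im_pos hp _ hω).ne' (im_pos hp _ hω).ne']
      ring
  · rintro ⟨u, ω⟩ hz
    have hω : Y.p ω ≠ 0 := pr_ne hz
    rw [sv_eq, neg_nonneg]
    refine Real.log_nonpos (div_nonneg (im_nonneg hp _ _) (im_nonneg hp _ _)) ?_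
    exact div_le_one_of_le₀ (im_le_im_of_det hp (det43 A Y u) hω) (im_nonneg hp _ _)
  · have key : ∀ u : G, ∑ ω, Y.p ω * Real.exp (sv A Y (u, ω)) ≤ (Fintype.card P : ℝ) := by
      intro u
      refine le_trans (le_of_eq ?_) (exp_bound hp (f3 A Y u) (f4 A Y u)
        (fun ω => (Y.y ω)⁻¹ • u • A.e2) ?_)
      · refine Finset.sum_congr rfl fun ω _ => ?_
        by_cases hω : Y.p ω = 0
        · rw [hω, zero_mul, zero_mul]
        · rw [sv_eq, Real.exp_neg, Real.exp_log (div_pos (im_pos hp _ hω) (im_pos hp _ hω)),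
            inv_div]
      · intro x y h1 h2
        unfold f3 at h1
        unfold f4
        simp only [Prod.mk.injEq] at h1 h2 ⊢
        exact ⟨h1.1, h1.2.1, h1.2.2, h2⟩
    rw [Fintype.sum_prod_type]
    calc ∑ u : G, ∑ ω, pr (unif G) Y.p (u, ω) * Real.exp (sv A Y (u, ω))
        = ∑ u : G, unif G u * ∑ ω, Y.p ω * Real.exp (sv A Y (u, ω)) := by
          refine Finset.sum_congr rfl fun u _ => ?_
          rw [Finset.mul_sum]
          refine Finset.sum_congr rfl fun ω _ => ?_
          unfold pr
          ring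
      _ ≤ ∑ u : G, unif G u * (Fintype.card P : ℝ) :=
          Finset.sum_le_sum fun u _ => mul_le_mul_of_nonneg_left (key u) (hU.nonneg u)
      _ = Fintype.card P := by
          rw [← Finset.sum_mul, hU.total, one_mul]

end Pool.Agent.TH408.GR.SV
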