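import Pool.Agent.TH408.GR.Stm

/-!
# Lower tail of sums of independent nonnegative variables
-/

set_option autoImplicit false
set_option linter.unusedSectionVars false

open Finset

namespace Pool.Agent.TH408.GR.TAIL

open Pool.Agent.W904.AK Pool.Agent.TH408.GR

section

variable {α : Type} [Fintype α] {q v : α → ℝ}

lemma sum_nonneg' (hv : ∀ a, q a ≠ 0 → 0 ≤ v a) :
    ∀ (N : ℕ) (s : Rs α N), pR q N s ≠ 0 → 0 ≤ (vs v N s).sum
  | 0, _, _ => by
      show (0 : ℝ) ≤ ([] : List ℝ).sum
      simp
  | (N + 1), s, h => by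
      have h0 : pR q N s.1 * q s.2 ≠ 0 := h
      show (0 : ℝ) ≤ (v s.2 :: vs v N s.1).sum
      rw [List.sum_cons]
      exact add_nonneg (hv _ (right_ne_zero_of_mul h0))
        (sum_nonneg' hv N s.1 (left_ne_zero_of_mul h0))

lemma laplace (L : ℝ) : ∀ N : ℕ, ∑ s : Rs α N, pR q N s * Real.exp (-((vs v N s).sum / L)) =
    (∑ a, q a * Real.exp (-(v a / L))) ^ N
  | 0 => by
      show ∑ x : Unit, (1 : ℝ) * Real.exp (-(([] : List ℝ).sum / L)) = _
      simp
  | (N + 1) => by
      show ∑ x : Rs α N × α, (pR q N x.1 * q x.2) *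
        Real.exp (-((v x.2 :: vs v N x.1).sum / L)) = _
      rw [pow_succ, ← laplace L N, Finset.sum_mul_sum, Fintype.sum_prod_type]
      refine Finset.sum_congr rfl fun x _ => Finset.sum_congr rfl fun a _ => ?_
      rw [List.sum_cons, show -((v a + (vs v N x).sum) / L) =
        -((vs v N x).sum / L) + -(v a / L) by ring, Real.exp_add]
      ring

end

lemma point {w S : ℝ} (hw : 0 < w) (hw3 : w ≤ 1 / 3) (hS : 0 ≤ S) :
    (1 - Real.exp 1 * Real.exp (-(S / -Real.log w))) * (-Real.log w - Real.log 2) ≤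
      -Real.log (Real.exp (-S) + (1 - Real.exp (-S)) * w) := by
  have hc : 0 < -Real.log w - Real.log 2 := by
    have h1 : Real.log w ≤ Real.log (1 / 3) := Real.log_le_log hw hw3
    have h2 : Real.log (1 / 3 : ℝ) = -Real.log 3 := by
      rw [one_div, Real.log_inv]
    have h3 : Real.log 2 < Real.log 3 := Real.log_lt_log (by norm_num) (by norm_num)
    linarith
  have h2pos : 0 < Real.log 2 := Real.log_pos (by norm_num)
  have hL : 0 < -Real.log w := by linarith
  have he : 0 < Real.exp (-S) := Real.exp_pos _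
  have he1 : Real.exp (-S) ≤ 1 := Real.exp_le_one_iff.2 (by linarith)
  have hk : 0 < Real.exp (-S) + (1 - Real.exp (-S)) * w := by
    have := mul_nonneg (sub_nonneg.2 he1) hw.le
    linarith
  rcases le_or_gt (-Real.log w) S with h | h
  · have h1 : Real.exp (-S) ≤ w := by
      calc Real.exp (-S) ≤ Real.exp (Real.log w) := Real.exp_le_exp.2 (by linarith)
        _ = w := Real.exp_log hw
    have h2 : Real.exp (-S) + (1 - Real.exp (-S)) * w ≤ 2 * w := by
      nlinarith [mul_nonneg he.le hw.le]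
    have h3 := Real.log_le_log hk h2
    rw [Real.log_mul two_ne_zero hw.ne'] at h3
    have h4 : (1 - Real.exp 1 * Real.exp (-(S / -Real.log w))) * (-Real.log w - Real.log 2) ≤
        1 * (-Real.log w - Real.log 2) := by
      apply mul_le_mul_of_nonneg_right _ hc.le
      have := mul_pos (Real.exp_pos 1) (Real.exp_pos (-(S / -Real.log w)))
      linarith
    linarith
  · have h1 : 1 ≤ Real.exp 1 * Real.exp (-(S / -Real.log w)) := by
      rw [← Real.exp_add]
      apply Real.one_le_exp
      have : S / -Real.log w < 1 := (div_lt_one hL).2 h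
      linarith
    have h2 : Real.exp (-S) + (1 - Real.exp (-S)) * w ≤ 1 := by
      nlinarith [mul_nonneg (sub_nonneg.2 he1) (show (0:ℝ) ≤ 1 - w by linarith)]
    have h3 := Real.log_nonpos hk.le h2
    have h4 : (1 - Real.exp 1 * Real.exp (-(S / -Real.log w))) * (-Real.log w - Real.log 2) ≤ 0 :=
      mul_nonpos_of_nonpos_of_nonneg (by linarith) hc.le
    linarith

/-- Lower tail of sums of independent nonnegative variables. -/
theorem tTAIL : S_TAIL := by
  intro α _ q v w N hq hv hw hw3
  have hlaw := pR_law hq N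
  have h1 : (1 - Real.exp 1 * (∑ a, q a * Real.exp (-(v a / -Real.log w))) ^ N) *
      (-Real.log w - Real.log 2) = ∑ s : Rs α N, pR q N s *
        ((1 - Real.exp 1 * Real.exp (-((vs v N s).sum / -Real.log w))) *
          (-Real.log w - Real.log 2)) := by
    rw [← laplace (-Real.log w) N]
    have h2 : ∀ s : Rs α N, pR q N s *
        ((1 - Real.exp 1 * Real.exp (-((vs v N s).sum / -Real.log w))) *
          (-Real.log w - Real.log 2)) = pR q N s * (-Real.log w - Real.log 2) -
          (pR q N s * Real.exp (-((vs v N s).sum / -Real.log w))) *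
            (Real.exp 1 * (-Real.log w - Real.log 2)) := fun s => by ring
    rw [Finset.sum_congr rfl fun s _ => h2 s, Finset.sum_sub_distrib, ← Finset.sum_mul,
      ← Finset.sum_mul, hlaw.total]
    ring
  rw [h1]
  refine Finset.sum_le_sum fun s _ => ?_
  by_cases h0 : pR q N s = 0
  · rw [h0, zero_mul, zero_mul]
  · exact mul_le_mul_of_nonneg_left (point hw hw3 (sum_nonneg' hv N s h0)) (hlaw.nonneg s)

lemma exp_three : Real.exp (-3) ≤ 7 / 100 := by
  have h1 : (2.7182818283 : ℝ) < Real.exp 1 := Real.exp_one_gt_d9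
  have h2 : Real.exp 3 = Real.exp 1 ^ 3 := by
    rw [← Real.exp_nat_mul]
    norm_num
  have h3 : (100 / 7 : ℝ) ≤ Real.exp 3 := by
    rw [h2]
    have h4 : (2.7 : ℝ) ^ 3 ≤ Real.exp 1 ^ 3 := pow_le_pow_left₀ (by norm_num) (by linarith) 3
    norm_num at h4 ⊢
    linarith
  rw [Real.exp_neg]
  calc (Real.exp 3)⁻¹ ≤ (100 / 7 : ℝ)⁻¹ := inv_anti₀ (by norm_num) h3
    _ = 7 / 100 := by norm_num

lemma point2 {v L : ℝ} (hv : 0 ≤ v) (hL : 0 < L) :
    Real.exp (-(v / L)) ≤ 1 - (31 / 100) * (v - Real.exp (v - 3 * L)) / L := by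
  have hx : 0 ≤ v / L := div_nonneg hv hL.le
  have e0 := Real.exp_pos (v - 3 * L)
  rcases le_or_gt (v / L) 3 with h | h
  · have hc := convexOn_exp.2 (Set.mem_univ (0 : ℝ)) (Set.mem_univ (-3 : ℝ))
      (show 0 ≤ 1 - v / L / 3 by linarith) (show 0 ≤ v / L / 3 by linarith) (by ring)
    simp only [smul_eq_mul, mul_zero, zero_add, Real.exp_zero, mul_one] at hc
    have h1 : v / L / 3 * (-3) = -(v / L) := by ring
    rw [h1] at hc
    have h2 : (31 / 100) * (v - Real.exp (v - 3 * L)) / L ≤ (31 / 100) * (v / L) := by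
      rw [mul_div_assoc]
      apply mul_le_mul_of_nonneg_left _ (by norm_num)
      exact div_le_div_of_nonneg_right (by linarith) hL.le
    have h3 : v / L / 3 * Real.exp (-3) ≤ v / L / 3 * (7 / 100) :=
      mul_le_mul_of_nonneg_left exp_three (by linarith)
    linarith
  · have h1 : Real.exp (-(v / L)) ≤ 7 / 100 :=
      (Real.exp_le_exp.2 (by linarith)).trans exp_three
    have h2 : v - Real.exp (v - 3 * L) ≤ 3 * L := by
      have := Real.add_one_le_exp (v - 3 * L)
      linarith
    have h3 : (31 / 100) * (v - Real.exp (v - 3 * L)) / L ≤ 93 / 100 := by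
      rw [div_le_iff₀ hL]
      linarith
    linarith

/-- Laplace transform in terms of the mean. -/
theorem tMBD : S_MBD := by
  intro α _ q v L hq hv hL
  have h1 : 1 - (31 / 100) * ((∑ a, q a * v a) - Real.exp (-(3 * L)) *
      ∑ a, q a * Real.exp (v a)) / L =
      ∑ a, q a * (1 - (31 / 100) * (v a - Real.exp (v a - 3 * L)) / L) := by
    have h2 : ∀ a, q a * (1 - (31 / 100) * (v a - Real.exp (v a - 3 * L)) / L) =
        q a - (q a * v a) * ((31 / 100) / L) +
          (q a * Real.exp (v a)) * (Real.exp (-(3 * L)) * ((31 / 100) / L)) := by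
      intro a
      rw [sub_eq_add_neg (v a) (3 * L), Real.exp_add]
      ring
    rw [Finset.sum_congr rfl fun a _ => h2 a, Finset.sum_add_distrib, Finset.sum_sub_distrib,
      ← Finset.sum_mul, ← Finset.sum_mul, hq.total]
    ring
  rw [h1]
  refine Finset.sum_le_sum fun a _ => ?_
  by_cases h0 : q a = 0
  · rw [h0, zero_mul, zero_mul]
  · exact mul_le_mul_of_nonneg_left (point2 (hv a h0) hL) (hq.nonneg a)

end Pool.Agent.TH408.GR.TAIL
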