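import Pool.Agent.TH408.GR.Chain3
import Pool.Agent.TH408.GR.Asm5
import Pool.Agent.TH408.GR.STAR1
import Pool.Agent.TH408.GR.ALT1
import Pool.Agent.TH408.GR.CLS
import Pool.Agent.TH408.GR.COLL
import Pool.Agent.TH408.GR.AMP
import Pool.Agent.TH408.GR.SMALL
import Pool.Agent.TH408.GR.CARD
import Pool.Agent.TH408.GR.TAIL
import Pool.Agent.TH408.GR.SV
import Pool.Agent.TH408.GR.PT
import Pool.Agent.TH408.GR.ETA
import Pool.Agent.TH408.GR.JAY

/-!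
# The growth theorem, from all the parts
-/

set_option autoImplicit false

open Finset
open scoped Classical

namespace Pool.Agent.TH408.GR

theorem final (δ : ℝ) (hδ : 0 < δ) :
    ∃ ε : ℝ, 0 < ε ∧ ∀ n : ℕ, 5 ≤ n → ∀ A B : Finset (alternatingGroup (Fin n)),
      (B.card : ℝ) ≤ (Fintype.card (alternatingGroup (Fin n)) : ℝ) ^ (1 - δ) →
      ∃ g, (B.card : ℝ) * (A.card : ℝ) ^ ε ≤ ((bag B A g).card : ℝ) :=
  Asm.main Chain.tCHAIN PT.tPT SV.tSV TAIL.tTAIL TAIL.tMBD tETA JAY.tJAY JAY.tEFF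
    (Asm.alt STAR1.tSTAR1 ALT1.tALT1) tCLS tCOLL Amp.tAMP CARD.tCARD SMALL.tSMALL δ hδ

end Pool.Agent.TH408.GR
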