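import Pool.Agent.TH408.GR.Stm

/-!
# Auxiliary lemmas for the assembly
-/

set_option autoImplicit false
set_option linter.unusedSectionVars false

open Finset
open scoped Classical

namespace Pool.Agent.TH408.GR.Asm

open Pool.Agent.W904.AK Pool.Agent.TH408.GR

section Info

variable {G P : Type} [Group G] [Fintype G] [Fintype P] [MulAction G P]

/-- The information `jay` is nonnegative. -/
theorem jay_nonneg (A : Act G P) (μ : G → ℝ) (hμ : IsLaw μ) (Y : Model G) : 0 ≤ jay A μ Y := by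
  have hu : IsLaw (unif G) := unif_law G
  have hα : IsLaw (pr (unif G) Y.p) := pr_law hu Y.law
  have hxω : IsLaw (pr μ Y.p) := pr_law hμ Y.law
  have h4 : IsLaw (p4 μ Y) := pr_law (pr_law hu hu) hxω
  have hgx : IsLaw (pr (unif G) μ) := pr_law hu hμ
  let f : G × Y.Ω → G × Y.Θ × P × P := fun z => (z.1, (Y.θ z.2, (Y.y z.2)⁻¹ • z.1 • A.e0,
      (Y.y z.2)⁻¹ • z.1 • A.e1))
  let f' : G × Y.Ω → G × Y.Θ × P × P × P := fun z => (z.1, (Y.θ z.2, (Y.y z.2)⁻¹ • z.1 • A.e0,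
      (Y.y z.2)⁻¹ • z.1 • A.e1, (Y.y z.2)⁻¹ • z.1 • A.e2))
  have hs : H (p4 μ Y) (fun z => (z.1, (Y.θ z.2.2, (Y.y z.2.2)⁻¹ • z.1.2 • A.e0,
        (Y.y z.2.2)⁻¹ • z.1.2 • A.e1, z.2.1 * z.1.1 * Y.y z.2.2,
        (Y.y z.2.2)⁻¹ • z.1.2 • A.e2))) + H (p4 μ Y) (fun z => f (z.1.2, z.2.2)) ≤
      H (p4 μ Y) (fun z => (z.1, (Y.θ z.2.2, (Y.y z.2.2)⁻¹ • z.1.2 • A.e0,
        (Y.y z.2.2)⁻¹ • z.1.2 • A.e1, z.2.1 * z.1.1 * Y.y z.2.2))) +
      H (p4 μ Y) (fun z => f' (z.1.2, z.2.2)) := by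
    apply submod' h4
    · intro x y _ _ h
      simp only [f, Prod.mk.injEq] at h ⊢
      exact ⟨by rw [h.1], h.2.1, h.2.2.1, h.2.2.2.1⟩
    · intro x y _ _ h
      simp only [f, f', Prod.mk.injEq] at h ⊢
      exact ⟨h.1, h.2.1, h.2.2.1, h.2.2.2.1⟩
    · intro x y _ _ h
      simp only [f', Prod.mk.injEq] at h ⊢
      exact ⟨h.1.1, h.1.2.1, h.1.2.2.1, h.1.2.2.2.1, h.1.2.2.2.2, h.2.2.2.2.2⟩
  let e : (G × G) × (G × Y.Ω) ≃ (G × G) × (G × Y.Ω) :=
    { toFun := fun z => ((z.1.1, z.2.1), (z.1.2, z.2.2))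
      invFun := fun z => ((z.1.1, z.2.1), (z.1.2, z.2.2))
      left_inv := fun z => rfl
      right_inv := fun z => rfl }
  have he : ∀ x, (pr (pr (unif G) μ) (pr (unif G) Y.p)) (e x) = (p4 μ Y) x := by
    intro x
    show (unif G x.1.1 * μ x.2.1) * (unif G x.1.2 * Y.p x.2.2) =
      (unif G x.1.1 * unif G x.1.2) * (μ x.2.1 * Y.p x.2.2)
    ring
  have e1 : H (p4 μ Y) (fun z => f (z.1.2, z.2.2)) = H (pr (unif G) Y.p) f := by
    rw [← H_snd hgx f]
    exact H_equiv e he (fun z : (G × G) × (G × Y.Ω) => f z.2)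
  have e2 : H (p4 μ Y) (fun z => f' (z.1.2, z.2.2)) = H (pr (unif G) Y.p) f' := by
    rw [← H_snd hgx f']
    exact H_equiv e he (fun z : (G × G) × (G × Y.Ω) => f' z.2)
  have hη : eta A Y = H (pr (unif G) Y.p) f' - H (pr (unif G) Y.p) f := rfl
  rw [e1, e2] at hs
  unfold jay
  rw [hη]
  linarith

/-- The growth `eff` is nonnegative. -/
theorem eff_nonneg (μ : G → ℝ) (hμ : IsLaw μ) (Y : Model G) : 0 ≤ eff μ Y := by
  have hu : IsLaw (unif G) := unif_law G
  have hxω : IsLaw (pr μ Y.p) := pr_law hμ Y.law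
  have hS : IsLaw (pr (unif G) (pr μ Y.p)) := pr_law hu hxω
  have h1 : H (pr (unif G) (pr μ Y.p)) (fun z => (z.1, z.2)) +
      H (pr (unif G) (pr μ Y.p)) (fun z => (z.1, Y.θ z.2.2)) ≤
      H (pr (unif G) (pr μ Y.p)) (fun z => (z.1, (Y.θ z.2.2, z.2.1 * z.1 * Y.y z.2.2))) +
      H (pr (unif G) (pr μ Y.p)) (fun z => (z.1, z.2.2)) := by
    apply submod' hS
    · intro x y _ _ h
      simp only [Prod.mk.injEq] at h ⊢
      exact ⟨h.1, h.2.1⟩
    · intro x y _ _ h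
      simp only [Prod.mk.injEq] at h ⊢
      exact ⟨h.1, by rw [h.2]⟩
    · intro x y _ _ h
      simp only [Prod.mk.injEq] at h ⊢
      obtain ⟨⟨h1, h2, h3⟩, _, h4⟩ := h
      refine ⟨h1, ?_⟩
      rw [h1, h4] at h3
      exact Prod.ext (mul_right_cancel (mul_right_cancel h3)) h4
  have h2 : H (pr (unif G) (pr μ Y.p)) (fun z => (z.1, z.2)) =
      H (unif G) (fun x => x) + (H μ (fun x => x) + H Y.p (fun x => x)) := by
    rw [← H_ind hμ Y.law (fun x => x) (fun x => x)]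
    exact H_ind hu hxω (fun x => x) (fun z => (z.1, z.2))
  have h3 : H (pr (unif G) (pr μ Y.p)) (fun z => (z.1, z.2.2)) =
      H (unif G) (fun x => x) + H Y.p (fun x => x) := by
    rw [← H_snd hμ (fun x : Y.Ω => x)]
    exact H_ind hu hxω (fun x => x) (fun z => z.2)
  unfold eff
  linarith

end Info

/-- Shannon entropy is at least the collision entropy. -/
theorem H_ge_collision {α : Type} [Fintype α] (ρ : α → ℝ) (hρ : IsLaw ρ) :
    -Real.log (∑ x, ρ x ^ 2) ≤ H ρ (fun x => x) := by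
  have hS : 0 < ∑ x, ρ x ^ 2 := by
    by_contra hcon
    push Not at hcon
    have h0 : ∑ x, ρ x ^ 2 = 0 := le_antisymm hcon (Finset.sum_nonneg fun x _ => sq_nonneg _)
    rw [Finset.sum_eq_zero_iff_of_nonneg (fun x _ => sq_nonneg _)] at h0
    have h1 : ∑ x, ρ x = 0 := Finset.sum_eq_zero fun x hx => by
      have := h0 x hx
      exact pow_eq_zero_iff (two_ne_zero) |>.1 this
    rw [hρ.total] at h1
    exact one_ne_zero h1
  set S := ∑ x, ρ x ^ 2 with hSdef
  have him : ∀ x, im ρ (fun x => x) x = ρ x := by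
    intro x
    simp [im]
  have h1 : ∀ x, ρ x * -Real.log S - ρ x * (ρ x / S - 1) ≤ ρ x * -Real.log (ρ x) := by
    intro x
    by_cases hx : ρ x = 0
    · simp [hx]
    have hx' : 0 < ρ x := lt_of_le_of_ne (hρ.nonneg x) (Ne.symm hx)
    have h2 := Real.log_le_sub_one_of_pos (div_pos hx' hS)
    rw [Real.log_div hx'.ne' hS.ne'] at h2
    have h3 := mul_le_mul_of_nonneg_left h2 hx'.le
    linarith
  unfold H
  calc -Real.log S = ∑ x, (ρ x * -Real.log S - ρ x * (ρ x / S - 1)) := by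
        rw [Finset.sum_sub_distrib, ← Finset.sum_mul, hρ.total, one_mul]
        have : ∑ x, ρ x * (ρ x / S - 1) = 0 := by
          have h4 : ∀ x, ρ x * (ρ x / S - 1) = ρ x ^ 2 / S - ρ x := fun x => by ring
          rw [Finset.sum_congr rfl fun x _ => h4 x, Finset.sum_sub_distrib, ← Finset.sum_div,
            hρ.total, ← hSdef, div_self hS.ne', sub_self]
        rw [this, sub_zero]
    _ ≤ ∑ x, ρ x * -Real.log (im ρ (fun x => x) x) := by
        refine Finset.sum_le_sum fun x _ => ?_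
        rw [him]
        exact h1 x

/-- The star inequality of the alternating group. -/
theorem alt (hSTAR1 : S_STAR1) (hALT1 : S_ALT1) : S_ALT := by
  intro n hn
  obtain ⟨A, π, t, h⟩ := hALT1 n hn
  refine ⟨A, ?_⟩
  have h1 := hSTAR1 _ _ A (n - 3) (fun j => j + 2) π t h
  have h2 : ∀ m : ℕ, (∏ j ∈ Finset.range m, (j + 2)) = Nat.factorial (m + 1) := by
    intro m
    induction m with
    | zero => simp
    | succ m ih =>
      rw [Finset.prod_range_succ, ih, Nat.factorial_succ (m + 1)]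
      ring
  have h3 : (∏ j ∈ Finset.range (n - 3), (j + 2)) = Nat.factorial (n - 2) := by
    rw [h2]
    congr 1
    omega
  have h4 : ((n - 3 : ℕ) : ℝ) = (n : ℝ) - 3 := by
    have : 3 ≤ n := by omega
    push_cast [Nat.cast_sub this]
    ring
  simp only [h3, h4] at h1
  exact h1

end Pool.Agent.TH408.GR.Asm
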