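import Pool.Agent.TH408.GR.Asm1

/-!
# Lower bound for the information of one step
-/

set_option autoImplicit false
set_option linter.unusedSectionVars false

open Finset
open scoped Classical

namespace Pool.Agent.TH408.GR.Asm

open Pool.Agent.W904.AK Pool.Agent.TH408.GR

lemma log_factorial_ge (n : ℕ) (hn : 1 ≤ n) :
    (n : ℝ) * Real.log n - n ≤ Real.log (Nat.factorial n) := by
  have h0 : (0 : ℝ) < n := by exact_mod_cast hn
  have hf : (0 : ℝ) < (Nat.factorial n : ℝ) := by exact_mod_cast Nat.factorial_pos n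
  have h1 := Real.pow_div_factorial_le_exp (n : ℝ) h0.le n
  have h2 := Real.log_le_log (div_pos (pow_pos h0 n) hf) h1
  rw [Real.log_exp, Real.log_div (pow_pos h0 n).ne' hf.ne', Real.log_pow] at h2
  linarith

/-- `log |Alt(n)|`. -/
noncomputable def LA (n : ℕ) : ℝ := Real.log (Fintype.card (alternatingGroup (Fin n)))

lemma card_alt (n : ℕ) (hn : 2 ≤ n) :
    2 * (Fintype.card (alternatingGroup (Fin n)) : ℝ) = (Nat.factorial n : ℝ) := by
  have : Nontrivial (Fin n) := Fin.nontrivial_iff_two_le.2 hn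
  have h := two_mul_card_alternatingGroup (α := Fin n)
  rw [Fintype.card_perm, Fintype.card_fin] at h
  rw [← h]
  push_cast
  congr 1

lemma LA_eq (n : ℕ) (hn : 2 ≤ n) : LA n = Real.log (Nat.factorial n) - Real.log 2 := by
  have h := card_alt n hn
  have hf : (0 : ℝ) < (Nat.factorial n : ℝ) := by exact_mod_cast Nat.factorial_pos n
  unfold LA
  rw [← Real.log_div hf.ne' two_ne_zero, ← h]
  congr 1
  ring

lemma n_big {n : ℕ} (hn : 20 ≤ Real.log n) : 10000 ≤ n := by
  by_contra hcon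
  push Not at hcon
  have h1 : (n : ℝ) ≤ 10000 := by exact_mod_cast hcon.le
  rcases Nat.eq_zero_or_pos n with h0 | h0
  · rw [h0] at hn
    norm_num at hn
  have h2 : Real.log n ≤ Real.log 10000 := Real.log_le_log (by exact_mod_cast h0) h1
  have h3 : Real.log 10000 ≤ 14 * Real.log 2 := by
    have h5 : Real.log 10000 ≤ Real.log ((2 : ℝ) ^ 14) :=
      Real.log_le_log (by norm_num) (by norm_num)
    rw [Real.log_pow] at h5
    push_cast at h5
    exact h5
  have h4 := Real.log_two_lt_d9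
  linarith

lemma LA_ge {n : ℕ} (hn : 20 ≤ Real.log n) : 9 / 10 * ((n : ℝ) * Real.log n) ≤ LA n := by
  have h0 := n_big hn
  have h0' : (10000 : ℝ) ≤ n := by exact_mod_cast h0
  rw [LA_eq n (by omega)]
  have h1 := log_factorial_ge n (by omega)
  have h2 := Real.log_two_lt_d9
  nlinarith

lemma fact_ge {n : ℕ} (hn : 20 ≤ Real.log n) :
    LA n - 2 * Real.log n ≤ Real.log (Nat.factorial (n - 2)) := by
  have h0 := n_big hn
  have h0' : (10000 : ℝ) ≤ n := by exact_mod_cast h0
  rw [LA_eq n (by omega)]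
  have h1 : Nat.factorial n = n * (n - 1) * Nat.factorial (n - 2) := by
    obtain ⟨k, rfl⟩ : ∃ k, n = k + 2 := ⟨n - 2, by omega⟩
    simp only [Nat.add_sub_cancel, Nat.factorial_succ]
    have : k + 2 - 1 = k + 1 := by omega
    rw [this]
    ring
  have hf : (0 : ℝ) < (Nat.factorial (n - 2) : ℝ) := by exact_mod_cast Nat.factorial_pos _
  have h2 : ((n - 1 : ℕ) : ℝ) ≤ n := by exact_mod_cast Nat.sub_le n 1
  have h3 : (0 : ℝ) < ((n - 1 : ℕ) : ℝ) := by
    have : 0 < n - 1 := by omega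
    exact_mod_cast this
  have h4 : (0 : ℝ) < n := by linarith
  rw [h1]
  push_cast
  rw [Real.log_mul (by positivity) hf.ne', Real.log_mul h4.ne' h3.ne']
  have h5 := Real.log_le_log h3 h2
  have h6 := Real.log_pos (by norm_num : (1 : ℝ) < 2)
  linarith

/-- Numerical bound for the tail term. -/
lemma tail_num (C δ η L' m : ℝ) (N : ℕ) (hC : Real.exp 1 * Real.exp (-(155 / 1000 * C)) ≤ δ / 10)
    (hL : 0 < L') (hη : 0 < η) (hm0 : 0 ≤ m) (hm : m ≤ 1 - 31 / 100 * (η / 2) / L')
    (hN : C * L' / η ≤ N) : Real.exp 1 * m ^ N ≤ δ / 10 := by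
  have h1 : m ≤ Real.exp (-(31 / 100 * (η / 2) / L')) := by
    have := Real.add_one_le_exp (-(31 / 100 * (η / 2) / L'))
    linarith
  have h2 : m ^ N ≤ Real.exp (-(31 / 100 * (η / 2) / L')) ^ N := pow_le_pow_left₀ hm0 h1 N
  have h3 : Real.exp (-(31 / 100 * (η / 2) / L')) ^ N ≤ Real.exp (-(155 / 1000 * C)) := by
    rw [← Real.exp_nat_mul]
    apply Real.exp_le_exp.2
    have h4 : 31 / 100 * (η / 2) / L' * (C * L' / η) = 155 / 1000 * C := by
      field_simp
      ring
    have h5 : 31 / 100 * (η / 2) / L' * (C * L' / η) ≤ 31 / 100 * (η / 2) / L' * N :=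
      mul_le_mul_of_nonneg_left hN (by positivity)
    rw [h4] at h5
    linarith
  calc Real.exp 1 * m ^ N ≤ Real.exp 1 * Real.exp (-(155 / 1000 * C)) :=
        mul_le_mul_of_nonneg_left (h2.trans h3) (Real.exp_pos 1).le
    _ ≤ δ / 10 := hC

/-- `eta ≤ log n`. -/
lemma eta_le (hSV : S_SV) {G P : Type} [Group G] [Fintype G] [Fintype P] [MulAction G P]
    [Nonempty P] (A : Act G P) (Y : Model G) : eta A Y ≤ Real.log (Fintype.card P) := by
  obtain ⟨h1, h2, h3⟩ := hSV G P A Y
  have hα : IsLaw (pr (unif G) Y.p) := pr_law (unif_law G) Y.law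
  have hc : (0 : ℝ) < Fintype.card P := by exact_mod_cast Fintype.card_pos
  have h4 : ∀ z, (Fintype.card P : ℝ) * (pr (unif G) Y.p z * (1 - Real.log (Fintype.card P)) +
      pr (unif G) Y.p z * sv A Y z) ≤ pr (unif G) Y.p z * Real.exp (sv A Y z) := by
    intro z
    have h5 := Real.add_one_le_exp (sv A Y z - Real.log (Fintype.card P))
    rw [Real.exp_sub, Real.exp_log hc] at h5
    have h6 := mul_le_mul_of_nonneg_left h5 hc.le
    rw [mul_div_cancel₀ _ hc.ne'] at h6
    have h7 := mul_le_mul_of_nonneg_left h6 (hα.nonneg z)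
    linarith
  have h5 := Finset.sum_le_sum (s := Finset.univ) fun z _ => h4 z
  rw [← Finset.mul_sum, Finset.sum_add_distrib, ← Finset.sum_mul, hα.total, h1] at h5
  have h6 := h5.trans h3
  nlinarith

/-- Lower bound for the end entropy. -/
lemma hend_ge (hPT : S_PT) (hSV : S_SV) (hTAIL : S_TAIL) (hMBD : S_MBD) {G P : Type} [Group G]
    [Fintype G] [Fintype P] [MulAction G P] (A : Act G P) (Y : Model G) (N : ℕ) (C δ : ℝ)
    (hP : 10000 ≤ Fintype.card P)
    (hC : Real.exp 1 * Real.exp (-(155 / 1000 * C)) ≤ δ / 10)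
    (hη : 0 < eta A Y)
    (hη2 : (Fintype.card P : ℝ) / ((Fintype.card P : ℝ) - 3) ^ 3 ≤ eta A Y / 2)
    (hN : C * Real.log ((Fintype.card P : ℝ) - 3) / eta A Y ≤ N) :
    Real.log (Fintype.card P) - hend A Y N ≤ 2 + δ / 10 * Real.log (Fintype.card P) := by
  have hP' : (10000 : ℝ) ≤ Fintype.card P := by exact_mod_cast hP
  set c : ℝ := (Fintype.card P : ℝ) with hc
  have hα : IsLaw (pr (unif G) Y.p) := pr_law (unif_law G) Y.law
  obtain ⟨s1, s2, s3⟩ := hSV G P A Y
  have hpt := hPT G P A Y N (by omega)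
  rw [← hc] at hpt
  have hw : 0 < 1 / (c - 3) := by
    apply one_div_pos.2
    linarith
  have hw3 : 1 / (c - 3) ≤ 1 / 3 := one_div_le_one_div_of_le (by norm_num) (by linarith)
  have ht := hTAIL (G × Y.Ω) (pr (unif G) Y.p) (sv A Y) (1 / (c - 3)) N hα s2 hw hw3
  have hL : -Real.log (1 / (c - 3)) = Real.log (c - 3) := by
    rw [one_div, Real.log_inv, neg_neg]
  rw [hL] at ht
  have hLpos : 0 < Real.log (c - 3) := Real.log_pos (by linarith)
  have hb := hMBD (G × Y.Ω) (pr (unif G) Y.p) (sv A Y) (Real.log (c - 3)) hα s2 hLpos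
  rw [s1] at hb
  have he3 : Real.exp (-(3 * Real.log (c - 3))) = 1 / (c - 3) ^ 3 := by
    have : Real.exp (3 * Real.log (c - 3)) = (c - 3) ^ 3 := by
      rw [show (3 : ℝ) * Real.log (c - 3) = ((3 : ℕ) : ℝ) * Real.log (c - 3) by norm_num,
        Real.exp_nat_mul, Real.exp_log (by linarith)]
    rw [Real.exp_neg, this, one_div]
  rw [he3] at hb
  set m := ∑ a, pr (unif G) Y.p a * Real.exp (-(sv A Y a / Real.log (c - 3))) with hm
  have hm0 : 0 ≤ m := Finset.sum_nonneg fun a _ => mul_nonneg (hα.nonneg a) (Real.exp_pos _).le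
  have hc3 : (0 : ℝ) < (c - 3) ^ 3 := by
    have : 0 < c - 3 := by linarith
    positivity
  have hm1 : m ≤ 1 - 31 / 100 * (eta A Y / 2) / Real.log (c - 3) := by
    refine hb.trans ?_
    have h5 : 1 / (c - 3) ^ 3 * ∑ a, pr (unif G) Y.p a * Real.exp (sv A Y a) ≤ eta A Y / 2 := by
      refine le_trans ?_ hη2
      rw [div_eq_mul_inv c, mul_comm c, ← one_div]
      exact mul_le_mul_of_nonneg_left s3 (by positivity)
    have h6 : 31 / 100 * (eta A Y / 2) / Real.log (c - 3) ≤
        31 / 100 * (eta A Y - 1 / (c - 3) ^ 3 * ∑ a, pr (unif G) Y.p a * Real.exp (sv A Y a)) /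
          Real.log (c - 3) := by
      apply div_le_div_of_nonneg_right _ hLpos.le
      linarith
    linarith
  have htn := tail_num C δ (eta A Y) (Real.log (c - 3)) m N hC hLpos hη hm0 hm1 hN
  have ht0 : 0 ≤ Real.exp 1 * m ^ N := by positivity
  have hlc : Real.log (c - 3) ≤ Real.log c := Real.log_le_log (by linarith) (by linarith)
  have hlc2 : Real.log c - Real.log (c - 3) ≤ 1 / 2 := by
    rw [← Real.log_div (by linarith) (by linarith)]
    have h7 : c / (c - 3) ≤ 3 / 2 := by
      rw [div_le_iff₀ (by linarith)]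
      linarith
    have h8 := Real.log_le_sub_one_of_pos (show 0 < c / (c - 3) from div_pos (by linarith)
      (by linarith))
    linarith
  have hl2 := Real.log_two_lt_d9
  have hl2' := Real.log_pos (by norm_num : (1 : ℝ) < 2)
  have hfin : (1 - Real.exp 1 * m ^ N) * (Real.log (c - 3) - Real.log 2) ≤ hend A Y N :=
    ht.trans hpt
  have h9 : Real.exp 1 * m ^ N * (Real.log (c - 3) - Real.log 2) ≤ δ / 10 * Real.log c := by
    calc Real.exp 1 * m ^ N * (Real.log (c - 3) - Real.log 2)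
        ≤ Real.exp 1 * m ^ N * Real.log c :=
          mul_le_mul_of_nonneg_left (by linarith) ht0
      _ ≤ δ / 10 * Real.log c := mul_le_mul_of_nonneg_right htn (by linarith)
  linarith

end Pool.Agent.TH408.GR.Asm
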