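import Pool.Agent.TH408.GR.Asm2

/-!
# Growth for laws of large entropy
-/

set_option autoImplicit false
set_option linter.unusedSectionVars false

open Finset
open scoped Classical

namespace Pool.Agent.TH408.GR.Asm

open Pool.Agent.W904.AK Pool.Agent.TH408.GR

/-- Lower bound for the information of one step. -/
theorem jay_lower (hCHAIN : S_CHAIN) (hPT : S_PT) (hSV : S_SV) (hTAIL : S_TAIL) (hMBD : S_MBD)
    (δ C : ℝ) (hδ : 0 < δ) (hδ1 : δ ≤ 1) (hC0 : 0 < C)
    (hC : Real.exp 1 * Real.exp (-(155 / 1000 * C)) ≤ δ / 10) (n : ℕ)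
    (hn : 40 / δ ≤ Real.log n) (A : Act (alternatingGroup (Fin n)) (Fin n))
    (hA : StarIneq A (Real.log (Nat.factorial (n - 2))) ((n : ℝ) - 3))
    (μ : alternatingGroup (Fin n) → ℝ) (hμ : IsLaw μ)
    (hD : H μ (fun x => x) ≤ (1 - δ) * LA n) (Y : Model (alternatingGroup (Fin n)))
    (hη : 0 < eta A Y)
    (hη2 : (n : ℝ) / ((n : ℝ) - 3) ^ 3 ≤ eta A Y / 2) (F : ℝ) (hF : eff μ Y ≤ F) (hF0 : 0 ≤ F)
    (hF2 : (C + 1) * Real.log n / eta A Y * F ≤ (LA n - H μ (fun x => x)) / 4) :
    225 / 1000 * δ / (C + 1) * eta A Y ≤ jay A μ Y := by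
  have hn40 : 40 ≤ Real.log n := by
    refine le_trans ?_ hn
    rw [le_div_iff₀ hδ]
    nlinarith
  have hn20 : 20 ≤ Real.log n := by linarith
  have hnn := n_big hn20
  have hn' : (10000 : ℝ) ≤ n := by exact_mod_cast hnn
  have hδn : 40 ≤ δ * Real.log n := by
    rw [div_le_iff₀ hδ] at hn
    linarith
  have : Nonempty (Fin n) := ⟨⟨0, by omega⟩⟩
  set η := eta A Y with hηdef
  set D := LA n - H μ (fun x => x) with hDdef
  have hLA := LA_ge hn20
  have hDge : δ * (9 / 10 * ((n : ℝ) * Real.log n)) ≤ D := by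
    have h1 : δ * LA n ≤ D := by
      rw [hDdef]
      linarith
    exact le_trans (mul_le_mul_of_nonneg_left hLA hδ.le) h1
  have hfact := fact_ge hn20
  have hlog3 : Real.log ((n : ℝ) - 3) ≤ Real.log n := Real.log_le_log (by linarith) (by linarith)
  have hlog3' : 0 < Real.log ((n : ℝ) - 3) := Real.log_pos (by linarith)
  have hηle : η ≤ Real.log n := by
    have := eta_le hSV A Y
    rwa [Fintype.card_fin] at this
  -- the number of steps
  obtain ⟨N, hN1, hN2⟩ : ∃ N : ℕ, C * Real.log ((n : ℝ) - 3) / η ≤ N ∧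
      (N : ℝ) ≤ (C + 1) * Real.log n / η := by
    refine ⟨⌈C * Real.log ((n : ℝ) - 3) / η⌉₊, Nat.le_ceil _, ?_⟩
    have h1 := Nat.ceil_lt_add_one (show 0 ≤ C * Real.log ((n : ℝ) - 3) / η by positivity)
    have h2 : C * Real.log ((n : ℝ) - 3) / η + 1 ≤ (C + 1) * Real.log n / η := by
      rw [div_add_one hη.ne']
      apply div_le_div_of_nonneg_right _ hη.le
      nlinarith
    linarith
  have hchain := hCHAIN _ _ A _ _ hA (by linarith) μ hμ Y N
  have hendL := hend_ge hPT hSV hTAIL hMBD A Y N C δ (by rw [Fintype.card_fin]; exact hnn) hC hη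
    (by rw [Fintype.card_fin]; exact hη2) (by rw [Fintype.card_fin]; exact hN1)
  rw [Fintype.card_fin] at hendL hchain
  have hNF : (N : ℝ) * eff μ Y ≤ D / 4 := by
    calc (N : ℝ) * eff μ Y ≤ N * F := mul_le_mul_of_nonneg_left hF (Nat.cast_nonneg N)
      _ ≤ (C + 1) * Real.log n / η * F := mul_le_mul_of_nonneg_right hN2 hF0
      _ ≤ D / 4 := hF2
  have hj0 : 0 ≤ jay A μ Y := jay_nonneg A μ hμ Y
  -- main inequality
  have h1 : Real.log (Nat.factorial (n - 2)) - H μ (fun x => x) - N * eff μ Y ≤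
      n * (N * jay A μ Y) + n * (2 + δ / 10 * Real.log n) := by
    have h2 : ((n : ℝ) - 3) * (N * jay A μ Y + (Real.log n - hend A Y N)) ≤
        ((n : ℝ) - 3) * (N * jay A μ Y + (2 + δ / 10 * Real.log n)) :=
      mul_le_mul_of_nonneg_left (by linarith) (by linarith)
    have h3 : ((n : ℝ) - 3) * (N * jay A μ Y + (2 + δ / 10 * Real.log n)) ≤
        n * (N * jay A μ Y + (2 + δ / 10 * Real.log n)) := by
      apply mul_le_mul_of_nonneg_right (by linarith)
      have : 0 ≤ (N : ℝ) * jay A μ Y := mul_nonneg (Nat.cast_nonneg N) hj0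
      nlinarith
    linarith
  have h4 : (n : ℝ) * (2 + δ / 10 * Real.log n) ≤ D / 4 := by
    have h5 : (n : ℝ) * (2 + δ / 10 * Real.log n) ≤ n * (225 / 1000 * (δ * Real.log n)) := by
      apply mul_le_mul_of_nonneg_left _ (by linarith)
      linarith
    linarith
  have h6 : 2 * Real.log n ≤ D / 4 := by
    have h7 : (10000 : ℝ) * (δ * Real.log n) ≤ n * (δ * Real.log n) :=
      mul_le_mul_of_nonneg_right hn' (by linarith)
    have h8 : δ * (9 / 10 * ((n : ℝ) * Real.log n)) = 9 / 10 * (n * (δ * Real.log n)) := by ring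
    have h9 : Real.log n ≤ n := by
      have := Real.log_le_sub_one_of_pos (show (0 : ℝ) < n by linarith)
      linarith
    have h10 : (n : ℝ) * 40 ≤ n * (δ * Real.log n) := mul_le_mul_of_nonneg_left hδn (by linarith)
    linarith
  have h7 : D / 4 ≤ n * (N * jay A μ Y) := by
    have : D = LA n - H μ (fun x => x) := hDdef
    linarith
  have h8 : n * (N * jay A μ Y) ≤ n * ((C + 1) * Real.log n / η * jay A μ Y) :=
    mul_le_mul_of_nonneg_left (mul_le_mul_of_nonneg_right hN2 hj0) (by linarith)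
  have h9 : δ * (9 / 10 * ((n : ℝ) * Real.log n)) / 4 ≤
      n * ((C + 1) * Real.log n / η * jay A μ Y) := by linarith
  have hn0 : (0 : ℝ) < n := by linarith
  have hl0 : 0 < Real.log n := by linarith
  have h10 : 225 / 1000 * δ ≤ (C + 1) / η * jay A μ Y := by
    have h11 : δ * (9 / 10 * ((n : ℝ) * Real.log n)) / 4 =
        (n * Real.log n) * (225 / 1000 * δ) := by ring
    have h12 : n * ((C + 1) * Real.log n / η * jay A μ Y) =
        (n * Real.log n) * ((C + 1) / η * jay A μ Y) := by ring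
    rw [h11, h12] at h9
    exact le_of_mul_le_mul_left h9 (by positivity)
  rw [div_mul_eq_mul_div, div_le_iff₀ (by linarith)]
  have h13 : (C + 1) / η * jay A μ Y = ((C + 1) * jay A μ Y) / η := by ring
  rw [h13, le_div_iff₀ hη] at h10
  linarith

/-- Growth for laws of large entropy. -/
theorem big (hCHAIN : S_CHAIN) (hPT : S_PT) (hSV : S_SV) (hTAIL : S_TAIL) (hMBD : S_MBD)
    (hETA : S_ETA) (hJAY : S_JAY) (hEFF : S_EFF)
    (δ C : ℝ) (hδ : 0 < δ) (hδ1 : δ ≤ 1) (hC0 : 0 < C)
    (hC : Real.exp 1 * Real.exp (-(155 / 1000 * C)) ≤ δ / 10) (n : ℕ)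
    (hn : 40 / δ ≤ Real.log n) (A : Act (alternatingGroup (Fin n)) (Fin n))
    (hA : StarIneq A (Real.log (Nat.factorial (n - 2))) ((n : ℝ) - 3))
    (μ : alternatingGroup (Fin n) → ℝ) (hμ : IsLaw μ)
    (hD : H μ (fun x => x) ≤ (1 - δ) * LA n)
    (ν : alternatingGroup (Fin n) → ℝ) (hν : IsLaw ν)
    (hh : 28 / 10 * Real.log n ≤ H ν (fun x => x)) :
    δ / (250 * (C + 1)) * H ν (fun x => x) ≤ eff μ (Model.pure ν hν) := by
  by_contra hcon
  push Not at hcon
  set F := eff μ (Model.pure ν hν) with hFdef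
  set h := H ν (fun x => x) with hhdef
  have hn40 : 40 ≤ Real.log n := by
    refine le_trans ?_ hn
    rw [le_div_iff₀ hδ]
    nlinarith
  have hn20 : 20 ≤ Real.log n := by linarith
  have hnn := n_big hn20
  have hn' : (10000 : ℝ) ≤ n := by exact_mod_cast hnn
  have hn0 : (0 : ℝ) < n := by linarith
  have hh0 : 0 < h := by linarith
  have hF0 : 0 ≤ F := eff_nonneg μ hμ _
  have hC1 : 0 < C + 1 := by linarith
  have hLA := LA_ge hn20
  have hDge : δ * (9 / 10 * ((n : ℝ) * Real.log n)) ≤ LA n - H μ (fun x => x) := by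
    have h1 : δ * LA n ≤ LA n - H μ (fun x => x) := by linarith
    exact le_trans (mul_le_mul_of_nonneg_left hLA hδ.le) h1
  have heta := hETA _ _ A ν hν (by rw [Fintype.card_fin]; omega)
  rw [Fintype.card_fin, ← hhdef] at heta
  have hjay := hJAY _ _ A μ ν hμ hν n
  rw [← hFdef] at hjay
  set c₁ := 225 / 1000 * δ / (C + 1) with hc₁
  have hc₁0 : 0 < c₁ := by positivity
  -- every index
  have key : ∀ i, c₁ * (eta A (Mi A ν hν i) - 2 / 100 * h / n) ≤ jay A μ (Mi A ν hν i) := by
    intro i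
    have hj0 := jay_nonneg A μ hμ (Mi A ν hν i)
    rcases lt_or_ge (eta A (Mi A ν hν i)) (2 / 100 * h / n) with hlt | hge
    · nlinarith
    · have hpos : 0 < 2 / 100 * h / n := by positivity
      have hη : 0 < eta A (Mi A ν hν i) := lt_of_lt_of_le hpos hge
      have hη2 : (n : ℝ) / ((n : ℝ) - 3) ^ 3 ≤ eta A (Mi A ν hν i) / 2 := by
        have h1 : (n : ℝ) / ((n : ℝ) - 3) ^ 3 ≤ 1 / n := by
          have h2 : (n : ℝ) / 2 ≤ n - 3 := by linarith
          have h3 : ((n : ℝ) / 2) ^ 3 ≤ (n - 3) ^ 3 := pow_le_pow_left₀ (by linarith) h2 3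
          have h4 : (n : ℝ) * n ≤ ((n : ℝ) / 2) ^ 3 := by
            have : ((n : ℝ) / 2) ^ 3 = n * n * (n / 8) := by ring
            rw [this]
            nlinarith [mul_pos hn0 hn0]
          rw [div_le_div_iff₀ (by
            have : 0 < (n : ℝ) / 2 := by linarith
            have := pow_pos this 3
            linarith) hn0]
          linarith
        have h5 : 2 / 100 * h / n / 2 ≤ eta A (Mi A ν hν i) / 2 := by linarith
        refine le_trans ?_ h5
        refine h1.trans ?_
        rw [div_div, div_le_div_iff₀ hn0 (by positivity)]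
        nlinarith
      have hF := hEFF _ _ A μ ν hμ hν i
      rw [← hFdef] at hF
      have hF2 : (C + 1) * Real.log n / eta A (Mi A ν hν i) * F ≤
          (LA n - H μ (fun x => x)) / 4 := by
        have h1 : (C + 1) * Real.log n / eta A (Mi A ν hν i) ≤
            (C + 1) * Real.log n / (2 / 100 * h / n) :=
          div_le_div_of_nonneg_left (by positivity) hpos hge
        have h2 : (C + 1) * Real.log n / eta A (Mi A ν hν i) * F ≤
            (C + 1) * Real.log n / (2 / 100 * h / n) * (δ / (250 * (C + 1)) * h) :=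
          mul_le_mul h1 hcon.le hF0 (by positivity)
        have h3 : (C + 1) * Real.log n / (2 / 100 * h / n) * (δ / (250 * (C + 1)) * h) =
            2 / 10 * (δ * (n * Real.log n)) := by
          field_simp
          ring
        rw [h3] at h2
        have h4 : 0 < δ * (n * Real.log n) := by positivity
        linarith
      have := jay_lower hCHAIN hPT hSV hTAIL hMBD δ C hδ hδ1 hC0 hC n hn A hA μ hμ hD
        (Mi A ν hν i) hη hη2 F hF hF0 hF2
      rw [← hc₁] at this
      have h6 : c₁ * (eta A (Mi A ν hν i) - 2 / 100 * h / n) ≤ c₁ * eta A (Mi A ν hν i) :=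
        mul_le_mul_of_nonneg_left (by linarith) hc₁0.le
      linarith
  have hsum := Finset.sum_le_sum (s := Finset.range n) fun i _ => key i
  rw [← Finset.mul_sum, Finset.sum_sub_distrib, Finset.sum_const, Finset.card_range,
    nsmul_eq_mul] at hsum
  have h1 : (n : ℝ) * (2 / 100 * h / n) = 2 / 100 * h := by
    field_simp
  rw [h1] at hsum
  have h2 : 38 / 1000 * h ≤ ∑ i ∈ Finset.range n, eta A (Mi A ν hν i) - 2 / 100 * h := by
    linarith
  have h3 : c₁ * (38 / 1000 * h) ≤ F :=
    (mul_le_mul_of_nonneg_left h2 hc₁0.le).trans (hsum.trans hjay)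
  have h4 : δ / (250 * (C + 1)) * h < c₁ * (38 / 1000 * h) := by
    have h5 : δ / (250 * (C + 1)) * h = (δ / (C + 1) * h) * (4 / 1000) := by
      field_simp
      norm_num
    have h6 : c₁ * (38 / 1000 * h) = (δ / (C + 1) * h) * (855 / 100000) := by
      rw [hc₁]
      field_simp
      norm_num
    rw [h5, h6]
    have : 0 < δ / (C + 1) * h := by positivity
    linarith
  linarith

end Pool.Agent.TH408.GR.Asm
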