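import Pool.Agent.W904.AK.Final
import Pool.Agent.W904.AK.Cond

/-!
# Product laws and entropies
-/

set_option autoImplicit false
set_option linter.unusedSectionVars false

open Finset
open scoped Classical

namespace Pool.Agent.TH408.GR

open Pool.Agent.W904.AK

section Pr

variable {Ω Ω' Ω'' : Type*} [Fintype Ω] [Fintype Ω'] [Fintype Ω''] {α β γ δ : Type*}
  {p : Ω → ℝ} {q : Ω' → ℝ}

/-- The product law. -/
def pr (p : Ω → ℝ) (q : Ω' → ℝ) (z : Ω × Ω') : ℝ := p z.1 * q z.2

lemma pr_law (hp : IsLaw p) (hq : IsLaw q) : IsLaw (pr p q) := by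
  constructor
  · intro z
    exact mul_nonneg (hp.nonneg _) (hq.nonneg _)
  · unfold pr
    rw [Fintype.sum_prod_type]
    simp only [← Finset.mul_sum, hq.total, mul_one, hp.total]

lemma im_pr_pair (p : Ω → ℝ) (q : Ω' → ℝ) (u : Ω → α) (v : Ω' → β) (a : α) (b : β) :
    im (pr p q) (fun z => (u z.1, v z.2)) (a, b) = im p u a * im q v b := by
  unfold im pr
  rw [Fintype.sum_prod_type, Finset.sum_mul]
  refine Finset.sum_congr rfl fun x _ => ?_
  rw [Finset.mul_sum]
  refine Finset.sum_congr rfl fun y _ => ?_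
  by_cases h1 : u x = a <;> by_cases h2 : v y = b <;> simp [h1, h2]

lemma sum_pr_fst (hq : IsLaw q) (f : Ω → ℝ) : ∑ z : Ω × Ω', pr p q z * f z.1 = ∑ x, p x * f x := by
  unfold pr
  rw [Fintype.sum_prod_type]
  refine Finset.sum_congr rfl fun x _ => ?_
  have : ∀ y, p x * q y * f x = (p x * f x) * q y := fun y => by ring
  simp only [this, ← Finset.mul_sum, hq.total, mul_one]

lemma sum_pr_snd (hp : IsLaw p) (f : Ω' → ℝ) : ∑ z : Ω × Ω', pr p q z * f z.2 = ∑ x, q x * f x := by
  unfold pr
  rw [Fintype.sum_prod_type, Finset.sum_comm]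
  refine Finset.sum_congr rfl fun x _ => ?_
  have : ∀ y, p y * q x * f x = p y * (q x * f x) := fun y => by ring
  simp only [this, ← Finset.sum_mul, hp.total, one_mul]

lemma im_pr_fst (hq : IsLaw q) (u : Ω → α) (a : α) :
    im (pr p q) (fun z => u z.1) a = im p u a := by
  have := sum_pr_fst (p := p) hq (fun x => if u x = a then 1 else 0)
  unfold im
  simpa using this

lemma im_pr_snd (hp : IsLaw p) (u : Ω' → α) (a : α) :
    im (pr p q) (fun z => u z.2) a = im q u a := by
  have := sum_pr_snd (q := q) hp (fun x => if u x = a then 1 else 0)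
  unfold im
  simpa using this

lemma H_fst (hq : IsLaw q) (u : Ω → α) : H (pr p q) (fun z => u z.1) = H p u :=
  H_eq_of_im_eq (fun a => im_pr_fst hq u a)

lemma H_snd (hp : IsLaw p) (u : Ω' → α) : H (pr p q) (fun z => u z.2) = H q u :=
  H_eq_of_im_eq (fun a => im_pr_snd hp u a)

/-- Entropy of an independent pair. -/
lemma H_ind (hp : IsLaw p) (hq : IsLaw q) (u : Ω → α) (v : Ω' → β) :
    H (pr p q) (fun z => (u z.1, v z.2)) = H p u + H q v := by
  have e1 : ∀ z : Ω × Ω', pr p q z * -Real.log (im (pr p q) (fun z => (u z.1, v z.2))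
      (u z.1, v z.2)) = pr p q z * -Real.log (im p u (u z.1)) +
        pr p q z * -Real.log (im q v (v z.2)) := by
    intro z
    rw [im_pr_pair]
    by_cases h1 : p z.1 = 0
    · simp [pr, h1]
    by_cases h2 : q z.2 = 0
    · simp [pr, h2]
    rw [Real.log_mul (im_pos hp u h1).ne' (im_pos hq v h2).ne']
    ring
  unfold H
  rw [Finset.sum_congr rfl fun z _ => e1 z, Finset.sum_add_distrib,
    sum_pr_fst hq (fun x => -Real.log (im p u (u x))),
    sum_pr_snd hp (fun x => -Real.log (im q v (v x)))]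

/-- Change of variables by a measure preserving bijection. -/
lemma H_equiv (e : Ω ≃ Ω') (h : ∀ x, q (e x) = p x) (f : Ω' → α) :
    H p (fun x => f (e x)) = H q f := by
  apply H_eq_of_im_eq
  intro a
  unfold im
  rw [← e.sum_comp]
  refine Finset.sum_congr rfl fun x _ => ?_
  rw [h]

/-- Markov lemma: `D` gives no more information than `φ` on `f (φ, ω')`. -/
lemma markov (hp : IsLaw p) (hq : IsLaw q) (φ : Ω → γ) (D : Ω → δ) (hD : Det p D φ)
    (f : γ → Ω' → α) :
    H (pr p q) (fun z => (D z.1, f (φ z.1) z.2)) - H p D =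
      H (pr p q) (fun z => (φ z.1, f (φ z.1) z.2)) - H p φ := by
  have hpq := pr_law hp hq
  have hD' : ∀ x y : Ω × Ω', pr p q x ≠ 0 → pr p q y ≠ 0 → D x.1 = D y.1 → φ x.1 = φ y.1 := by
    intro x y hx hy h
    exact hD x.1 y.1 (fun h' => hx (by simp [pr, h'])) (fun h' => hy (by simp [pr, h'])) h
  -- (i)
  have h1 : H (pr p q) (fun z => (D z.1, f (φ z.1) z.2)) + H (pr p q) (fun z => φ z.1) ≤
      H (pr p q) (fun z => D z.1) + H (pr p q) (fun z => (φ z.1, f (φ z.1) z.2)) := by
    apply submod' hpq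
    · intro x y hx hy h
      exact hD' x y hx hy h
    · exact Det.fst _ _ _
    · intro x y hx hy h
      simp only [Prod.mk.injEq] at h ⊢
      exact ⟨h.1, h.2.2⟩
  have h2 : H (pr p q) (fun z => (D z.1, z.2)) + H (pr p q) (fun z => (φ z.1, f (φ z.1) z.2)) ≤
      H (pr p q) (fun z => (D z.1, f (φ z.1) z.2)) + H (pr p q) (fun z => (φ z.1, z.2)) := by
    apply submod' hpq
    · intro x y hx hy h
      simp only [Prod.mk.injEq] at h ⊢
      exact ⟨hD' x y hx hy h.1, h.2⟩
    · intro x y hx hy h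
      simp only [Prod.mk.injEq] at h ⊢
      exact ⟨h.1, by rw [h.1, h.2]⟩
    · intro x y hx hy h
      simp only [Prod.mk.injEq] at h ⊢
      exact ⟨h.1.1, h.2.2⟩
  rw [H_ind hp hq D (fun x => x), H_ind hp hq φ (fun x => x)] at h2
  rw [H_fst hq, H_fst hq] at h1
  linarith

/-- Disintegration. -/
lemma H_dis (hp : IsLaw p) (hq : IsLaw q) (f : Ω → Ω' → α) :
    H (pr p q) (fun z => (z.1, f z.1 z.2)) = H p (fun x => x) + ∑ x, p x * H q (f x) := by
  have e0 : ∀ x, im p (fun x => x) x = p x := by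
    intro x
    simp [im]
  have e1 : ∀ x a, im (pr p q) (fun z => (z.1, f z.1 z.2)) (x, a) = p x * im q (f x) a := by
    intro x a
    unfold im pr
    rw [Fintype.sum_prod_type, Finset.sum_eq_single_of_mem x (Finset.mem_univ x)]
    · rw [Finset.mul_sum]
      refine Finset.sum_congr rfl fun y _ => ?_
      by_cases h : f x y = a <;> simp [h]
    · intro b _ hb
      refine Finset.sum_eq_zero fun y _ => ?_
      rw [if_neg]
      intro h
      exact hb (congrArg Prod.fst h)
  unfold H
  rw [Fintype.sum_prod_type, ← Finset.sum_add_distrib]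
  refine Finset.sum_congr rfl fun x _ => ?_
  simp only [e1, e0]
  by_cases hx : p x = 0
  · simp [pr, hx]
  have e2 : ∀ y, pr p q (x, y) * -Real.log (p x * im q (f x) (f x y)) =
      p x * -Real.log (p x) * q y + p x * (q y * -Real.log (im q (f x) (f x y))) := by
    intro y
    by_cases hy : q y = 0
    · simp [pr, hy]
    rw [Real.log_mul hx (im_pos hq (f x) hy).ne']
    unfold pr
    ring
  rw [Finset.sum_congr rfl fun y _ => e2 y, Finset.sum_add_distrib, ← Finset.mul_sum, hq.total,
    ← Finset.mul_sum, mul_one]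

end Pr

end Pool.Agent.TH408.GR
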