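import Pool.Agent.TH408.GR.Stm

/-!
# Growth of the public chain: `H(X h₁ y₁ ... h_N y_N | public) ≤ H(X) + N eff`
-/

set_option autoImplicit false
set_option linter.unusedSectionVars false

open Finset
open scoped Classical

namespace Pool.Agent.TH408.GR.Chain

open Pool.Agent.W904.AK Pool.Agent.TH408.GR

variable {G P : Type} [Group G] [Fintype G] [Fintype P] [MulAction G P]

lemma unif_eq (x y : G) : unif G x = unif G y := rfl

/-- Multiplication on the left by a function of the first coordinate. -/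
def shiftL {R : Type} (M : R → G) : R × G ≃ R × G where
  toFun z := (z.1, M z.1 * z.2)
  invFun z := (z.1, (M z.1)⁻¹ * z.2)
  left_inv z := by ext <;> simp
  right_inv z := by ext <;> simp

theorem growth (μ : G → ℝ) (hμ : IsLaw μ) (Y : Model G) : ∀ N : ℕ,
    H (pr μ (pR (pr (unif G) Y.p) N)) (fun z => (CC Y N z.2, z.1 * PP Y N z.2)) -
      H (pr μ (pR (pr (unif G) Y.p) N)) (fun z => CC Y N z.2) ≤
      H μ (fun x => x) + N * eff μ Y := by
  have hu : IsLaw (unif G) := unif_law G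
  have hα : IsLaw (pr (unif G) Y.p) := pr_law hu Y.law
  intro N
  induction N with
  | zero =>
    have h0 := pR_law hα 0
    have hp := pr_law hμ h0
    have h1 : H (pr μ (pR (pr (unif G) Y.p) 0)) (fun z => CC Y 0 z.2) = 0 := by
      show H (pr μ (pR (pr (unif G) Y.p) 0)) (fun _ => ([] : List (G × Y.Θ))) = 0
      exact H_const hp _
    have h2 : H (pr μ (pR (pr (unif G) Y.p) 0)) (fun z => (CC Y 0 z.2, z.1 * PP Y 0 z.2)) =
        H μ (fun x => x) := by
      rw [← H_fst (p := μ) h0 (fun x => x)]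
      apply H_congr hp
      · intro x y _ _ h
        simp only [CC, PP, Prod.mk.injEq, mul_one] at h
        exact h.2
      · intro x y _ _ h
        simp only [CC, PP, Prod.mk.injEq, mul_one]
        exact ⟨trivial, h⟩
    rw [h1, h2]
    simp
  | succ N ih =>
    set q := pR (pr (unif G) Y.p) N with hq_def
    have hq : IsLaw q := pR_law hα N
    have hp : IsLaw (pr μ q) := pr_law hμ hq
    -- the big space
    have hS : IsLaw (pr (pr μ q) (pr (unif G) Y.p)) := pr_law hp hα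
    let e1 : G × Rs (G × Y.Ω) (N + 1) ≃ (G × Rs (G × Y.Ω) N) × (G × Y.Ω) :=
      { toFun := fun z => ((z.1, z.2.1), z.2.2)
        invFun := fun z => (z.1.1, (z.1.2, z.2))
        left_inv := fun z => rfl
        right_inv := fun z => rfl }
    have he1 : ∀ x, (pr (pr μ q) (pr (unif G) Y.p)) (e1 x) =
        (pr μ (pR (pr (unif G) Y.p) (N + 1))) x := by
      intro x
      exact mul_assoc (μ x.1) (q x.2.1) (pr (unif G) Y.p x.2.2)
    have a1 : H (pr μ (pR (pr (unif G) Y.p) (N + 1)))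
        (fun z => (CC Y (N + 1) z.2, z.1 * PP Y (N + 1) z.2)) =
        H (pr (pr μ q) (pr (unif G) Y.p)) (fun z =>
          ((z.2.1, Y.θ z.2.2) :: CC Y N z.1.2, z.1.1 * (PP Y N z.1.2 * (z.2.1 * Y.y z.2.2)))) :=
      H_equiv e1 he1 (fun z : (G × Rs (G × Y.Ω) N) × (G × Y.Ω) =>
          ((z.2.1, Y.θ z.2.2) :: CC Y N z.1.2, z.1.1 * (PP Y N z.1.2 * (z.2.1 * Y.y z.2.2))))
    have a2 : H (pr μ (pR (pr (unif G) Y.p) (N + 1))) (fun z => CC Y (N + 1) z.2) =
        H (pr (pr μ q) (pr (unif G) Y.p)) (fun z => (z.2.1, Y.θ z.2.2) :: CC Y N z.1.2) :=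
      H_equiv e1 he1 (fun z : (G × Rs (G × Y.Ω) N) × (G × Y.Ω) =>
          (z.2.1, Y.θ z.2.2) :: CC Y N z.1.2)
    -- H(C') = H(C) + H(h,θ)
    have a3 : H (pr (pr μ q) (pr (unif G) Y.p)) (fun z => (z.2.1, Y.θ z.2.2) :: CC Y N z.1.2) =
        H (pr μ q) (fun z => CC Y N z.2) +
          H (pr (unif G) Y.p) (fun z => (z.1, Y.θ z.2)) := by
      rw [← H_ind hp hα (fun z => CC Y N z.2) (fun z : G × Y.Ω => (z.1, Y.θ z.2))]
      apply H_congr hS
      · intro x y _ _ h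
        simp only [List.cons.injEq, Prod.mk.injEq] at h ⊢
        exact ⟨h.2, h.1⟩
      · intro x y _ _ h
        simp only [List.cons.injEq, Prod.mk.injEq] at h ⊢
        exact ⟨h.2, h.1⟩
    -- submodularity
    have a4 : H (pr (pr μ q) (pr (unif G) Y.p)) (fun z =>
          ((CC Y N z.1.2, z.1.1 * PP Y N z.1.2, z.1.2), z.2)) +
        H (pr (pr μ q) (pr (unif G) Y.p)) (fun z =>
          ((z.2.1, Y.θ z.2.2) :: CC Y N z.1.2, z.1.1 * (PP Y N z.1.2 * (z.2.1 * Y.y z.2.2)))) ≤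
        H (pr (pr μ q) (pr (unif G) Y.p)) (fun z =>
          (z.1.2, (z.2.1, (Y.θ z.2.2, z.1.1 * (PP Y N z.1.2 * (z.2.1 * Y.y z.2.2)))))) +
        H (pr (pr μ q) (pr (unif G) Y.p)) (fun z =>
          ((CC Y N z.1.2, z.1.1 * PP Y N z.1.2), z.2)) := by
      apply submod' hS
      · intro x y _ _ h
        simp only [Prod.mk.injEq, List.cons.injEq] at h ⊢
        exact ⟨⟨⟨h.2.1, h.2.2.1⟩, by rw [h.1]⟩, h.2.2.2⟩
      · intro x y _ _ h
        simp only [Prod.mk.injEq, List.cons.injEq] at h ⊢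
        refine ⟨⟨⟨by rw [h.2], by rw [h.2]⟩, h.1.1⟩, ?_⟩
        have h3 : ∀ a b c d : G, a * (b * (c * d)) = (a * b) * (c * d) := fun a b c d => by
          simp only [mul_assoc]
        rw [h3, h3, h.1.2, h.2]
      · intro x y _ _ h
        simp only [Prod.mk.injEq] at h ⊢
        exact ⟨⟨h.2.1.1, h.2.1.2, h.1.1⟩, h.2.2⟩
    rw [H_ind hp hα (fun z : G × Rs (G × Y.Ω) N => (CC Y N z.2, z.1 * PP Y N z.2, z.2))
      (fun z => z), H_ind hp hα (fun z : G × Rs (G × Y.Ω) N => (CC Y N z.2, z.1 * PP Y N z.2))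
      (fun z => z)] at a4
    have a5 : H (pr μ q) (fun z : G × Rs (G × Y.Ω) N => (CC Y N z.2, z.1 * PP Y N z.2, z.2)) =
        H μ (fun x => x) + H q (fun x => x) := by
      rw [← H_ind hμ hq]
      apply H_congr hp
      · intro x y _ _ h
        simp only [Prod.mk.injEq] at h ⊢
        obtain ⟨h1, h2, h3⟩ := h
        rw [h3] at h2
        exact ⟨mul_right_cancel h2, h3⟩
      · intro x y _ _ h
        simp only [Prod.mk.injEq] at h ⊢
        exact ⟨by rw [h.2], by rw [h.1, h.2], h.2⟩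
    -- the second space ((r, h), (x, ω))
    have hrh : IsLaw (pr q (unif G)) := pr_law hq hu
    have hxω : IsLaw (pr μ Y.p) := pr_law hμ Y.law
    let e2 : (G × Rs (G × Y.Ω) N) × (G × Y.Ω) ≃ (Rs (G × Y.Ω) N × G) × (G × Y.Ω) :=
      { toFun := fun z => ((z.1.2, z.2.1), (z.1.1, z.2.2))
        invFun := fun z => ((z.2.1, z.1.1), (z.1.2, z.2.2))
        left_inv := fun z => rfl
        right_inv := fun z => rfl }
    have he2 : ∀ x, (pr (pr q (unif G)) (pr μ Y.p)) (e2 x) =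
        (pr (pr μ q) (pr (unif G) Y.p)) x := by
      intro x
      show (q x.1.2 * unif G x.2.1) * (μ x.1.1 * Y.p x.2.2) =
        (μ x.1.1 * q x.1.2) * (unif G x.2.1 * Y.p x.2.2)
      ring
    have a6 : H (pr (pr μ q) (pr (unif G) Y.p)) (fun z =>
          (z.1.2, (z.2.1, (Y.θ z.2.2, z.1.1 * (PP Y N z.1.2 * (z.2.1 * Y.y z.2.2)))))) =
        H (pr (pr q (unif G)) (pr μ Y.p)) (fun z =>
          (z.1, (Y.θ z.2.2, z.2.1 * (PP Y N z.1.1 * z.1.2) * Y.y z.2.2))) := by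
      rw [← H_equiv e2 he2]
      apply H_congr hS
      · intro x y _ _ h
        simp only [Prod.mk.injEq, e2, Equiv.coe_fn_mk] at h ⊢
        obtain ⟨h1, h2, h3, h4⟩ := h
        refine ⟨⟨h1, h2⟩, h3, ?_⟩
        simp only [mul_assoc] at h4 ⊢
        exact h4
      · intro x y _ _ h
        simp only [Prod.mk.injEq, e2, Equiv.coe_fn_mk] at h ⊢
        obtain ⟨⟨h1, h2⟩, h3, h4⟩ := h
        refine ⟨h1, h2, h3, ?_⟩
        simp only [mul_assoc] at h4 ⊢
        exact h4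
    have a7 := markov hrh hxω (fun z : Rs (G × Y.Ω) N × G => PP Y N z.1 * z.2)
      (fun z => z) (fun x y _ _ h => by rw [show x = y from h])
      (fun g (z : G × Y.Ω) => (Y.θ z.2, z.1 * g * Y.y z.2))
    -- uniformity of g
    let e3 : (Rs (G × Y.Ω) N × G) × (G × Y.Ω) ≃ (Rs (G × Y.Ω) N × G) × (G × Y.Ω) :=
      (shiftL (PP Y N)).prodCongr (Equiv.refl _)
    have he3 : ∀ x, (pr (pr q (unif G)) (pr μ Y.p)) (e3 x) =
        (pr (pr q (unif G)) (pr μ Y.p)) x := by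
      intro x
      rfl
    have a8 : H (pr (pr q (unif G)) (pr μ Y.p)) (fun z =>
          (PP Y N z.1.1 * z.1.2, (Y.θ z.2.2, z.2.1 * (PP Y N z.1.1 * z.1.2) * Y.y z.2.2))) =
        H (pr (pr q (unif G)) (pr μ Y.p)) (fun z =>
          (z.1.2, (Y.θ z.2.2, z.2.1 * z.1.2 * Y.y z.2.2))) :=
      H_equiv e3 he3 (fun z : (Rs (G × Y.Ω) N × G) × (G × Y.Ω) =>
          (z.1.2, (Y.θ z.2.2, z.2.1 * z.1.2 * Y.y z.2.2)))
    let e4 : (Rs (G × Y.Ω) N × G) × (G × Y.Ω) ≃ Rs (G × Y.Ω) N × (G × (G × Y.Ω)) :=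
      Equiv.prodAssoc _ _ _
    have he4 : ∀ x, (pr q (pr (unif G) (pr μ Y.p))) (e4 x) =
        (pr (pr q (unif G)) (pr μ Y.p)) x := by
      intro x
      exact (mul_assoc (q x.1.1) (unif G x.1.2) (pr μ Y.p x.2)).symm
    have a9 : H (pr (pr q (unif G)) (pr μ Y.p)) (fun z =>
          (z.1.2, (Y.θ z.2.2, z.2.1 * z.1.2 * Y.y z.2.2))) =
        H (pr (unif G) (pr μ Y.p)) (fun z => (z.1, (Y.θ z.2.2, z.2.1 * z.1 * Y.y z.2.2))) := by
      rw [← H_snd hq (fun z : G × (G × Y.Ω) => (z.1, (Y.θ z.2.2, z.2.1 * z.1 * Y.y z.2.2)))]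
      exact H_equiv e4 he4 (fun z : Rs (G × Y.Ω) N × (G × (G × Y.Ω)) =>
        (z.2.1, (Y.θ z.2.2.2, z.2.2.1 * z.2.1 * Y.y z.2.2.2)))
    have a10 : H (pr q (unif G)) (fun z => PP Y N z.1 * z.2) = H (unif G) (fun x => x) := by
      rw [← H_snd hq (fun x : G => x)]
      exact H_equiv (p := pr q (unif G)) (q := pr q (unif G)) (shiftL (PP Y N)) (fun x => rfl)
        (fun z : Rs (G × Y.Ω) N × G => z.2)
    have a11 : H (pr q (unif G)) (fun z => z) = H q (fun x => x) + H (unif G) (fun x => x) := by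
      rw [← H_ind hq hu]
    have a12 : H (pr (unif G) (pr μ Y.p)) (fun z => (z.1, Y.θ z.2.2)) =
        H (unif G) (fun x => x) + H Y.p Y.θ := by
      rw [← H_snd hμ Y.θ]
      exact H_ind hu hxω (fun x => x) (fun z : G × Y.Ω => Y.θ z.2)
    have a13 : H (pr (unif G) Y.p) (fun z => (z.1, Y.θ z.2)) =
        H (unif G) (fun x => x) + H Y.p Y.θ := H_ind hu Y.law (fun x => x) Y.θ
    have e : eff μ Y = H (pr (unif G) (pr μ Y.p))
        (fun z => (z.1, (Y.θ z.2.2, z.2.1 * z.1 * Y.y z.2.2))) -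
        H (pr (unif G) (pr μ Y.p)) (fun z => (z.1, Y.θ z.2.2)) - H μ (fun x => x) := rfl
    rw [a1, a2, a3]
    push_cast
    linarith

end Pool.Agent.TH408.GR.Chain
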