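import Pool.Agent.TH408.GR.Chain1

/-!
# Information along the trajectory of the third point
-/

set_option autoImplicit false
set_option linter.unusedSectionVars false

open Finset
open scoped Classical

namespace Pool.Agent.TH408.GR.Chain

open Pool.Agent.W904.AK Pool.Agent.TH408.GR

variable {G P : Type} [Group G] [Fintype G] [Fintype P] [MulAction G P]

/-- `V = X ρ P_N`. -/
def VV (A : Act G P) (Y : Model G) (N : ℕ) (z : G × (G × Rs (G × Y.Ω) N)) : G :=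
  z.1 * (z.2.1 * A.k * z.2.1⁻¹) * PP Y N z.2.2

/-- The information of `V` about the trajectory of the third point, given the public data. -/
noncomputable def QQ (A : Act G P) (μ : G → ℝ) (Y : Model G) (N : ℕ) : ℝ :=
  (H (pr μ (pZ Y N)) (fun z => (Pub A Y N z.2, CT A Y N z.2)) -
      H (pr μ (pZ Y N)) (fun z => Pub A Y N z.2)) -
    (H (pr μ (pZ Y N)) (fun z => (Pub A Y N z.2, CT A Y N z.2, VV A Y N z)) -
      H (pr μ (pZ Y N)) (fun z => (Pub A Y N z.2, VV A Y N z)))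

lemma AB_head (A : Act G P) (Y : Model G) (N : ℕ) (z : G × Rs (G × Y.Ω) N) :
    (AB A Y N z).head? = some (UU Y N z • A.e0, UU Y N z • A.e1) := by
  cases N with
  | zero => simp [AB, UU, PP]
  | succ N => rfl

lemma CT_head (A : Act G P) (Y : Model G) (N : ℕ) (z : G × Rs (G × Y.Ω) N) :
    (CT A Y N z).head? = some (UU Y N z • A.e2) := by
  cases N with
  | zero => simp [CT, UU, PP]
  | succ N => rfl

lemma AB_det (A : Act G P) (Y : Model G) (N : ℕ) {z z' : G × Rs (G × Y.Ω) N}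
    (h : AB A Y N z = AB A Y N z') :
    UU Y N z • A.e0 = UU Y N z' • A.e0 ∧ UU Y N z • A.e1 = UU Y N z' • A.e1 := by
  have h1 := AB_head A Y N z
  rw [h, AB_head] at h1
  simp only [Option.some.injEq, Prod.mk.injEq] at h1
  exact ⟨h1.1.symm, h1.2.symm⟩

lemma CT_det (A : Act G P) (Y : Model G) (N : ℕ) {z z' : G × Rs (G × Y.Ω) N}
    (h : CT A Y N z = CT A Y N z') : UU Y N z • A.e2 = UU Y N z' • A.e2 := by
  have h1 := CT_head A Y N z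
  rw [h, CT_head] at h1
  simp only [Option.some.injEq] at h1
  exact h1.symm

lemma QQ_zero (A : Act G P) (μ : G → ℝ) (hμ : IsLaw μ) (Y : Model G) : QQ A μ Y 0 = 0 := by
  have hu : IsLaw (unif G) := unif_law G
  have hα : IsLaw (pr (unif G) Y.p) := pr_law hu Y.law
  have hZ : IsLaw (pZ Y 0) := pr_law hu (pR_law hα 0)
  have hp : IsLaw (pr μ (pZ Y 0)) := pr_law hμ hZ
  have h1 : H (pr μ (pZ Y 0)) (fun z => (Pub A Y 0 z.2, CT A Y 0 z.2)) =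
      H (pr μ (pZ Y 0)) (fun z => Pub A Y 0 z.2) := by
    apply H_congr hp
    · exact Det.fst _ _ _
    · intro x y _ _ h
      simp only [Pub, CT, Prod.mk.injEq] at h ⊢
      exact ⟨h, by rw [h.2.2]⟩
  have h2 : H (pr μ (pZ Y 0)) (fun z => (Pub A Y 0 z.2, CT A Y 0 z.2, VV A Y 0 z)) =
      H (pr μ (pZ Y 0)) (fun z => (Pub A Y 0 z.2, VV A Y 0 z)) := by
    apply H_congr hp
    · intro x y _ _ h
      simp only [Prod.mk.injEq] at h ⊢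
      exact ⟨h.1, h.2.2⟩
    · intro x y _ _ h
      simp only [Pub, CT, Prod.mk.injEq] at h ⊢
      exact ⟨h.1, by rw [h.1.2.2], h.2⟩
  unfold QQ
  rw [h1, h2]
  ring

section Step

variable (A : Act G P) (μ : G → ℝ) (Y : Model G) (N : ℕ)

/-- The new public data. -/
def nPub (w : G × Rs (G × Y.Ω) N) (s : G × Y.Ω) :
    List (G × Y.Θ) × List (P × P) × P :=
  ((s.1, Y.θ s.2) :: CC Y N w.2,
    (((PP Y N w.2 * (s.1 * Y.y s.2))⁻¹ * w.1) • A.e0,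
      ((PP Y N w.2 * (s.1 * Y.y s.2))⁻¹ * w.1) • A.e1) :: AB A Y N w, w.1 • A.e2)

/-- The new trajectory of the third point. -/
def nCT (w : G × Rs (G × Y.Ω) N) (s : G × Y.Ω) : List P :=
  ((PP Y N w.2 * (s.1 * Y.y s.2))⁻¹ * w.1) • A.e2 :: CT A Y N w

variable {A μ Y N}

lemma inv_eq (w : G × Rs (G × Y.Ω) N) (s : G × Y.Ω) :
    (PP Y N w.2 * (s.1 * Y.y s.2))⁻¹ * w.1 = (Y.y s.2)⁻¹ * (s.1⁻¹ * UU Y N w) := by
  unfold UU
  simp only [mul_inv_rev, mul_assoc]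

theorem step (hμ : IsLaw μ) : QQ A μ Y (N + 1) ≤ QQ A μ Y N + jay A μ Y := by
  have hu : IsLaw (unif G) := unif_law G
  have hα : IsLaw (pr (unif G) Y.p) := pr_law hu Y.law
  have hRN : IsLaw (pR (pr (unif G) Y.p) N) := pR_law hα N
  have hZ : IsLaw (pZ Y N) := pr_law hu hRN
  have hp : IsLaw (pr μ (pZ Y N)) := pr_law hμ hZ
  have hS : IsLaw (pr (pr μ (pZ Y N)) (pr (unif G) Y.p)) := pr_law hp hα
  -- transfer to the product space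
  let e1 : G × (G × Rs (G × Y.Ω) (N + 1)) ≃ (G × (G × Rs (G × Y.Ω) N)) × (G × Y.Ω) :=
    { toFun := fun z => ((z.1, (z.2.1, z.2.2.1)), z.2.2.2)
      invFun := fun z => (z.1.1, (z.1.2.1, (z.1.2.2, z.2)))
      left_inv := fun z => rfl
      right_inv := fun z => rfl }
  have he1 : ∀ x, (pr (pr μ (pZ Y N)) (pr (unif G) Y.p)) (e1 x) =
      (pr μ (pZ Y (N + 1))) x := by
    intro x
    show (μ x.1 * (unif G x.2.1 * pR (pr (unif G) Y.p) N x.2.2.1)) *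
        (pr (unif G) Y.p) x.2.2.2 = μ x.1 * (unif G x.2.1 * (pR (pr (unif G) Y.p) N x.2.2.1 *
          (pr (unif G) Y.p) x.2.2.2))
    generalize (pr (unif G) Y.p) x.2.2.2 = c
    ring
  have b1 : H (pr μ (pZ Y (N + 1))) (fun z => (Pub A Y (N + 1) z.2, CT A Y (N + 1) z.2)) =
      H (pr (pr μ (pZ Y N)) (pr (unif G) Y.p)) (fun z => (nPub A Y N z.1.2 z.2,
        nCT A Y N z.1.2 z.2)) :=
    H_equiv e1 he1 (fun z : (G × (G × Rs (G × Y.Ω) N)) × (G × Y.Ω) =>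
      (nPub A Y N z.1.2 z.2, nCT A Y N z.1.2 z.2))
  have b2 : H (pr μ (pZ Y (N + 1))) (fun z => Pub A Y (N + 1) z.2) =
      H (pr (pr μ (pZ Y N)) (pr (unif G) Y.p)) (fun z => nPub A Y N z.1.2 z.2) :=
    H_equiv e1 he1 (fun z : (G × (G × Rs (G × Y.Ω) N)) × (G × Y.Ω) => nPub A Y N z.1.2 z.2)
  have b3 : H (pr μ (pZ Y (N + 1))) (fun z => (Pub A Y (N + 1) z.2, CT A Y (N + 1) z.2,
      VV A Y (N + 1) z)) =
      H (pr (pr μ (pZ Y N)) (pr (unif G) Y.p)) (fun z => (nPub A Y N z.1.2 z.2,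
        nCT A Y N z.1.2 z.2, z.1.1 * (z.1.2.1 * A.k * z.1.2.1⁻¹) *
          (PP Y N z.1.2.2 * (z.2.1 * Y.y z.2.2)))) :=
    H_equiv e1 he1 (fun z : (G × (G × Rs (G × Y.Ω) N)) × (G × Y.Ω) =>
      (nPub A Y N z.1.2 z.2, nCT A Y N z.1.2 z.2, z.1.1 * (z.1.2.1 * A.k * z.1.2.1⁻¹) *
          (PP Y N z.1.2.2 * (z.2.1 * Y.y z.2.2))))
  have b4 : H (pr μ (pZ Y (N + 1))) (fun z => (Pub A Y (N + 1) z.2, VV A Y (N + 1) z)) =
      H (pr (pr μ (pZ Y N)) (pr (unif G) Y.p)) (fun z => (nPub A Y N z.1.2 z.2,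
        z.1.1 * (z.1.2.1 * A.k * z.1.2.1⁻¹) * (PP Y N z.1.2.2 * (z.2.1 * Y.y z.2.2)))) :=
    H_equiv e1 he1 (fun z : (G × (G × Rs (G × Y.Ω) N)) × (G × Y.Ω) =>
      (nPub A Y N z.1.2 z.2, z.1.1 * (z.1.2.1 * A.k * z.1.2.1⁻¹) *
          (PP Y N z.1.2.2 * (z.2.1 * Y.y z.2.2))))
  -- `s` determines everything new
  have hdet : ∀ (w w' : G × Rs (G × Y.Ω) N) (s : G × Y.Ω), Pub A Y N w = Pub A Y N w' →
      UU Y N w • A.e0 = UU Y N w' • A.e0 → UU Y N w • A.e1 = UU Y N w' • A.e1 →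
      nPub A Y N w s = nPub A Y N w' s := by
    intro w w' s h h0 h1
    unfold nPub
    unfold Pub at h
    simp only [Prod.mk.injEq] at h
    rw [inv_eq, inv_eq, h.1, h.2.1, h.2.2]
    simp only [mul_smul, h0, h1]
  -- (g1)
  have g1 : H (pr (pr μ (pZ Y N)) (pr (unif G) Y.p)) (fun z => (nPub A Y N z.1.2 z.2,
        CT A Y N z.1.2)) + H (pr μ (pZ Y N)) (fun z => Pub A Y N z.2) ≤
      H (pr (pr μ (pZ Y N)) (pr (unif G) Y.p)) (fun z => nPub A Y N z.1.2 z.2) +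
      H (pr μ (pZ Y N)) (fun z => (Pub A Y N z.2, CT A Y N z.2)) := by
    rw [← H_fst hα (fun z : G × (G × Rs (G × Y.Ω) N) => Pub A Y N z.2),
      ← H_fst hα (fun z : G × (G × Rs (G × Y.Ω) N) => (Pub A Y N z.2, CT A Y N z.2))]
    apply submod' hS
    · intro x y _ _ h
      simp only [nPub, Pub, Prod.mk.injEq, List.cons.injEq] at h ⊢
      exact ⟨h.1.2, h.2.1.2, h.2.2⟩
    · exact Det.fst _ _ _
    · intro x y _ _ h
      simp only [Prod.mk.injEq] at h ⊢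
      exact ⟨h.1, h.2.2⟩
  -- (g2)
  have g2 : H (pr μ (pZ Y N)) (fun z => (Pub A Y N z.2, CT A Y N z.2, VV A Y N z)) +
        H (pr (pr μ (pZ Y N)) (pr (unif G) Y.p)) (fun z => (nPub A Y N z.1.2 z.2,
          z.1.1 * (z.1.2.1 * A.k * z.1.2.1⁻¹) * (PP Y N z.1.2.2 * (z.2.1 * Y.y z.2.2)))) ≤
      H (pr (pr μ (pZ Y N)) (pr (unif G) Y.p)) (fun z => (nPub A Y N z.1.2 z.2,
        CT A Y N z.1.2, z.1.1 * (z.1.2.1 * A.k * z.1.2.1⁻¹) *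
          (PP Y N z.1.2.2 * (z.2.1 * Y.y z.2.2)))) +
      H (pr μ (pZ Y N)) (fun z => (Pub A Y N z.2, VV A Y N z)) := by
    have c1 : H (pr (pr μ (pZ Y N)) (pr (unif G) Y.p)) (fun z =>
          ((Pub A Y N z.1.2, CT A Y N z.1.2, VV A Y N z.1), z.2)) +
        H (pr (pr μ (pZ Y N)) (pr (unif G) Y.p)) (fun z => (nPub A Y N z.1.2 z.2,
          z.1.1 * (z.1.2.1 * A.k * z.1.2.1⁻¹) * (PP Y N z.1.2.2 * (z.2.1 * Y.y z.2.2)))) ≤
      H (pr (pr μ (pZ Y N)) (pr (unif G) Y.p)) (fun z => (nPub A Y N z.1.2 z.2,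
        CT A Y N z.1.2, z.1.1 * (z.1.2.1 * A.k * z.1.2.1⁻¹) *
          (PP Y N z.1.2.2 * (z.2.1 * Y.y z.2.2)))) +
      H (pr (pr μ (pZ Y N)) (pr (unif G) Y.p)) (fun z =>
        ((Pub A Y N z.1.2, VV A Y N z.1), z.2)) := by
      apply submod' hS
      · intro x y _ _ h
        simp only [Prod.mk.injEq] at h ⊢
        exact ⟨h.1, h.2.2⟩
      · intro x y _ _ h
        simp only [Prod.mk.injEq] at h ⊢
        obtain ⟨⟨h1, h2⟩, h3⟩ := h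
        have h4 : AB A Y N x.1.2 = AB A Y N y.1.2 := by
          have := h1
          unfold Pub at this
          simp only [Prod.mk.injEq] at this
          exact this.2.1
        obtain ⟨h5, h6⟩ := AB_det A Y N h4
        refine ⟨?_, ?_⟩
        · rw [h3]
          exact hdet _ _ _ h1 h5 h6
        · unfold VV at h2
          rw [← mul_assoc (x.1.1 * (x.1.2.1 * A.k * x.1.2.1⁻¹)) (PP Y N x.1.2.2),
            ← mul_assoc (y.1.1 * (y.1.2.1 * A.k * y.1.2.1⁻¹)) (PP Y N y.1.2.2), h2, h3]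
      · intro x y _ _ h
        simp only [Prod.mk.injEq] at h ⊢
        exact ⟨⟨h.2.1.1, h.1.2.1, h.2.1.2⟩, h.2.2⟩
    rw [H_ind hp hα (fun z : G × (G × Rs (G × Y.Ω) N) =>
        (Pub A Y N z.2, CT A Y N z.2, VV A Y N z)) (fun z => z),
      H_ind hp hα (fun z : G × (G × Rs (G × Y.Ω) N) =>
        (Pub A Y N z.2, VV A Y N z)) (fun z => z)] at c1
    linarith
  -- (g3)
  have g3 : H (pr (pr μ (pZ Y N)) (pr (unif G) Y.p)) (fun z => (nPub A Y N z.1.2 z.2,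
        nCT A Y N z.1.2 z.2)) -
      H (pr (pr μ (pZ Y N)) (pr (unif G) Y.p)) (fun z => (nPub A Y N z.1.2 z.2,
        CT A Y N z.1.2)) ≤ eta A Y := by
    -- the triple in the coordinates of the new `y`
    let T : G → P × P × P := fun u => (u • A.e0, u • A.e1, u • A.e2)
    have hS1 : IsLaw (pr (pr (pr μ (pZ Y N)) (unif G)) Y.p) := pr_law (pr_law hp hu) Y.law
    have d1 : H (pr (pr μ (pZ Y N)) (pr (unif G) Y.p)) (fun z => (nPub A Y N z.1.2 z.2,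
          nCT A Y N z.1.2 z.2)) +
        H (pr (pr μ (pZ Y N)) (pr (unif G) Y.p)) (fun z =>
          (T (z.2.1⁻¹ * UU Y N z.1.2), (Y.θ z.2.2, (Y.y z.2.2)⁻¹ • (T (z.2.1⁻¹ * UU Y N z.1.2)).1,
            (Y.y z.2.2)⁻¹ • (T (z.2.1⁻¹ * UU Y N z.1.2)).2.1))) ≤
        H (pr (pr μ (pZ Y N)) (pr (unif G) Y.p)) (fun z => (nPub A Y N z.1.2 z.2,
          CT A Y N z.1.2)) +
        H (pr (pr μ (pZ Y N)) (pr (unif G) Y.p)) (fun z =>
          (T (z.2.1⁻¹ * UU Y N z.1.2), (Y.θ z.2.2, (Y.y z.2.2)⁻¹ • (T (z.2.1⁻¹ * UU Y N z.1.2)).1,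
            (Y.y z.2.2)⁻¹ • (T (z.2.1⁻¹ * UU Y N z.1.2)).2.1,
            (Y.y z.2.2)⁻¹ • (T (z.2.1⁻¹ * UU Y N z.1.2)).2.2))) := by
      apply submod' hS
      · intro x y _ _ h
        simp only [nPub, Prod.mk.injEq, List.cons.injEq] at h
        obtain ⟨⟨⟨⟨h1, h2⟩, h3⟩, ⟨⟨h4, h5⟩, h6⟩, h7⟩, h8⟩ := h
        obtain ⟨h9, h10⟩ := AB_det A Y N h6
        have h11 := CT_det A Y N h8
        simp only [inv_eq, mul_smul] at h4 h5
        simp only [T, mul_smul, Prod.mk.injEq]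
        rw [h1, h9, h10, h11]
        rw [h1, h9] at h4
        rw [h1, h10] at h5
        exact ⟨⟨rfl, rfl, rfl⟩, h2, h4, h5⟩
      · intro x y _ _ h
        simp only [Prod.mk.injEq] at h ⊢
        exact ⟨h.1, h.2.1, h.2.2.1, h.2.2.2.1⟩
      · intro x y _ _ h
        simp only [Prod.mk.injEq] at h ⊢
        refine ⟨h.1.1, ?_⟩
        unfold nCT
        have := h.2.2.2.2.2
        rw [h.1.2, inv_eq, inv_eq, List.cons.injEq]
        refine ⟨?_, rfl⟩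
        rw [mul_smul, mul_smul (Y.y y.2.2)⁻¹]
        exact this
    let e3 : (G × (G × Rs (G × Y.Ω) N)) × (G × Y.Ω) ≃ ((G × (G × Rs (G × Y.Ω) N)) × G) × Y.Ω :=
      (Equiv.prodAssoc _ _ _).symm
    have he3 : ∀ x, (pr (pr (pr μ (pZ Y N)) (unif G)) Y.p) (e3 x) =
        (pr (pr μ (pZ Y N)) (pr (unif G) Y.p)) x := by
      intro x
      exact mul_assoc (pr μ (pZ Y N) x.1) (unif G x.2.1) (Y.p x.2.2)
    have d2 : H (pr (pr μ (pZ Y N)) (pr (unif G) Y.p)) (fun z =>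
          (T (z.2.1⁻¹ * UU Y N z.1.2), (Y.θ z.2.2, (Y.y z.2.2)⁻¹ • (T (z.2.1⁻¹ * UU Y N z.1.2)).1,
            (Y.y z.2.2)⁻¹ • (T (z.2.1⁻¹ * UU Y N z.1.2)).2.1))) =
        H (pr (pr (pr μ (pZ Y N)) (unif G)) Y.p) (fun z =>
          (T (z.1.2⁻¹ * UU Y N z.1.1.2), (Y.θ z.2, (Y.y z.2)⁻¹ • (T (z.1.2⁻¹ * UU Y N z.1.1.2)).1,
            (Y.y z.2)⁻¹ • (T (z.1.2⁻¹ * UU Y N z.1.1.2)).2.1))) :=
      H_equiv e3 he3 (fun z : ((G × (G × Rs (G × Y.Ω) N)) × G) × Y.Ω =>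
          (T (z.1.2⁻¹ * UU Y N z.1.1.2), (Y.θ z.2, (Y.y z.2)⁻¹ • (T (z.1.2⁻¹ * UU Y N z.1.1.2)).1,
            (Y.y z.2)⁻¹ • (T (z.1.2⁻¹ * UU Y N z.1.1.2)).2.1)))
    have d3 : H (pr (pr μ (pZ Y N)) (pr (unif G) Y.p)) (fun z =>
          (T (z.2.1⁻¹ * UU Y N z.1.2), (Y.θ z.2.2, (Y.y z.2.2)⁻¹ • (T (z.2.1⁻¹ * UU Y N z.1.2)).1,
            (Y.y z.2.2)⁻¹ • (T (z.2.1⁻¹ * UU Y N z.1.2)).2.1,
            (Y.y z.2.2)⁻¹ • (T (z.2.1⁻¹ * UU Y N z.1.2)).2.2))) =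
        H (pr (pr (pr μ (pZ Y N)) (unif G)) Y.p) (fun z =>
          (T (z.1.2⁻¹ * UU Y N z.1.1.2), (Y.θ z.2, (Y.y z.2)⁻¹ • (T (z.1.2⁻¹ * UU Y N z.1.1.2)).1,
            (Y.y z.2)⁻¹ • (T (z.1.2⁻¹ * UU Y N z.1.1.2)).2.1,
            (Y.y z.2)⁻¹ • (T (z.1.2⁻¹ * UU Y N z.1.1.2)).2.2))) :=
      H_equiv e3 he3 (fun z : ((G × (G × Rs (G × Y.Ω) N)) × G) × Y.Ω =>
          (T (z.1.2⁻¹ * UU Y N z.1.1.2), (Y.θ z.2, (Y.y z.2)⁻¹ • (T (z.1.2⁻¹ * UU Y N z.1.1.2)).1,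
            (Y.y z.2)⁻¹ • (T (z.1.2⁻¹ * UU Y N z.1.1.2)).2.1,
            (Y.y z.2)⁻¹ • (T (z.1.2⁻¹ * UU Y N z.1.1.2)).2.2)))
    have hpu : IsLaw (pr (pr μ (pZ Y N)) (unif G)) := pr_law hp hu
    have m1 := markov hpu Y.law
      (fun z : (G × (G × Rs (G × Y.Ω) N)) × G => T (z.2⁻¹ * UU Y N z.1.2))
      (fun z => z.2⁻¹ * UU Y N z.1.2) (fun x y _ _ h => by
        show T _ = T _
        rw [show x.2⁻¹ * UU Y N x.1.2 = y.2⁻¹ * UU Y N y.1.2 from h])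
      (fun t ω => (Y.θ ω, (Y.y ω)⁻¹ • t.1, (Y.y ω)⁻¹ • t.2.1))
    have m2 := markov hpu Y.law
      (fun z : (G × (G × Rs (G × Y.Ω) N)) × G => T (z.2⁻¹ * UU Y N z.1.2))
      (fun z => z.2⁻¹ * UU Y N z.1.2) (fun x y _ _ h => by
        show T _ = T _
        rw [show x.2⁻¹ * UU Y N x.1.2 = y.2⁻¹ * UU Y N y.1.2 from h])
      (fun t ω => (Y.θ ω, (Y.y ω)⁻¹ • t.1, (Y.y ω)⁻¹ • t.2.1, (Y.y ω)⁻¹ • t.2.2))
    -- uniformity of `h⁻¹ U`
    let e4 : ((G × (G × Rs (G × Y.Ω) N)) × G) × Y.Ω ≃ ((G × (G × Rs (G × Y.Ω) N)) × G) × Y.Ω :=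
      Equiv.prodCongr
        { toFun := fun z => (z.1, z.2⁻¹ * UU Y N z.1.2)
          invFun := fun z => (z.1, UU Y N z.1.2 * z.2⁻¹)
          left_inv := fun z => by ext <;> simp
          right_inv := fun z => by ext <;> simp } (Equiv.refl _)
    have he4 : ∀ x, (pr (pr (pr μ (pZ Y N)) (unif G)) Y.p) (e4 x) =
        (pr (pr (pr μ (pZ Y N)) (unif G)) Y.p) x := by
      intro x
      rfl
    have n1 : H (pr (pr (pr μ (pZ Y N)) (unif G)) Y.p) (fun z =>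
        (z.1.2⁻¹ * UU Y N z.1.1.2, (Y.θ z.2, (Y.y z.2)⁻¹ • (T (z.1.2⁻¹ * UU Y N z.1.1.2)).1,
            (Y.y z.2)⁻¹ • (T (z.1.2⁻¹ * UU Y N z.1.1.2)).2.1))) =
        H (pr (unif G) Y.p) (fun z => (z.1, (Y.θ z.2, (Y.y z.2)⁻¹ • z.1 • A.e0,
          (Y.y z.2)⁻¹ • z.1 • A.e1))) := by
      rw [← H_snd hp (fun z : G × Y.Ω => (z.1, (Y.θ z.2, (Y.y z.2)⁻¹ • z.1 • A.e0,
          (Y.y z.2)⁻¹ • z.1 • A.e1)))]
      rw [← H_equiv e3.symm (p := pr (pr (pr μ (pZ Y N)) (unif G)) Y.p)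
        (q := pr (pr μ (pZ Y N)) (pr (unif G) Y.p)) (fun x => by
          rw [← he3, Equiv.apply_symm_apply])]
      exact H_equiv e4 he4 (fun z : ((G × (G × Rs (G × Y.Ω) N)) × G) × Y.Ω =>
        (z.1.2, (Y.θ z.2, (Y.y z.2)⁻¹ • z.1.2 • A.e0, (Y.y z.2)⁻¹ • z.1.2 • A.e1)))
    have n2 : H (pr (pr (pr μ (pZ Y N)) (unif G)) Y.p) (fun z =>
        (z.1.2⁻¹ * UU Y N z.1.1.2, (Y.θ z.2, (Y.y z.2)⁻¹ • (T (z.1.2⁻¹ * UU Y N z.1.1.2)).1,
            (Y.y z.2)⁻¹ • (T (z.1.2⁻¹ * UU Y N z.1.1.2)).2.1,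
            (Y.y z.2)⁻¹ • (T (z.1.2⁻¹ * UU Y N z.1.1.2)).2.2))) =
        H (pr (unif G) Y.p) (fun z => (z.1, (Y.θ z.2, (Y.y z.2)⁻¹ • z.1 • A.e0,
          (Y.y z.2)⁻¹ • z.1 • A.e1, (Y.y z.2)⁻¹ • z.1 • A.e2))) := by
      rw [← H_snd hp (fun z : G × Y.Ω => (z.1, (Y.θ z.2, (Y.y z.2)⁻¹ • z.1 • A.e0,
          (Y.y z.2)⁻¹ • z.1 • A.e1, (Y.y z.2)⁻¹ • z.1 • A.e2)))]
      rw [← H_equiv e3.symm (p := pr (pr (pr μ (pZ Y N)) (unif G)) Y.p)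
        (q := pr (pr μ (pZ Y N)) (pr (unif G) Y.p)) (fun x => by
          rw [← he3, Equiv.apply_symm_apply])]
      exact H_equiv e4 he4 (fun z : ((G × (G × Rs (G × Y.Ω) N)) × G) × Y.Ω =>
        (z.1.2, (Y.θ z.2, (Y.y z.2)⁻¹ • z.1.2 • A.e0, (Y.y z.2)⁻¹ • z.1.2 • A.e1,
          (Y.y z.2)⁻¹ • z.1.2 • A.e2)))
    have he : eta A Y = H (pr (unif G) Y.p) (fun z => (z.1, (Y.θ z.2, (Y.y z.2)⁻¹ • z.1 • A.e0,
      (Y.y z.2)⁻¹ • z.1 • A.e1, (Y.y z.2)⁻¹ • z.1 • A.e2))) -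
      H (pr (unif G) Y.p) (fun z => (z.1, (Y.θ z.2, (Y.y z.2)⁻¹ • z.1 • A.e0,
      (Y.y z.2)⁻¹ • z.1 • A.e1))) := rfl
    rw [he]
    linarith
  -- (g4)
  have g4 : eta A Y - jay A μ Y ≤
      H (pr (pr μ (pZ Y N)) (pr (unif G) Y.p)) (fun z => (nPub A Y N z.1.2 z.2,
        nCT A Y N z.1.2 z.2, z.1.1 * (z.1.2.1 * A.k * z.1.2.1⁻¹) *
          (PP Y N z.1.2.2 * (z.2.1 * Y.y z.2.2)))) -
      H (pr (pr μ (pZ Y N)) (pr (unif G) Y.p)) (fun z => (nPub A Y N z.1.2 z.2,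
        CT A Y N z.1.2, z.1.1 * (z.1.2.1 * A.k * z.1.2.1⁻¹) *
          (PP Y N z.1.2.2 * (z.2.1 * Y.y z.2.2)))) := by
    -- `φ = (g, u')`
    let φ : (G × Rs (G × Y.Ω) N) × G → G × G := fun w =>
      (w.1.1 * A.k * w.1.1⁻¹ * PP Y N w.1.2 * w.2, w.2⁻¹ * UU Y N w.1)
    let f2 : G × G → G × Y.Ω → Y.Θ × P × P × G := fun t s =>
      (Y.θ s.2, (Y.y s.2)⁻¹ • t.2 • A.e0, (Y.y s.2)⁻¹ • t.2 • A.e1, s.1 * t.1 * Y.y s.2)
    let f1 : G × G → G × Y.Ω → Y.Θ × P × P × G × P := fun t s =>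
      (Y.θ s.2, (Y.y s.2)⁻¹ • t.2 • A.e0, (Y.y s.2)⁻¹ • t.2 • A.e1, s.1 * t.1 * Y.y s.2,
        (Y.y s.2)⁻¹ • t.2 • A.e2)
    have hV : ∀ z : (G × (G × Rs (G × Y.Ω) N)) × (G × Y.Ω),
        z.1.1 * (z.1.2.1 * A.k * z.1.2.1⁻¹) * (PP Y N z.1.2.2 * (z.2.1 * Y.y z.2.2)) =
        z.1.1 * (φ (z.1.2, z.2.1)).1 * Y.y z.2.2 := by
      intro z
      simp only [φ, mul_assoc]
    have k1 : H (pr (pr μ (pZ Y N)) (pr (unif G) Y.p)) (fun z =>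
          ((z.1.2, z.2.1), f1 (φ (z.1.2, z.2.1)) (z.1.1, z.2.2))) +
        H (pr (pr μ (pZ Y N)) (pr (unif G) Y.p)) (fun z => (nPub A Y N z.1.2 z.2,
          CT A Y N z.1.2, z.1.1 * (z.1.2.1 * A.k * z.1.2.1⁻¹) *
          (PP Y N z.1.2.2 * (z.2.1 * Y.y z.2.2)))) ≤
        H (pr (pr μ (pZ Y N)) (pr (unif G) Y.p)) (fun z => (nPub A Y N z.1.2 z.2,
          nCT A Y N z.1.2 z.2, z.1.1 * (z.1.2.1 * A.k * z.1.2.1⁻¹) *
          (PP Y N z.1.2.2 * (z.2.1 * Y.y z.2.2)))) +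
        H (pr (pr μ (pZ Y N)) (pr (unif G) Y.p)) (fun z =>
          ((z.1.2, z.2.1), f2 (φ (z.1.2, z.2.1)) (z.1.1, z.2.2))) := by
      apply submod' hS
      · intro x y _ _ h
        simp only [nCT, Prod.mk.injEq, List.cons.injEq] at h ⊢
        exact ⟨h.1, h.2.1.2, h.2.2⟩
      · intro x y _ _ h
        simp only [hV] at h ⊢
        simp only [f2, Prod.mk.injEq] at h ⊢
        obtain ⟨⟨h1, h2⟩, h3, h4, h5, h6⟩ := h
        refine ⟨?_, by rw [h1], h6⟩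
        simp only [φ] at h4 h5
        unfold nPub
        rw [inv_eq, inv_eq, mul_smul, mul_smul (Y.y x.2.2)⁻¹, mul_smul (Y.y y.2.2)⁻¹,
          mul_smul (Y.y y.2.2)⁻¹, h4, h5, h1, h2, h3]
      · intro x y _ _ h
        simp only [hV] at h ⊢
        simp only [f1, f2, Prod.mk.injEq] at h ⊢
        obtain ⟨⟨h1, h2, h3⟩, ⟨h4, h5⟩, h6, h7, h8, h9⟩ := h
        refine ⟨⟨h4, h5⟩, h6, h7, h8, h9, ?_⟩
        unfold nCT at h2
        simp only [List.cons.injEq] at h2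
        have h10 := h2.1
        rw [inv_eq, inv_eq, mul_smul, mul_smul (Y.y y.2.2)⁻¹] at h10
        exact h10
    -- the second space `(((u, r), h), (x, ω))`
    have hD : IsLaw (pr (pZ Y N) (unif G)) := pr_law hZ hu
    have hxω : IsLaw (pr μ Y.p) := pr_law hμ Y.law
    let e2 : (G × (G × Rs (G × Y.Ω) N)) × (G × Y.Ω) ≃ ((G × Rs (G × Y.Ω) N) × G) × (G × Y.Ω) :=
      { toFun := fun z => ((z.1.2, z.2.1), (z.1.1, z.2.2))
        invFun := fun z => ((z.2.1, z.1.1), (z.1.2, z.2.2))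
        left_inv := fun z => rfl
        right_inv := fun z => rfl }
    have he2 : ∀ x, (pr (pr (pZ Y N) (unif G)) (pr μ Y.p)) (e2 x) =
        (pr (pr μ (pZ Y N)) (pr (unif G) Y.p)) x := by
      intro x
      show (pZ Y N x.1.2 * unif G x.2.1) * (μ x.1.1 * Y.p x.2.2) =
        (μ x.1.1 * pZ Y N x.1.2) * (unif G x.2.1 * Y.p x.2.2)
      ring
    have k2 : H (pr (pr μ (pZ Y N)) (pr (unif G) Y.p)) (fun z =>
          ((z.1.2, z.2.1), f1 (φ (z.1.2, z.2.1)) (z.1.1, z.2.2))) =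
        H (pr (pr (pZ Y N) (unif G)) (pr μ Y.p)) (fun z => (z.1, f1 (φ z.1) z.2)) :=
      H_equiv e2 he2 (fun z : ((G × Rs (G × Y.Ω) N) × G) × (G × Y.Ω) => (z.1, f1 (φ z.1) z.2))
    have k3 : H (pr (pr μ (pZ Y N)) (pr (unif G) Y.p)) (fun z =>
          ((z.1.2, z.2.1), f2 (φ (z.1.2, z.2.1)) (z.1.1, z.2.2))) =
        H (pr (pr (pZ Y N) (unif G)) (pr μ Y.p)) (fun z => (z.1, f2 (φ z.1) z.2)) :=
      H_equiv e2 he2 (fun z : ((G × Rs (G × Y.Ω) N) × G) × (G × Y.Ω) => (z.1, f2 (φ z.1) z.2))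
    have m1 := markov hD hxω φ (fun z => z) (fun x y _ _ h => by
      rw [show x = y from h]) f1
    have m2 := markov hD hxω φ (fun z => z) (fun x y _ _ h => by
      rw [show x = y from h]) f2
    -- uniformity of `(g, u')`
    let e3 : (G × Rs (G × Y.Ω) N) × G ≃ Rs (G × Y.Ω) N × (G × G) :=
      { toFun := fun w => (w.1.2, φ w)
        invFun := fun w => ((w.2.1 * w.2.2 * A.k⁻¹, w.1),
          (PP Y N w.1)⁻¹ * (w.2.1 * w.2.2 * A.k⁻¹) * w.2.2⁻¹)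
        left_inv := fun w => by
          obtain ⟨⟨u, r⟩, h⟩ := w
          simp only [φ, UU, Prod.mk.injEq]
          refine ⟨⟨?_, trivial⟩, ?_⟩
          · group
          · group
        right_inv := fun w => by
          obtain ⟨r, ⟨g, u⟩⟩ := w
          simp only [φ, UU, Prod.mk.injEq, true_and]
          refine ⟨?_, ?_⟩
          · group
          · group }
    let e4 : ((G × Rs (G × Y.Ω) N) × G) × (G × Y.Ω) ≃
        Rs (G × Y.Ω) N × ((G × G) × (G × Y.Ω)) :=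
      (e3.prodCongr (Equiv.refl _)).trans (Equiv.prodAssoc _ _ _)
    have he4 : ∀ x, (pr (pR (pr (unif G) Y.p) N) (p4 μ Y)) (e4 x) =
        (pr (pr (pZ Y N) (unif G)) (pr μ Y.p)) x := by
      intro x
      show pR (pr (unif G) Y.p) N x.1.1.2 * ((unif G (φ x.1).1 * unif G (φ x.1).2) *
          pr μ Y.p x.2) =
        ((unif G x.1.1.1 * pR (pr (unif G) Y.p) N x.1.1.2) * unif G x.1.2) * pr μ Y.p x.2
      rw [unif_eq (φ x.1).1 x.1.1.1, unif_eq (φ x.1).2 x.1.2]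
      generalize pr μ Y.p x.2 = c
      ring
    have n1 : H (pr (pr (pZ Y N) (unif G)) (pr μ Y.p)) (fun z => (φ z.1, f1 (φ z.1) z.2)) =
        H (p4 μ Y) (fun z => (z.1, f1 z.1 z.2)) := by
      rw [← H_snd hRN (fun z : (G × G) × (G × Y.Ω) => (z.1, f1 z.1 z.2))]
      exact H_equiv e4 he4 (fun z : Rs (G × Y.Ω) N × ((G × G) × (G × Y.Ω)) =>
        (z.2.1, f1 z.2.1 z.2.2))
    have n2 : H (pr (pr (pZ Y N) (unif G)) (pr μ Y.p)) (fun z => (φ z.1, f2 (φ z.1) z.2)) =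
        H (p4 μ Y) (fun z => (z.1, f2 z.1 z.2)) := by
      rw [← H_snd hRN (fun z : (G × G) × (G × Y.Ω) => (z.1, f2 z.1 z.2))]
      exact H_equiv e4 he4 (fun z : Rs (G × Y.Ω) N × ((G × G) × (G × Y.Ω)) =>
        (z.2.1, f2 z.2.1 z.2.2))
    have hj : jay A μ Y = eta A Y - (H (p4 μ Y) (fun z => (z.1, f1 z.1 z.2)) -
        H (p4 μ Y) (fun z => (z.1, f2 z.1 z.2))) := rfl
    rw [hj]
    linarith
  unfold QQ
  rw [b1, b2, b3, b4]
  linarith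

end Step

/-- The information is at most `N` times the information of one step. -/
theorem chainQ (A : Act G P) (μ : G → ℝ) (hμ : IsLaw μ) (Y : Model G) :
    ∀ N : ℕ, QQ A μ Y N ≤ N * jay A μ Y := by
  intro N
  induction N with
  | zero =>
    rw [QQ_zero A μ hμ Y]
    simp
  | succ N ih =>
    have h := step (A := A) (Y := Y) (N := N) hμ
    push_cast
    linarith

end Pool.Agent.TH408.GR.Chain
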