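import Pool.Agent.TH408.GR.Chain2

/-!
# The core chain inequality
-/

set_option autoImplicit false
set_option linter.unusedSectionVars false

open Finset
open scoped Classical

namespace Pool.Agent.TH408.GR.Chain

open Pool.Agent.W904.AK Pool.Agent.TH408.GR

theorem tCHAIN : S_CHAIN := by
  intro G P _ _ _ _ A ℓ m hstar hm μ hμ Y N
  have hu : IsLaw (unif G) := unif_law G
  have hα : IsLaw (pr (unif G) Y.p) := pr_law hu Y.law
  set q := pR (pr (unif G) Y.p) N with hq_def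
  have hq : IsLaw q := pR_law hα N
  have hZ : IsLaw (pZ Y N) := pr_law hu hq
  have hp : IsLaw (pr μ q) := pr_law hμ hq
  have hp2 : IsLaw (pr μ (pZ Y N)) := pr_law hμ hZ
  have hS : IsLaw (pr (pr μ q) (unif G)) := pr_law hp hu
  have h1 := hstar (G × Rs (G × Y.Ω) N) (List (G × Y.Θ)) (pr μ q)
    (fun z => z.1 * PP Y N z.2) (fun z => CC Y N z.2) hp
  have h2 := growth μ hμ Y N
  have h3 := chainQ A μ hμ Y N
  -- change of variables
  let e : (G × Rs (G × Y.Ω) N) × G ≃ G × (G × Rs (G × Y.Ω) N) :=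
    { toFun := fun z => (z.1.1, (PP Y N z.1.2 * z.2, z.1.2))
      invFun := fun z => ((z.1, z.2.2), (PP Y N z.2.2)⁻¹ * z.2.1)
      left_inv := fun z => by
        obtain ⟨⟨x, r⟩, U⟩ := z
        simp
      right_inv := fun z => by
        obtain ⟨x, u, r⟩ := z
        simp }
  have he : ∀ x, (pr μ (pZ Y N)) (e x) = (pr (pr μ q) (unif G)) x := by
    intro x
    show μ x.1.1 * (unif G (PP Y N x.1.2 * x.2) * q x.1.2) = (μ x.1.1 * q x.1.2) * unif G x.2
    rw [unif_eq (PP Y N x.1.2 * x.2) x.2]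
    ring
  have hU : ∀ x, UU Y N (e x).2 = x.2 := by
    intro x
    show (PP Y N x.1.2)⁻¹ * (PP Y N x.1.2 * x.2) = x.2
    rw [inv_mul_cancel_left]
  have hV : ∀ x, VV A Y N (e x) = x.1.1 * PP Y N x.1.2 * (x.2 * A.k * x.2⁻¹) := by
    intro x
    show x.1.1 * ((PP Y N x.1.2 * x.2) * A.k * (PP Y N x.1.2 * x.2)⁻¹) * PP Y N x.1.2 = _
    group
  have c1 : H (pr (pr μ q) (unif G)) (fun z => (CC Y N z.1.2, z.2 • A.e0, z.2 • A.e1,
      z.1.1 * PP Y N z.1.2 * (z.2 * A.k * z.2⁻¹))) =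
      H (pr μ (pZ Y N)) (fun z => (CC Y N z.2.2, UU Y N z.2 • A.e0, UU Y N z.2 • A.e1,
        VV A Y N z)) := by
    rw [← H_equiv e he]
    simp only [hU, hV]
    rfl
  have c2 : H (pr (pr μ q) (unif G)) (fun z => (CC Y N z.1.2, z.2 • A.e0, z.2 • A.e1,
      z.2 • A.e2, z.1.1 * PP Y N z.1.2 * (z.2 * A.k * z.2⁻¹))) =
      H (pr μ (pZ Y N)) (fun z => (CC Y N z.2.2, UU Y N z.2 • A.e0, UU Y N z.2 • A.e1,
        UU Y N z.2 • A.e2, VV A Y N z)) := by
    rw [← H_equiv e he]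
    simp only [hU, hV]
    rfl
  -- (f1)
  have f1 : H (pr (pr μ q) (unif G)) (fun z => (CC Y N z.1.2, z.2 • A.e0, z.2 • A.e1,
      z.2 • A.e2, z.1.1 * PP Y N z.1.2 * (z.2 * A.k * z.2⁻¹))) =
      H (pr μ q) (fun z => (CC Y N z.2, z.1 * PP Y N z.2)) +
        H (unif G) (fun u => (u • A.e0, u • A.e1, u • A.e2)) := by
    rw [← H_ind hp hu (fun z => (CC Y N z.2, z.1 * PP Y N z.2))
      (fun u => (u • A.e0, u • A.e1, u • A.e2))]
    apply H_congr hS
    · intro x y _ _ h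
      simp only [Prod.mk.injEq] at h ⊢
      obtain ⟨h1, h2, h3, h4, h5⟩ := h
      rw [A.conj x.2 y.2 h2 h3 h4] at h5
      exact ⟨⟨h1, mul_right_cancel h5⟩, h2, h3, h4⟩
    · intro x y _ _ h
      simp only [Prod.mk.injEq] at h ⊢
      obtain ⟨⟨h1, h5⟩, h2, h3, h4⟩ := h
      refine ⟨h1, h2, h3, h4, ?_⟩
      rw [A.conj x.2 y.2 h2 h3 h4, h5]
  -- (f3)
  have f3 : H (pr (pr μ q) (unif G)) (fun z => (CC Y N z.1.2, z.2 • A.e0, z.2 • A.e1)) =
      H (pr μ q) (fun z => CC Y N z.2) + H (unif G) (fun u => (u • A.e0, u • A.e1)) :=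
    H_ind hp hu (fun z => CC Y N z.2) (fun u => (u • A.e0, u • A.e1))
  -- (f4)
  have f4 : H (unif G) (fun u => (u • A.e0, u • A.e1, u • A.e2)) ≤
      H (unif G) (fun u => (u • A.e0, u • A.e1)) + Real.log (Fintype.card P) := by
    have g1 : H (unif G) (fun u => (u • A.e0, u • A.e1, u • A.e2)) ≤
        H (unif G) (fun u => (u • A.e0, u • A.e1)) + H (unif G) (fun u => u • A.e2) := by
      apply subadd hu
      intro x y _ _ h
      simp only [Prod.mk.injEq] at h ⊢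
      exact ⟨h.1.1, h.1.2, h.2⟩
    have g2 : H (unif G) (fun u : G => u • A.e2) ≤ Real.log (Fintype.card P) := by
      have := H_le_log_card hu (fun u : G => u • A.e2) Finset.univ (fun x _ => Finset.mem_univ _)
      rwa [Finset.card_univ] at this
    linarith
  -- (f5)
  have f5 : H (pr μ (pZ Y N)) (fun z => (Pub A Y N z.2, UU Y N z.2 • A.e2, VV A Y N z)) +
      H (pr μ (pZ Y N)) (fun z => (CC Y N z.2.2, UU Y N z.2 • A.e0, UU Y N z.2 • A.e1,
        VV A Y N z)) ≤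
      H (pr μ (pZ Y N)) (fun z => (Pub A Y N z.2, VV A Y N z)) +
      H (pr μ (pZ Y N)) (fun z => (CC Y N z.2.2, UU Y N z.2 • A.e0, UU Y N z.2 • A.e1,
        UU Y N z.2 • A.e2, VV A Y N z)) := by
    apply submod' hp2
    · intro x y _ _ h
      simp only [Pub, Prod.mk.injEq] at h ⊢
      obtain ⟨⟨h1, h2, h3⟩, h4⟩ := h
      obtain ⟨h5, h6⟩ := AB_det A Y N h2
      exact ⟨h1, h5, h6, h4⟩
    · intro x y _ _ h
      simp only [Prod.mk.injEq] at h ⊢
      exact ⟨h.1, h.2.1, h.2.2.1, h.2.2.2.2⟩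
    · intro x y _ _ h
      simp only [Prod.mk.injEq] at h ⊢
      exact ⟨h.1.1, h.2.2.2.2.1, h.1.2⟩
  -- (f6)
  have f6 : H (pr μ (pZ Y N)) (fun z => (Pub A Y N z.2, CT A Y N z.2, VV A Y N z)) +
      H (pr μ (pZ Y N)) (fun z => (Pub A Y N z.2, UU Y N z.2 • A.e2)) ≤
      H (pr μ (pZ Y N)) (fun z => (Pub A Y N z.2, CT A Y N z.2)) +
      H (pr μ (pZ Y N)) (fun z => (Pub A Y N z.2, UU Y N z.2 • A.e2, VV A Y N z)) := by
    apply submod' hp2
    · intro x y _ _ h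
      simp only [Prod.mk.injEq] at h ⊢
      exact ⟨h.1, CT_det A Y N h.2⟩
    · intro x y _ _ h
      simp only [Prod.mk.injEq] at h ⊢
      exact ⟨h.1, h.2.1⟩
    · intro x y _ _ h
      simp only [Prod.mk.injEq] at h ⊢
      exact ⟨h.1.1, h.1.2, h.2.2.2⟩
  have f7 : H (pr μ (pZ Y N)) (fun z => (Pub A Y N z.2, UU Y N z.2 • A.e2)) =
      H (pZ Y N) (fun z => (Pub A Y N z, UU Y N z • A.e2)) :=
    H_snd hμ (fun z => (Pub A Y N z, UU Y N z • A.e2))
  have f8 : H (pr μ (pZ Y N)) (fun z => Pub A Y N z.2) = H (pZ Y N) (Pub A Y N) :=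
    H_snd hμ (Pub A Y N)
  have hQ : QQ A μ Y N =
    (H (pr μ (pZ Y N)) (fun z => (Pub A Y N z.2, CT A Y N z.2)) -
      H (pr μ (pZ Y N)) (fun z => Pub A Y N z.2)) -
    (H (pr μ (pZ Y N)) (fun z => (Pub A Y N z.2, CT A Y N z.2, VV A Y N z)) -
      H (pr μ (pZ Y N)) (fun z => (Pub A Y N z.2, VV A Y N z))) := rfl
  have hh : hend A Y N = H (pZ Y N) (fun z => (Pub A Y N z, UU Y N z • A.e2)) -
    H (pZ Y N) (Pub A Y N) := rfl
  rw [hQ] at h3
  refine le_trans ?_ (le_trans h1 (mul_le_mul_of_nonneg_left ?_ hm.le))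
  · linarith
  · rw [hh]
    rw [← f7, ← f8]
    linarith

end Pool.Agent.TH408.GR.Chain
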