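import Pool.Agent.TH408.GR.Bas

/-!
# Definitions for the growth theorem

`G` is a finite group acting on a finite set `P` with three base points and an element `k`
(for the alternating group: a 3-cycle on the base points).
-/

set_option autoImplicit false
set_option linter.unusedSectionVars false

open Finset
open scoped Classical

namespace Pool.Agent.TH408.GR

open Pool.Agent.W904.AK

/-- A finite group acting on a finite set, with three base points and a distinguished element. -/
structure Act (G P : Type) [Group G] [MulAction G P] where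
  e0 : P
  e1 : P
  e2 : P
  k : G
  h01 : e0 ≠ e1
  h02 : e0 ≠ e2
  h12 : e1 ≠ e2
  conj : ∀ u v : G, u • e0 = v • e0 → u • e1 = v • e1 → u • e2 = v • e2 →
    u * k * u⁻¹ = v * k * v⁻¹
  t1 : ∀ x y : P, ∃ s : G, s • x = y
  t3 : ∀ x y : P, x ≠ e0 → x ≠ e1 → y ≠ e0 → y ≠ e1 →
    ∃ s : G, s • e0 = e0 ∧ s • e1 = e1 ∧ s • x = y
  t4 : ∀ x y : P, x ≠ e0 → x ≠ e1 → x ≠ e2 → y ≠ e0 → y ≠ e1 → y ≠ e2 →
    ∃ s : G, s • e0 = e0 ∧ s • e1 = e1 ∧ s • e2 = e2 ∧ s • x = y

section Def

variable {G P : Type} [Group G] [Fintype G] [Fintype P] [MulAction G P]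

/-- The star inequality with constants `ℓ` and `m`: multiplying `W` by a random conjugate
`u k u⁻¹` of `k`, with `u e₀`, `u e₁` known, increases the entropy. -/
def StarIneq (A : Act G P) (ℓ m : ℝ) : Prop :=
  ∀ (Ω Γ : Type) [Fintype Ω] (p : Ω → ℝ) (W : Ω → G) (C : Ω → Γ), IsLaw p →
    ℓ - (H p (fun x => (C x, W x)) - H p C) ≤
      m * ((H (pr p (unif G)) (fun z => (C z.1, z.2 • A.e0, z.2 • A.e1,
          W z.1 * (z.2 * A.k * z.2⁻¹))) -
        H (pr p (unif G)) (fun z => (C z.1, z.2 • A.e0, z.2 • A.e1))) -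
        (H p (fun x => (C x, W x)) - H p C))

/-- A finite model of a random group element `y` together with public information `θ`. -/
structure Model (G : Type) where
  Ω : Type
  [fin : Fintype Ω]
  Θ : Type
  p : Ω → ℝ
  law : IsLaw p
  y : Ω → G
  θ : Ω → Θ

attribute [instance] Model.fin

/-- The conditional entropy of the preimage of the third point of a random triple, given the
public information and the preimages of the first two points. -/
noncomputable def eta (A : Act G P) (Y : Model G) : ℝ :=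
  H (pr (unif G) Y.p) (fun z => (z.1, (Y.θ z.2, (Y.y z.2)⁻¹ • z.1 • A.e0,
      (Y.y z.2)⁻¹ • z.1 • A.e1, (Y.y z.2)⁻¹ • z.1 • A.e2))) -
    H (pr (unif G) Y.p) (fun z => (z.1, (Y.θ z.2, (Y.y z.2)⁻¹ • z.1 • A.e0,
      (Y.y z.2)⁻¹ • z.1 • A.e1)))

/-- The law of `((g, u), (X, ω))`. -/
noncomputable def p4 (μ : G → ℝ) (Y : Model G) : (G × G) × (G × Y.Ω) → ℝ :=
  pr (pr (unif G) (unif G)) (pr μ Y.p)

/-- The information that `X g y` gives about the preimage of the third point of a random triple,
given the public information, `g`, and the preimages of the first two points. -/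
noncomputable def jay (A : Act G P) (μ : G → ℝ) (Y : Model G) : ℝ :=
  eta A Y -
    (H (p4 μ Y) (fun z => (z.1, (Y.θ z.2.2, (Y.y z.2.2)⁻¹ • z.1.2 • A.e0,
        (Y.y z.2.2)⁻¹ • z.1.2 • A.e1, z.2.1 * z.1.1 * Y.y z.2.2,
        (Y.y z.2.2)⁻¹ • z.1.2 • A.e2))) -
      H (p4 μ Y) (fun z => (z.1, (Y.θ z.2.2, (Y.y z.2.2)⁻¹ • z.1.2 • A.e0,
        (Y.y z.2.2)⁻¹ • z.1.2 • A.e1, z.2.1 * z.1.1 * Y.y z.2.2))))

/-- The entropy growth `H(X g y | g, θ) - H(X)`. -/
noncomputable def eff (μ : G → ℝ) (Y : Model G) : ℝ :=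
  H (pr (unif G) (pr μ Y.p)) (fun z => (z.1, (Y.θ z.2.2, z.2.1 * z.1 * Y.y z.2.2))) -
    H (pr (unif G) (pr μ Y.p)) (fun z => (z.1, Y.θ z.2.2)) - H μ (fun x => x)

end Def

/-! ### Iterated products -/

/-- The `N`-fold power of a type, defined recursively. -/
def Rs (α : Type) : ℕ → Type
  | 0 => Unit
  | (N + 1) => Rs α N × α

instance instRs (α : Type) [Fintype α] : ∀ N, Fintype (Rs α N)
  | 0 => inferInstanceAs (Fintype Unit)
  | (N + 1) => by
      haveI := instRs α N
      exact inferInstanceAs (Fintype (Rs α N × α))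

/-- The `N`-fold power of a law. -/
def pR {α : Type} (q : α → ℝ) : ∀ N, Rs α N → ℝ
  | 0, _ => 1
  | (N + 1), r => pR q N r.1 * q r.2

lemma pR_law {α : Type} [Fintype α] {q : α → ℝ} (hq : IsLaw q) : ∀ N, IsLaw (pR q N)
  | 0 => by
      constructor
      · intro x
        exact zero_le_one
      · show ∑ x : Unit, (1 : ℝ) = 1
        simp
  | (N + 1) => by
      have h := pr_law (pR_law hq N) hq
      exact h

/-- The model of a law `ν` on `G`, without public information. -/
def Model.pure {G : Type} [Fintype G] (ν : G → ℝ) (h : IsLaw ν) : Model G where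
  Ω := G
  Θ := Unit
  p := ν
  law := h
  y := id
  θ := fun _ => ()

section Img

variable {G P : Type} [Group G] [Fintype G] [Fintype P] [MulAction G P]

/-- The preimages under `y` of the triples `u • (e₀, e₁, e₂)` of a sequence. -/
def img (A : Act G P) : ∀ i, Rs G i → G → List (P × P × P)
  | 0, _, _ => []
  | (i + 1), s, y => (y⁻¹ • s.2 • A.e0, y⁻¹ • s.2 • A.e1, y⁻¹ • s.2 • A.e2) :: img A i s.1 y

/-- The model of a law `ν` on `G` with the preimages of `i` random triples as public
information. -/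
noncomputable def Mi (A : Act G P) (ν : G → ℝ) (h : IsLaw ν) (i : ℕ) : Model G where
  Ω := Rs G i × G
  Θ := Rs G i × List (P × P × P)
  p := pr (pR (unif G) i) ν
  law := pr_law (pR_law (unif_law G) i) h
  y := fun z => z.2
  θ := fun z => (z.1, img A i z.1 z.2)

end Img

/-! ### Statements of the parts -/

/-- The sum of the conditional entropies along a random sequence of triples. -/
def S_ETA : Prop :=
  ∀ (G P : Type) [Group G] [Fintype G] [Fintype P] [MulAction G P] [FaithfulSMul G P]
    (A : Act G P) (ν : G → ℝ)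
    (h : IsLaw ν), 6 ≤ Fintype.card P →
    (1 / 4 : ℝ) * ((19 / 20) * H ν (fun x => x) - 2 * Real.log (Fintype.card P)) ≤
      ∑ i ∈ Finset.range (Fintype.card P), eta A (Mi A ν h i)

/-- The sum of the informations. -/
def S_JAY : Prop :=
  ∀ (G P : Type) [Group G] [Fintype G] [Fintype P] [MulAction G P] (A : Act G P) (μ ν : G → ℝ)
    (_ : IsLaw μ) (h : IsLaw ν) (n : ℕ),
    ∑ i ∈ Finset.range n, jay A μ (Mi A ν h i) ≤ eff μ (Model.pure ν h)

/-- Public information does not increase the growth. -/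
def S_EFF : Prop :=
  ∀ (G P : Type) [Group G] [Fintype G] [Fintype P] [MulAction G P] (A : Act G P) (μ ν : G → ℝ)
    (_ : IsLaw μ) (h : IsLaw ν) (i : ℕ),
    eff μ (Mi A ν h i) ≤ eff μ (Model.pure ν h)

end Pool.Agent.TH408.GR
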