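import Mathlib

set_option autoImplicit false

namespace Pool.Agent.TH408.GR

open Finset ArithmeticFunction

/-- the Jacobi symbol as an arithmetic function -/
def jf (D : ℤ) : ArithmeticFunction ℤ :=
  ⟨fun n => if n = 0 then 0 else jacobiSym D n, by simp⟩

theorem jf_apply (D : ℤ) {n : ℕ} (hn : n ≠ 0) : jf D n = jacobiSym D n := by
  simp [jf, hn]

theorem jf_mult (D : ℤ) : (jf D).IsMultiplicative := by
  rw [IsMultiplicative.iff_ne_zero]
  refine ⟨by rw [jf_apply D one_ne_zero]; exact jacobiSym.one_right D, ?_⟩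
  intro m n hm hn _
  haveI : NeZero m := ⟨hm⟩
  haveI : NeZero n := ⟨hn⟩
  rw [jf_apply D hm, jf_apply D hn, jf_apply D (mul_ne_zero hm hn)]
  exact jacobiSym.mul_right D m n

theorem geom_nonneg (x : ℤ) (hx : x = 0 ∨ x = 1 ∨ x = -1) (k : ℕ) :
    0 ≤ ∑ i ∈ range (k + 1), x ^ i := by
  rcases hx with rfl | rfl | rfl
  · rw [sum_range_succ']
    simp
  · simp; omega
  · rw [neg_one_geom_sum]
    split_ifs <;> norm_num

theorem sum_nonneg_pow (D : ℤ) {p : ℕ} (hp : p.Prime) (k : ℕ) :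
    0 ≤ (jf D * (zeta : ArithmeticFunction ℤ)) (p ^ k) := by
  rw [coe_mul_zeta_apply, Nat.sum_divisors_prime_pow hp]
  have : ∑ i ∈ range (k + 1), jf D (p ^ i) = ∑ i ∈ range (k + 1), (jacobiSym D p) ^ i := by
    refine sum_congr rfl fun i _ => ?_
    rw [jf_apply D (pow_ne_zero _ hp.ne_zero), jacobiSym.pow_right]
  rw [this]
  exact geom_nonneg _ (jacobiSym.trichotomy D p) k

theorem sum_div_nonneg (D : ℤ) {n : ℕ} (hn : n ≠ 0) :
    0 ≤ ∑ d ∈ n.divisors, ((jacobiSym D d : ℤ) : ℝ) := by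
  have h1 : (jf D * (zeta : ArithmeticFunction ℤ)) n = ∑ d ∈ n.divisors, jacobiSym D d := by
    rw [coe_mul_zeta_apply]
    exact sum_congr rfl fun d hd => jf_apply D (Nat.pos_of_mem_divisors hd).ne'
  have h2 : 0 ≤ (jf D * (zeta : ArithmeticFunction ℤ)) n := by
    rw [((jf_mult D).mul isMultiplicative_zeta.natCast).multiplicative_factorization _ hn]
    refine Finset.prod_nonneg fun p hp => ?_
    exact sum_nonneg_pow D (Nat.prime_of_mem_primeFactors (by simpa using hp)) _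
  rw [h1] at h2
  exact_mod_cast h2

end Pool.Agent.TH408.GR
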