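import Pool.Agent.TH408.GR.Defs

/-!
# Statements of the remaining parts of the growth theorem
-/

set_option autoImplicit false
set_option linter.unusedSectionVars false

open Finset
open scoped Classical

namespace Pool.Agent.TH408.GR

open Pool.Agent.W904.AK

section Chain

variable {G P : Type} [Group G] [Fintype G] [Fintype P] [MulAction G P]

/-- The product `h₁ y₁ h₂ y₂ ... h_N y_N`. -/
def PP (Y : Model G) : ∀ N, Rs (G × Y.Ω) N → G
  | 0, _ => 1
  | (N + 1), r => PP Y N r.1 * (r.2.1 * Y.y r.2.2)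

/-- The public information `(h_j, θ_j)`. -/
def CC (Y : Model G) : ∀ N, Rs (G × Y.Ω) N → List (G × Y.Θ)
  | 0, _ => []
  | (N + 1), r => (r.2.1, Y.θ r.2.2) :: CC Y N r.1

/-- The group element `(h₁ y₁ ... h_N y_N)⁻¹ u`. -/
def UU (Y : Model G) (N : ℕ) (z : G × Rs (G × Y.Ω) N) : G := (PP Y N z.2)⁻¹ * z.1

/-- The trajectory of the first two points of the triple. -/
def AB (A : Act G P) (Y : Model G) : ∀ N, G × Rs (G × Y.Ω) N → List (P × P)
  | 0, z => [(z.1 • A.e0, z.1 • A.e1)]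
  | (N + 1), z => (UU Y (N + 1) z • A.e0, UU Y (N + 1) z • A.e1) :: AB A Y N (z.1, z.2.1)

/-- The trajectory of the third point of the triple. -/
def CT (A : Act G P) (Y : Model G) : ∀ N, G × Rs (G × Y.Ω) N → List P
  | 0, z => [z.1 • A.e2]
  | (N + 1), z => UU Y (N + 1) z • A.e2 :: CT A Y N (z.1, z.2.1)

/-- All the public data: `h_j`, `θ_j`, the starting triple, the first two trajectories. -/
def Pub (A : Act G P) (Y : Model G) (N : ℕ) (z : G × Rs (G × Y.Ω) N) :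
    List (G × Y.Θ) × List (P × P) × P := (CC Y N z.2, AB A Y N z, z.1 • A.e2)

/-- The law of `(u, (h_j, ω_j)_j)`. -/
noncomputable def pZ (Y : Model G) (N : ℕ) : G × Rs (G × Y.Ω) N → ℝ :=
  pr (unif G) (pR (pr (unif G) Y.p) N)

/-- The conditional entropy of the final position of the third point given the public data. -/
noncomputable def hend (A : Act G P) (Y : Model G) (N : ℕ) : ℝ :=
  H (pZ Y N) (fun z => (Pub A Y N z, UU Y N z • A.e2)) - H (pZ Y N) (Pub A Y N)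

/-- The surprisal of the preimage of the third point given `θ` and the first two preimages. -/
noncomputable def sv (A : Act G P) (Y : Model G) (z : G × Y.Ω) : ℝ :=
  -Real.log
    (im Y.p (fun ω => (Y.θ ω, (Y.y ω)⁻¹ • z.1 • A.e0, (Y.y ω)⁻¹ • z.1 • A.e1,
        (Y.y ω)⁻¹ • z.1 • A.e2))
      (Y.θ z.2, (Y.y z.2)⁻¹ • z.1 • A.e0, (Y.y z.2)⁻¹ • z.1 • A.e1, (Y.y z.2)⁻¹ • z.1 • A.e2) /
    im Y.p (fun ω => (Y.θ ω, (Y.y ω)⁻¹ • z.1 • A.e0, (Y.y ω)⁻¹ • z.1 • A.e1))
      (Y.θ z.2, (Y.y z.2)⁻¹ • z.1 • A.e0, (Y.y z.2)⁻¹ • z.1 • A.e1))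

end Chain

/-- The sequence of values of `v` along a sequence. -/
def vs {α : Type} (v : α → ℝ) : ∀ N, Rs α N → List ℝ
  | 0, _ => []
  | (N + 1), s => v s.2 :: vs v N s.1

/-- `κ(l) = e^{-s} + (1 - e^{-s}) w`, `s` the sum of `l`. -/
noncomputable def kap (w : ℝ) (l : List ℝ) : ℝ := Real.exp (-l.sum) + (1 - Real.exp (-l.sum)) * w

/-- The core chain inequality. -/
def S_CHAIN : Prop :=
  ∀ (G P : Type) [Group G] [Fintype G] [Fintype P] [MulAction G P] (A : Act G P) (ℓ m : ℝ)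
    (_ : StarIneq A ℓ m) (_ : 0 < m) (μ : G → ℝ) (_ : IsLaw μ) (Y : Model G) (N : ℕ),
    ℓ - H μ (fun x => x) - N * eff μ Y ≤
      m * (N * jay A μ Y + (Real.log (Fintype.card P) - hend A Y N))

/-- The one point lemma. -/
def S_PT : Prop :=
  ∀ (G P : Type) [Group G] [Fintype G] [Fintype P] [MulAction G P] (A : Act G P) (Y : Model G)
    (N : ℕ), 4 ≤ Fintype.card P →
    ∑ s : Rs (G × Y.Ω) N, pR (pr (unif G) Y.p) N s *
        -Real.log (kap (1 / ((Fintype.card P : ℝ) - 3)) (vs (sv A Y) N s)) ≤ hend A Y N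

/-- The surprisal has mean `eta`, is nonnegative, and has `E e^v ≤ n`. -/
def S_SV : Prop :=
  ∀ (G P : Type) [Group G] [Fintype G] [Fintype P] [MulAction G P] (A : Act G P) (Y : Model G),
    (∑ z, pr (unif G) Y.p z * sv A Y z = eta A Y) ∧
    (∀ z, pr (unif G) Y.p z ≠ 0 → 0 ≤ sv A Y z) ∧
    (∑ z, pr (unif G) Y.p z * Real.exp (sv A Y z) ≤ Fintype.card P)

/-- Lower tail of sums of independent nonnegative variables. -/
def S_TAIL : Prop :=
  ∀ (α : Type) [Fintype α] (q : α → ℝ) (v : α → ℝ) (w : ℝ) (N : ℕ), IsLaw q →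
    (∀ a, q a ≠ 0 → 0 ≤ v a) → 0 < w → w ≤ 1 / 3 →
    (1 - Real.exp 1 * (∑ a, q a * Real.exp (-(v a / -Real.log w))) ^ N) *
        (-Real.log w - Real.log 2) ≤
      ∑ s : Rs α N, pR q N s * -Real.log (kap w (vs v N s))

/-- Laplace transform in terms of the mean. -/
def S_MBD : Prop :=
  ∀ (α : Type) [Fintype α] (q : α → ℝ) (v : α → ℝ) (L : ℝ), IsLaw q →
    (∀ a, q a ≠ 0 → 0 ≤ v a) → 0 < L →
    ∑ a, q a * Real.exp (-(v a / L)) ≤
      1 - (31 / 100) * ((∑ a, q a * v a) - Real.exp (-(3 * L)) * ∑ a, q a * Real.exp (v a)) / L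

/-! ### The alternating group -/

/-- The product `r₀(i₀) r₁(i₁) ... r_{m-1}(i_{m-1})` with `r_j(i) = π_j(i) k π_j(i)⁻¹ t_j`. -/
def prR {G : Type} [Group G] (k : G) (π : ℕ → ℕ → G) (t : ℕ → G) : ℕ → (ℕ → ℕ) → G
  | 0, _ => 1
  | (j + 1), i => prR k π t j i * (π j (i j) * k * (π j (i j))⁻¹ * t j)

/-- Star systems: `m` stages with `s j` conjugates of `k` at stage `j`, all conjugators of a
stage agree at `e₀` and `e₁`, and all products are different. -/
def StarSys {G P : Type} [Group G] [MulAction G P] (A : Act G P) (m : ℕ) (s : ℕ → ℕ)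
    (π : ℕ → ℕ → G) (t : ℕ → G) : Prop :=
  (∀ j, j < m → 0 < s j) ∧
  (∀ j, j < m → ∀ i i', i < s j → i' < s j →
    π j i • A.e0 = π j i' • A.e0 ∧ π j i • A.e1 = π j i' • A.e1) ∧
  (∀ i i' : ℕ → ℕ, (∀ j, j < m → i j < s j) → (∀ j, j < m → i' j < s j) →
    prR A.k π t m i = prR A.k π t m i' → ∀ j, j < m → i j = i' j)

/-- A star system gives a star inequality. -/
def S_STAR1 : Prop :=
  ∀ (G P : Type) [Group G] [Fintype G] [Fintype P] [MulAction G P] (A : Act G P) (m : ℕ)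
    (s : ℕ → ℕ) (π : ℕ → ℕ → G) (t : ℕ → G), StarSys A m s π t →
    StarIneq A (Real.log ((∏ j ∈ Finset.range m, s j : ℕ) : ℝ)) (m : ℝ)

/-- The star system of the alternating group. -/
def S_ALT1 : Prop :=
  ∀ n : ℕ, 6 ≤ n → ∃ (A : Act (alternatingGroup (Fin n)) (Fin n)) (π : ℕ → ℕ →
    alternatingGroup (Fin n)) (t : ℕ → alternatingGroup (Fin n)),
    StarSys A (n - 3) (fun j => j + 2) π t

/-- The action of the alternating group, with its star inequality. -/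
def S_ALT : Prop :=
  ∀ n : ℕ, 6 ≤ n → ∃ A : Act (alternatingGroup (Fin n)) (Fin n),
    StarIneq A (Real.log (Nat.factorial (n - 2))) ((n : ℝ) - 3)

/-- Conjugacy classes of non-trivial elements of the alternating group have at least
`n³ / 1000` elements. -/
def S_CLS : Prop :=
  ∀ n : ℕ, 10 ≤ n → ∀ d w : alternatingGroup (Fin n), d ≠ 1 →
    ((univ.filter (fun h : alternatingGroup (Fin n) => h⁻¹ * d * h = w)).card : ℝ) ≤
      1000 / (n : ℝ) ^ 3 * Fintype.card (alternatingGroup (Fin n))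

/-- The product `h₁ y₁ h₂ y₂ ... h_M y_M`. -/
def PPh {G : Type} [Group G] : ∀ M, Rs G M → Rs G M → G
  | 0, _, _ => 1
  | (M + 1), h, y => PPh M h.1 y.1 * (h.2 * y.2)

/-- The law of the product for fixed `h`. -/
noncomputable def lawM {G : Type} [Group G] [Fintype G] (ν : G → ℝ) (M : ℕ) (h : Rs G M) :
    G → ℝ := im (pR ν M) (PPh M h)

/-- Collision probability of a product of random conjugates. -/
def S_COLL : Prop :=
  ∀ (G : Type) [Group G] [Fintype G] (ν : G → ℝ) (κ ς : ℝ), IsLaw ν → 0 ≤ κ →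
    ∑ x, ν x ^ 2 ≤ ς →
    (∀ d w : G, d ≠ 1 → ((univ.filter (fun h : G => h⁻¹ * d * h = w)).card : ℝ) ≤
      κ * Fintype.card G) →
    ∀ M : ℕ, ∑ h : Rs G M, pR (unif G) M h * ∑ x, lawM ν M h x ^ 2 ≤ ς ^ M + κ

/-- Growth of products of random conjugates. -/
def S_AMP : Prop :=
  ∀ (G : Type) [Group G] [Fintype G] (μ ν : G → ℝ) (_ : IsLaw μ) (hν : IsLaw ν) (M : ℕ)
    (hM : ∀ h : Rs G M, IsLaw (lawM ν M h)),
    ∑ h : Rs G M, pR (unif G) M h * eff μ (Model.pure (lawM ν M h) (hM h)) ≤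
      M * eff μ (Model.pure ν hν)

/-- The product set `B A^g`. -/
noncomputable def bag {G : Type} [Group G] (B A : Finset G) (g : G) : Finset G :=
  (B ×ˢ A).image (fun z => z.1 * (g⁻¹ * z.2 * g))

/-- Small `n`. -/
def S_SMALL : Prop :=
  ∀ N₀ : ℕ, ∃ c : ℝ, 0 < c ∧ ∀ n : ℕ, 5 ≤ n → n ≤ N₀ →
    ∀ A B : Finset (alternatingGroup (Fin n)), A.Nonempty → B ≠ univ →
      ∃ g, (B.card : ℝ) * (A.card : ℝ) ^ c ≤ ((bag B A g).card : ℝ)

/-- From entropies to cardinalities. -/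
def S_CARD : Prop :=
  ∀ (G : Type) [Group G] [Fintype G] (A B : Finset G) (_ : A.Nonempty) (_ : B.Nonempty),
    ∃ (μ ν : G → ℝ) (_ : IsLaw μ) (hν : IsLaw ν), H μ (fun x => x) = Real.log B.card ∧
      H ν (fun x => x) = Real.log A.card ∧ (∑ x, ν x ^ 2 ≤ 1 / (A.card : ℝ)) ∧
      ∃ g, (B.card : ℝ) * Real.exp (eff μ (Model.pure ν hν)) ≤ ((bag B A g).card : ℝ)

end Pool.Agent.TH408.GR
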